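import Pool.Agent.H47.SE.PerPot

/-! The nearest image convention is dominated by the periodization. -/

open MeasureTheory ProbabilityTheory
open scoped ENNReal NNReal Real

noncomputable section

namespace H47.SE

variable {v : E3 → ℝ} {L : ℝ}

lemma summable_ae [hL : Fact (0 < L)] (hv0 : ∀ x, 0 ≤ v x) (hvm : Measurable v)
    (hv : Integrable v) : ∀ᵐ x : E3, Summable (fun n : Fin 3 → ℤ => v (x + latt L n)) := by
  have hfin : ∀ᵐ x ∂(volume.restrict (cell L)),
      ∑' n : Fin 3 → ℤ, ENNReal.ofReal (v (x + latt L n)) < ∞ := by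
    apply ae_lt_top'
    · apply Measurable.aemeasurable
      apply Measurable.tsum
      intro n
      exact (hvm.comp (by fun_prop)).ennreal_ofReal
    · rw [lintegral_tsum]
      · simp_rw [setLIntegral_shift (L := L) _ (fun x => ENNReal.ofReal (v x))]
        rw [← lintegral_iUnion (measurableSet_cellAt L) (disjoint_cellAt L), iUnion_cellAt,
          Measure.restrict_univ]
        have := hv.2
        rw [hasFiniteIntegral_iff_ofReal (Filter.Eventually.of_forall hv0)] at this
        exact this.ne
      · intro n
        exact (hvm.comp (by fun_prop)).ennreal_ofReal.aemeasurable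
  have hS : ∀ x : E3, ∑' n : Fin 3 → ℤ, ENNReal.ofReal (v (x + latt L n)) < ∞ ↔
      Summable (fun n : Fin 3 → ℤ => v (x + latt L n)) := by
    intro x
    constructor
    · intro h
      have h1 := ENNReal.summable_toReal h.ne
      refine h1.congr ?_
      intro n
      rw [ENNReal.toReal_ofReal (hv0 _)]
    · intro h
      rw [← ENNReal.ofReal_tsum_of_nonneg (fun n => hv0 _) h]
      exact ENNReal.ofReal_lt_top
  have hper : ∀ (x : E3) (k : Fin 3 → ℤ), Summable (fun n : Fin 3 → ℤ => v (x + latt L k + latt L n))
      ↔ Summable (fun n : Fin 3 → ℤ => v (x + latt L n)) := by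
    intro x k
    rw [← (Equiv.addLeft k).summable_iff (f := fun n => v (x + latt L n))]
    apply Iff.of_eq
    congr 1
    ext n
    simp only [Function.comp, Equiv.coe_addLeft]
    rw [← latt_add, add_assoc]
  -- transfer from the cell to the whole space
  have h1 : ∀ n : Fin 3 → ℤ, ∀ᵐ x ∂(volume.restrict (cellAt L n)),
      Summable (fun k : Fin 3 → ℤ => v (x + latt L k)) := by
    intro n
    rw [ae_restrict_iff' (measurableSet_cell L)] at hfin
    rw [ae_restrict_iff' (measurableSet_cellAt L n)]
    have mp := (measurePreserving_sub_right (volume : Measure E3) (latt L n))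
    have h2 := mp.quasiMeasurePreserving.ae hfin
    filter_upwards [h2] with x hx hmem
    have h3 := (hS _).mp (hx hmem)
    have h4 : Summable (fun k : Fin 3 → ℤ => v (x - latt L n + latt L n + latt L k)) :=
      (hper (x - latt L n) n).mpr h3
    rwa [sub_add_cancel] at h4
  have h5 : ∀ᵐ x ∂(volume.restrict (⋃ n, cellAt L n)),
      Summable (fun k : Fin 3 → ℤ => v (x + latt L k)) := by
    rw [ae_restrict_iUnion_iff]
    exact h1
  rw [iUnion_cellAt, Measure.restrict_univ] at h5
  exact h5

lemma nearPot_le_perPot [hL : Fact (0 < L)] (hv0 : ∀ x, 0 ≤ v x) (hvm : Measurable v)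
    (hv : Integrable v) : ∀ᵐ x, nearPot v L x ≤ perPot v L x := by
  filter_upwards [summable_ae (L := L) hv0 hvm hv] with x hx
  unfold nearPot perPot
  exact hx.le_tsum _ (fun k _ => hv0 _)

lemma measurable_nearPot (hvm : Measurable v) (L : ℝ) : Measurable (nearPot v L) := by
  unfold nearPot
  apply hvm.comp
  apply measurable_id.add
  unfold latt
  apply (MeasurableEquiv.toLp 2 (Fin 3 → ℝ)).measurable.comp
  apply measurable_pi_lambda
  intro a
  apply Measurable.const_mul
  have h1 : Measurable (fun x : E3 => x a / L - 1 / 2) := by fun_prop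
  have h2 : Measurable (fun x : E3 => ⌈x a / L - 1 / 2⌉) := Int.measurable_ceil.comp h1
  have h3 : Measurable (fun k : ℤ => ((-k : ℤ) : ℝ)) := measurable_from_top
  exact h3.comp h2

lemma nearPot_nonneg (hv0 : ∀ x, 0 ≤ v x) (L : ℝ) (x : E3) : 0 ≤ nearPot v L x := hv0 _

/-- monotonicity of the ground state energy -/
theorem groundEnergy_mono [hL : Fact (0 < L)] {m : ℝ} (hm : 0 < m) {N : ℕ} {w w' : E3 → ℝ}
    (hw : ∀ x, 0 ≤ w x) (hw' : ∀ x, 0 ≤ w' x) (hwm' : Measurable w')
    (hwp' : ∀ x n, w' (x + latt L n) = w' x) (hwi' : Integrable w' (unif L))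
    (hle : ∀ᵐ x, w x ≤ w' x) :
    groundEnergy m w N L ≤ groundEnergy m w' N L := by
  have hkin : ∀ ψ : (Fin N → E3) → ℂ, 0 ≤ kinetic m N L ψ := by
    intro ψ
    unfold kinetic
    apply mul_nonneg (by positivity)
    apply Finset.sum_nonneg; intro i _
    apply Finset.sum_nonneg; intro a _
    exact integral_nonneg fun x => by positivity
  have hae : ∀ i j : Fin N, i ≠ j → ∀ᵐ x ∂(volume.restrict (box (Fin N) L)),
      w (x i - x j) ≤ w' (x i - x j) := by
    intro i j hij
    have h1 := (quasiMeasurePreserving_sub_of_right_invariant (volume : Measure E3)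
      (volume : Measure E3)).ae hle
    have hac : (unif L).prod (unif L) ≪ (volume : Measure E3).prod volume := by
      apply Measure.AbsolutelyContinuous.prod
      · exact (Measure.smul_absolutelyContinuous).trans Measure.restrict_le_self.absolutelyContinuous
      · exact (Measure.smul_absolutelyContinuous).trans Measure.restrict_le_self.absolutelyContinuous
    have h2 := hac.ae_le h1
    have mp := mp_pair (fun _ : Fin N => unif L) hij
    have h3 := mp.quasiMeasurePreserving.ae h2
    change ∀ᵐ x ∂(unifN (Fin N) L), w (x i - x j) ≤ w' (x i - x j) at h3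
    rw [unifN_eq, Measure.ae_ennreal_smul_measure_iff] at h3
    · exact h3
    · apply pow_ne_zero
      simp
  unfold groundEnergy
  apply le_csInf
  · refine ⟨_, fun _ => 1, ?_, rfl⟩
    refine ⟨contDiff_const, fun x n => rfl, ?_⟩
    have h3 : 0 < (L ^ 3) ^ Fintype.card (Fin N) := by have := hL.out; positivity
    have h4 := integral_unifN (ι := Fin N) L (fun _ => ‖(1 : ℂ)‖ ^ 2)
    rw [h4]
    simp only [norm_one, one_pow, integral_const, probReal_univ, one_smul, mul_one]
    exact h3
  · rintro r ⟨ψ, hψ, rfl⟩
    have h1 : sInf {r | ∃ ψ, IsTrial N L ψ ∧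
        r = (kinetic m N L ψ + potential w N L ψ) / ∫ x in box (Fin N) L, ‖ψ x‖ ^ 2} ≤
        (kinetic m N L ψ + potential w N L ψ) / ∫ x in box (Fin N) L, ‖ψ x‖ ^ 2 := by
      apply csInf_le
      · refine ⟨0, ?_⟩
        rintro r ⟨φ, hφ, rfl⟩
        apply div_nonneg _ hφ.pos.le
        apply add_nonneg (hkin φ)
        unfold potential
        apply Finset.sum_nonneg; intro p _
        split_ifs
        · exact integral_nonneg fun x => mul_nonneg (hw _) (by positivity)
        · exact le_refl _
      · exact ⟨ψ, hψ, rfl⟩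
    refine h1.trans ?_
    apply div_le_div_of_nonneg_right _ hψ.pos.le
    apply add_le_add_right
    unfold potential
    apply Finset.sum_le_sum
    intro p _
    split_ifs with hlt
    · have hcont : Continuous (fun x => ‖ψ x‖ ^ 2) := hψ.smooth.continuous.norm.pow 2
      obtain ⟨C, hC0, hC⟩ := exists_bound_box (L := L) _ hcont
      have hint : IntegrableOn (fun x : Fin N → E3 => w' (x p.1 - x p.2) * ‖ψ x‖ ^ 2)
          (box (Fin N) L) := by
        rw [integrable_unifN]
        obtain ⟨a1, _⟩ := integrable_diffN (N := N) hw' hwm' hwp' hwi' 0 hlt.ne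
        have a2 : Integrable (fun x : Fin N → E3 => w' (x p.1 - x p.2)) (unifN (Fin N) L) := by
          refine a1.congr ?_
          filter_upwards with x
          rw [add_zero]
        refine a2.mul_bdd (c := C) hcont.aestronglyMeasurable ?_
        filter_upwards [ae_mem_box] with x hx using hC x hx
      apply integral_mono_of_nonneg
      · filter_upwards with x
        exact mul_nonneg (hw _) (by positivity)
      · exact hint
      · filter_upwards [hae p.1 p.2 hlt.ne] with x hx
        exact mul_le_mul_of_nonneg_right hx (by positivity)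
    · exact le_refl _

/-- the nearest image convention gives a smaller energy than the periodization -/
theorem groundEnergy_near_le [hL : Fact (0 < L)] {m : ℝ} (hm : 0 < m) {N : ℕ}
    (hv0 : ∀ x, 0 ≤ v x) (hvm : Measurable v) (hv : Integrable v) :
    groundEnergy m (nearPot v L) N L ≤ groundEnergy m (perPot v L) N L :=
  groundEnergy_mono hm (nearPot_nonneg hv0 L) (perPot_nonneg hv0 L) (measurable_perPot hv0 hvm L)
    (perPot_periodic v L) (integrable_perPot hv0 hvm hv) (nearPot_le_perPot hv0 hvm hv)

end H47.SE
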