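import Pool.Agent.H47.SE.NonPos

/-! Thermodynamic limit of the two phase bound and the comparison theorem. -/

open MeasureTheory ProbabilityTheory FourierTransform Filter
open scoped ENNReal NNReal Real ComplexConjugate Topology

noncomputable section

namespace H47.SE

variable {v : E3 → ℝ}

lemma tendsto_side {ρ : ℝ} (hρ : 0 < ρ) : Tendsto (fun N : ℕ => side ρ N) atTop atTop := by
  unfold side
  have h1 : Tendsto (fun x : ℝ => x ^ ((1 : ℝ) / 3)) atTop atTop :=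
    tendsto_rpow_atTop (by norm_num)
  have h2 : Tendsto (fun N : ℕ => (N : ℝ) / ρ) atTop atTop :=
    Tendsto.atTop_div_const hρ tendsto_natCast_atTop_atTop
  exact h1.comp h2

theorem limit_nonpos {m : ℝ} (hm : 0 < m) (hv0 : ∀ x, 0 ≤ v x) (hvm : Measurable v)
    (hv : Integrable v) {ρ : ℝ} (hρ : 0 < ρ) {ξ : E3} (hξ : ξ ≠ 0) {e0 : ℝ}
    {E : ℕ → ℝ} (hEle : ∀ N, 0 < N → E N ≤ groundEnergy m (perPot v (side ρ N)) N (side ρ N))
    (he0 : Tendsto (fun N : ℕ => E N / N) atTop (𝓝 e0)) :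
    e0 ≤ 1 / (8 * m) * (∑ a, (2 * π * ξ a) ^ 2) +
      ρ * (1 / 2 * (∫ x, v x) - 1 / 32 * (‖vhat v ξ‖ - (vhat v ξ).re)) := by
  set I := ∫ x, v x with hI
  have hNt : Tendsto (fun n : ℕ => 2 * n) atTop atTop :=
    tendsto_atTop_mono (fun n => by simp only [id]; omega) tendsto_id
  have hE := he0.comp hNt
  have hLt : Tendsto (fun n : ℕ => side ρ (2 * n)) atTop atTop := (tendsto_side hρ).comp hNt
  have hfr : Tendsto (fun n : ℕ => frq (side ρ (2 * n)) (nfl (side ρ (2 * n)) ξ)) atTop (𝓝 ξ) :=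
    (tendsto_frq_nfl ξ).comp hLt
  have hcont : Continuous (vhat v) := continuous_fourier _ hv.ofReal
  have tz : Tendsto (fun n : ℕ => vhat v (frq (side ρ (2 * n)) (nfl (side ρ (2 * n)) ξ))) atTop
      (𝓝 (vhat v ξ)) := (hcont.tendsto ξ).comp hfr
  have tre : Tendsto (fun n : ℕ =>
      (vhat v (frq (side ρ (2 * n)) (nfl (side ρ (2 * n)) ξ))).re) atTop (𝓝 (vhat v ξ).re) :=
    (Complex.continuous_re.tendsto _).comp tz
  have tno : Tendsto (fun n : ℕ =>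
      ‖vhat v (frq (side ρ (2 * n)) (nfl (side ρ (2 * n)) ξ))‖) atTop (𝓝 ‖vhat v ξ‖) := tz.norm
  have tal : ∀ a : Fin 3, Tendsto (fun n : ℕ =>
      alp (side ρ (2 * n)) (nfl (side ρ (2 * n)) ξ) a ^ 2) atTop (𝓝 ((2 * π * ξ a) ^ 2)) := by
    intro a
    apply Tendsto.pow
    have h1 : Tendsto (fun n : ℕ => (frq (side ρ (2 * n)) (nfl (side ρ (2 * n)) ξ)) a) atTop
        (𝓝 (ξ a)) := by
      have hc : Continuous (fun x : E3 => x a) := by fun_prop
      exact (hc.tendsto ξ).comp hfr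
    refine (h1.const_mul (2 * π)).congr ?_
    intro n
    unfold alp
    rw [frq_apply]; ring
  have tn : Tendsto (fun n : ℕ => (1 : ℝ) / 2 - 1 / 4 * (n : ℝ)⁻¹) atTop (𝓝 (1 / 2 - 1 / 4 * 0)) :=
    ((tendsto_inv_atTop_zero.comp tendsto_natCast_atTop_atTop).const_mul (1 / 4 : ℝ)).const_sub _
  have tall : Tendsto (fun n : ℕ =>
      1 / (8 * m) * (∑ a, alp (side ρ (2 * n)) (nfl (side ρ (2 * n)) ξ) a ^ 2) +
      ρ * ((I + 1 / 8 * (vhat v (frq (side ρ (2 * n)) (nfl (side ρ (2 * n)) ξ))).re) *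
        (1 / 2 - 1 / 4 * (n : ℝ)⁻¹) - 1 / 32 * (‖vhat v (frq (side ρ (2 * n))
          (nfl (side ρ (2 * n)) ξ))‖ + (vhat v (frq (side ρ (2 * n))
          (nfl (side ρ (2 * n)) ξ))).re))) atTop
      (𝓝 (1 / (8 * m) * (∑ a, (2 * π * ξ a) ^ 2) +
        ρ * ((I + 1 / 8 * (vhat v ξ).re) * (1 / 2 - 1 / 4 * 0) -
          1 / 32 * (‖vhat v ξ‖ + (vhat v ξ).re)))) := by
    apply Tendsto.add
    · exact (tendsto_finsetSum _ fun a _ => tal a).const_mul _
    · apply Tendsto.const_mul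
      exact (((tre.const_mul (1 / 8 : ℝ)).const_add I).mul tn).sub ((tno.add tre).const_mul _)
  have hfin : 1 / (8 * m) * (∑ a, (2 * π * ξ a) ^ 2) +
        ρ * ((I + 1 / 8 * (vhat v ξ).re) * (1 / 2 - 1 / 4 * 0) -
          1 / 32 * (‖vhat v ξ‖ + (vhat v ξ).re)) =
      1 / (8 * m) * (∑ a, (2 * π * ξ a) ^ 2) +
      ρ * (1 / 2 * I - 1 / 32 * (‖vhat v ξ‖ - (vhat v ξ).re)) := by ring
  rw [← hfin]
  refine le_of_tendsto_of_tendsto hE tall ?_
  have hne : ∀ᶠ n : ℕ in atTop, frq (side ρ (2 * n)) (nfl (side ρ (2 * n)) ξ) ≠ 0 :=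
    hfr.eventually_ne hξ
  filter_upwards [hne, eventually_gt_atTop 0] with n hn hn0
  have hn0' : (0 : ℝ) < n := by exact_mod_cast hn0
  have hLpos : 0 < side ρ (2 * n) := side_pos hρ (by omega)
  have fL : Fact (0 < side ρ (2 * n)) := ⟨hLpos⟩
  simp only [Function.comp]
  have hN0 : (0 : ℝ) < ((2 * n : ℕ) : ℝ) := by push_cast; positivity
  rw [div_le_iff₀ hN0]
  refine (hEle (2 * n) (by omega)).trans ?_
  have hL3 : side ρ (2 * n) ^ 3 = 2 * n / ρ := by rw [side_pow hρ]; push_cast; rfl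
  set L := side ρ (2 * n) with hL
  set p := nfl L ξ with hp
  have hp0 : p ≠ 0 := by
    intro h
    apply hn
    rw [h, frq_zero]
  have hb := twophase_energy (L := L) hm hv0 hvm hv hp0 n
  rw [← hI, hL3] at hb
  refine hb.trans (le_of_eq ?_)
  push_cast
  field_simp
  ring

/-- high density comparison for potentials which are not of positive type -/
theorem main_nonpos {m0 : ℝ} (hm0 : 0 < m0) (hv0 : ∀ x, 0 ≤ v x) (hvm : Measurable v)
    (hv : Integrable v) (hI : 0 < ∫ x, v x) {ξ : E3}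
    (hξ : (vhat v ξ).re < ‖vhat v ξ‖) :
    ∃ ρ0 > 0, ∃ c > 0, ∀ m ≥ m0, ∀ ρ ≥ ρ0, ∀ u e, IsSimpleSolution m v ρ u e →
      ∀ (E : ℕ → ℝ) (e0 : ℝ),
      (∀ N, 0 < N → E N ≤ groundEnergy m (perPot v (side ρ N)) N (side ρ N)) →
      Tendsto (fun N : ℕ => E N / N) atTop (𝓝 e0) → e0 + c * ρ ≤ e := by
  set I := ∫ x, v x with hIdef
  have hξ0 : ξ ≠ 0 := by
    intro h
    rw [h, vhat_zero, Complex.ofReal_re, Complex.norm_real, Real.norm_eq_abs,
      abs_of_pos hI] at hξ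
    exact lt_irrefl _ hξ
  set g := ‖vhat v ξ‖ - (vhat v ξ).re with hg
  have hg0 : 0 < g := by rw [hg]; linarith
  set C := 1 / (8 * m0) * (∑ a, (2 * π * ξ a) ^ 2) with hC
  have hC0 : 0 ≤ C := by
    rw [hC]
    apply mul_nonneg (by positivity)
    exact Finset.sum_nonneg fun a _ => sq_nonneg _
  obtain ⟨ρ1, hρ1, hsmall⟩ := integral_uv_small hv hv0 hI (g / 32) (by positivity)
  refine ⟨max ρ1 (C / (g / 128)), lt_max_of_lt_left hρ1, g / 128, by positivity, ?_⟩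
  intro m hmm ρ hρ u e hu E e0 hE he0
  have hm : 0 < m := lt_of_lt_of_le hm0 hmm
  have hρ1' : ρ1 ≤ ρ := (le_max_left _ _).trans hρ
  have hρ2' : C / (g / 128) ≤ ρ := (le_max_right _ _).trans hρ
  have hρ0 : 0 < ρ := lt_of_lt_of_le hρ1 hρ1'
  have huv := hsmall m hm ρ hρ1' u e hu
  have he_eq := energy_eq hu hv
  have he1 : ρ / 2 * (I - g / 32) ≤ e := by
    rw [he_eq]
    apply mul_le_mul_of_nonneg_left _ (by positivity)
    linarith
  have hup := limit_nonpos hm hv0 hvm hv hρ0 hξ0 hE he0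
  rw [← hIdef, ← hg] at hup
  have hCm : 1 / (8 * m) * (∑ a, (2 * π * ξ a) ^ 2) ≤ C := by
    rw [hC]
    apply mul_le_mul_of_nonneg_right _ (Finset.sum_nonneg fun a _ => sq_nonneg _)
    apply one_div_le_one_div_of_le (by positivity)
    linarith
  rw [div_le_iff₀ (by positivity)] at hρ2'
  nlinarith

end H47.SE
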