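import Pool.Agent.H47.SE.SimpleBound

/-! `L²` bounds for solutions of the Simple equation. -/

open MeasureTheory SchwartzMap FourierTransform Laplacian
open scoped ENNReal NNReal Real

noncomputable section

namespace H47.SE

/-- Plancherel for real functions, in terms of Bochner integrals -/
lemma plancherel_real (f : E3 → ℝ) (h1 : Integrable f) (h2 : MemLp f 2) :
    Integrable (fun ξ => ‖𝓕 (fun x => (f x : ℂ)) ξ‖ ^ 2) ∧
      ∫ ξ, ‖𝓕 (fun x => (f x : ℂ)) ξ‖ ^ 2 = ∫ x, f x ^ 2 := by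
  set fc : E3 → ℂ := fun x => (f x : ℂ) with hfc
  have hc1 : Integrable fc := h1.ofReal
  have hc2 : MemLp fc 2 := h2.ofReal
  obtain ⟨p1, p2⟩ := plancherel fc hc1 hc2
  have i1 : Integrable (fun ξ => ‖𝓕 fc ξ‖ ^ 2) := (memLp_two_iff_integrable_sq_norm p1.1).mp p1
  refine ⟨i1, ?_⟩
  have e1 : eLpNorm (𝓕 fc) 2 volume ^ (2 : ℝ) = eLpNorm fc 2 volume ^ (2 : ℝ) := by rw [p2]
  have k1 := eLpNorm_nnreal_pow_eq_lintegral (μ := volume) (f := 𝓕 fc) (p := 2) (by norm_num)
  have k2 := eLpNorm_nnreal_pow_eq_lintegral (μ := volume) (f := fc) (p := 2) (by norm_num)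
  simp only [NNReal.coe_ofNat, ENNReal.coe_ofNat] at k1 k2
  rw [k1, k2] at e1
  have s1 : ∫ ξ, ‖𝓕 fc ξ‖ ^ 2 = (∫⁻ ξ, ‖𝓕 fc ξ‖ₑ ^ (2 : ℝ)).toReal := by
    rw [integral_eq_lintegral_of_nonneg_ae (Filter.Eventually.of_forall fun x => by positivity) i1.1]
    congr 1
    apply lintegral_congr; intro x
    rw [ENNReal.ofReal_pow (norm_nonneg _), ofReal_norm]
    norm_cast
  have s2 : ∫ x, f x ^ 2 = (∫⁻ x, ‖fc x‖ₑ ^ (2 : ℝ)).toReal := by
    have i2 : Integrable (fun x => f x ^ 2) := (memLp_two_iff_integrable_sq h2.1).mp h2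
    rw [integral_eq_lintegral_of_nonneg_ae (Filter.Eventually.of_forall fun x => by positivity) i2.1]
    congr 1
    apply lintegral_congr; intro x
    have : f x ^ 2 = ‖fc x‖ ^ 2 := by
      simp [hfc]
    rw [this, ENNReal.ofReal_pow (norm_nonneg _), ofReal_norm]
    norm_cast
  rw [s1, s2, e1]

variable {m : ℝ} {v : E3 → ℝ} {ρ : ℝ} {u : E3 → ℝ} {e : ℝ}

lemma memLp_u (h : IsSimpleSolution m v ρ u e) : MemLp u 2 := by
  rw [memLp_two_iff_integrable_sq h.integrable.1]
  refine Integrable.mono' h.integrable (h.integrable.1.pow 2) ?_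
  filter_upwards [h.bounds] with x hx
  rw [Real.norm_eq_abs, abs_of_nonneg (by positivity)]
  nlinarith [hx.1, hx.2]

lemma memLp_g (h : IsSimpleSolution m v ρ u e) (hv : Integrable v) (hv2 : MemLp v 2) :
    MemLp (fun x => (1 - u x) * v x) 2 := by
  refine hv2.mono (h.int_g hv).1 ?_
  filter_upwards [h.bounds] with x hx
  rw [norm_mul]
  have : ‖1 - u x‖ ≤ 1 := by
    rw [Real.norm_eq_abs, abs_le]; constructor <;> linarith [hx.1, hx.2]
  calc ‖1 - u x‖ * ‖v x‖ ≤ 1 * ‖v x‖ := by gcongr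
    _ = ‖v x‖ := one_mul _

/-- `∫ u² ≤ (2e)⁻² ∫ v²` -/
lemma integral_u_sq_le (h : IsSimpleSolution m v ρ u e) (hm : 0 < m) (hρ : 0 < ρ)
    (hv : Integrable v) (hv0 : ∀ x, 0 ≤ v x) (hpos : 0 < ∫ x, v x) (hv2 : MemLp v 2) :
    (2 * e) ^ 2 * ∫ x, u x ^ 2 ≤ ∫ x, v x ^ 2 := by
  obtain ⟨iu, eu⟩ := plancherel_real u h.integrable (memLp_u h)
  obtain ⟨ig, eg⟩ := plancherel_real _ (h.int_g hv) (memLp_g h hv hv2)
  rw [← eu, ← integral_const_mul]
  have he := e_pos h hm hρ hv hv0 hpos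
  calc ∫ ξ, (2 * e) ^ 2 * ‖𝓕 (fun x => (u x : ℂ)) ξ‖ ^ 2
      ≤ ∫ ξ, ‖𝓕 (fun x => (((1 - u x) * v x : ℝ) : ℂ)) ξ‖ ^ 2 := by
        apply integral_mono (iu.const_mul _) ig
        intro ξ
        have := fourier_u_le h hm hρ hv hv0 hpos ξ
        have h2 : 0 ≤ 2 * e * ‖𝓕 (fun x => (u x : ℂ)) ξ‖ := by positivity
        calc (2 * e) ^ 2 * ‖𝓕 (fun x => (u x : ℂ)) ξ‖ ^ 2
            = (2 * e * ‖𝓕 (fun x => (u x : ℂ)) ξ‖) ^ 2 := by ring
          _ ≤ _ := pow_le_pow_left₀ h2 this 2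
    _ = ∫ x, ((1 - u x) * v x) ^ 2 := eg
    _ ≤ ∫ x, v x ^ 2 := by
        apply integral_mono_ae ((memLp_two_iff_integrable_sq (h.int_g hv).1).mp (memLp_g h hv hv2))
          ((memLp_two_iff_integrable_sq hv.1).mp hv2)
        filter_upwards [h.bounds] with x hx
        have h1 : 0 ≤ (1 - u x) * v x := mul_nonneg (by linarith [hx.2]) (hv0 x)
        have h2 : (1 - u x) * v x ≤ v x := by nlinarith [hx.1, hv0 x]
        exact pow_le_pow_left₀ h1 h2 2

lemma int_uv (h : IsSimpleSolution m v ρ u e) (hv : Integrable v) :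
    Integrable (fun x => u x * v x) := by
  refine Integrable.mono' hv.norm (h.integrable.1.mul hv.1) ?_
  filter_upwards [h.bounds] with x hx
  rw [norm_mul]
  have : ‖u x‖ ≤ 1 := by
    rw [Real.norm_eq_abs, abs_le]; constructor <;> linarith [hx.1, hx.2]
  calc ‖u x‖ * ‖v x‖ ≤ 1 * ‖v x‖ := by gcongr
    _ = ‖v x‖ := one_mul _

lemma energy_eq (h : IsSimpleSolution m v ρ u e) (hv : Integrable v) :
    e = ρ / 2 * ((∫ x, v x) - ∫ x, u x * v x) := by
  rw [h.energy, ← integral_sub hv (int_uv h hv)]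
  congr 2; ext x; ring

/-- `∫ u v ≤ ∫ v² / (2e)` -/
lemma integral_uv_le (h : IsSimpleSolution m v ρ u e) (hm : 0 < m) (hρ : 0 < ρ)
    (hv : Integrable v) (hv0 : ∀ x, 0 ≤ v x) (hpos : 0 < ∫ x, v x) (hv2 : MemLp v 2) :
    ∫ x, u x * v x ≤ (∫ x, v x ^ 2) / (2 * e) := by
  have he := e_pos h hm hρ hv hv0 hpos
  have h1 := integral_u_sq_le h hm hρ hv hv0 hpos hv2
  have iu : Integrable (fun x => u x ^ 2) := (memLp_two_iff_integrable_sq h.integrable.1).mp (memLp_u h)
  have iv : Integrable (fun x => v x ^ 2) := (memLp_two_iff_integrable_sq hv.1).mp hv2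
  have h2 : ∫ x, u x * v x ≤ ∫ x, (e * u x ^ 2 + 1 / (4 * e) * v x ^ 2) := by
    apply integral_mono (int_uv h hv) ((iu.const_mul _).add (iv.const_mul _))
    intro x
    have : 0 ≤ (2 * e * u x - v x) ^ 2 / (4 * e) := by positivity
    have h3 : (2 * e * u x - v x) ^ 2 / (4 * e) = e * u x ^ 2 + 1 / (4 * e) * v x ^ 2 - u x * v x := by
      field_simp; ring
    simp only [Pi.add_apply]
    linarith
  rw [integral_add (iu.const_mul _) (iv.const_mul _), integral_const_mul, integral_const_mul] at h2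
  refine h2.trans ?_
  have h4 : e * ∫ x, u x ^ 2 ≤ 1 / (4 * e) * ∫ x, v x ^ 2 := by
    have h5 : 1 / (4 * e) * ((2 * e) ^ 2 * ∫ x, u x ^ 2) ≤ 1 / (4 * e) * ∫ x, v x ^ 2 := by gcongr
    have h6 : 1 / (4 * e) * ((2 * e) ^ 2 * ∫ x, u x ^ 2) = e * ∫ x, u x ^ 2 := by
      field_simp; ring
    linarith
  have h7 : (∫ x, v x ^ 2) / (2 * e) = 1 / (4 * e) * (∫ x, v x ^ 2) + 1 / (4 * e) * ∫ x, v x ^ 2 := by
    field_simp; ring
  rw [h7]; linarith

/-- smallness of `∫ u v` for large density, uniformly in the mass and in the solution -/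
lemma integral_uv_small (hv : Integrable v) (hv0 : ∀ x, 0 ≤ v x)
    (hpos : 0 < ∫ x, v x) (δ : ℝ) (hδ : 0 < δ) :
    ∃ ρ0 > 0, ∀ m > 0, ∀ ρ ≥ ρ0, ∀ u e, IsSimpleSolution m v ρ u e →
      ∫ x, u x * v x ≤ δ := by
  -- truncation
  obtain ⟨K, hK⟩ : ∃ K : ℕ, ∫ x, (v x - min (v x) K) ≤ δ / 2 := by
    have ht : Filter.Tendsto (fun K : ℕ => ∫ x, (v x - min (v x) K)) Filter.atTop
        (nhds (∫ _x : E3, (0 : ℝ))) := by
      apply tendsto_integral_of_dominated_convergence (fun x => v x)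
      · intro n
        exact hv.1.sub (hv.1.inf aestronglyMeasurable_const)
      · exact hv
      · intro n; filter_upwards with x
        have h1 : 0 ≤ min (v x) (n : ℝ) := le_min (hv0 x) (by positivity)
        have h2 : min (v x) (n : ℝ) ≤ v x := min_le_left _ _
        rw [Real.norm_eq_abs, abs_of_nonneg (by linarith)]; linarith
      · filter_upwards with x
        apply tendsto_atTop_of_eventually_const (i₀ := ⌈v x⌉₊)
        intro n hn
        have : v x ≤ n := Nat.ceil_le.mp hn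
        rw [min_eq_left this, sub_self]
    rw [integral_zero] at ht
    have := (ht.eventually (ge_mem_nhds (show (0 : ℝ) < δ / 2 by positivity))).exists
    exact this
  refine ⟨2 * (K + 1) / δ, by positivity, ?_⟩
  intro m hm ρ hρ u e h
  have hρ0 : 0 < ρ := lt_of_lt_of_le (by positivity) hρ
  have hiu := integral_u h hm hρ0 hv hv0 hpos
  have im : Integrable (fun x => min (v x) (K : ℝ)) := by
    refine Integrable.mono' hv (hv.1.inf aestronglyMeasurable_const) ?_
    filter_upwards with x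
    have h1 : 0 ≤ min (v x) (K : ℝ) := le_min (hv0 x) (by positivity)
    rw [Real.norm_eq_abs, abs_of_nonneg h1]; exact min_le_left _ _
  have iA : Integrable (fun x => v x - min (v x) (K : ℝ)) := hv.sub im
  calc ∫ x, u x * v x ≤ ∫ x, ((v x - min (v x) K) + (K + 1) * u x) := by
        apply integral_mono_ae (int_uv h hv) (iA.add (h.integrable.const_mul _))
        filter_upwards [h.bounds] with x hx
        simp only [Pi.add_apply]
        have h1 : 0 ≤ min (v x) (K : ℝ) := le_min (hv0 x) (by positivity)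
        have h2 : min (v x) (K : ℝ) ≤ v x := min_le_left _ _
        have h3 : min (v x) (K : ℝ) ≤ K := min_le_right _ _
        have h4 : u x * (v x - min (v x) K) ≤ 1 * (v x - min (v x) K) :=
          mul_le_mul_of_nonneg_right hx.2 (by linarith)
        have h5 : u x * min (v x) K ≤ u x * K := mul_le_mul_of_nonneg_left h3 hx.1
        have : u x * v x = u x * (v x - min (v x) K) + u x * min (v x) K := by ring
        nlinarith [hx.1]
    _ = (∫ x, (v x - min (v x) K)) + (K + 1) * ∫ x, u x := by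
        rw [integral_add iA (h.integrable.const_mul _), integral_const_mul]
    _ ≤ δ / 2 + (K + 1) * (1 / ρ) := by rw [hiu]; gcongr
    _ ≤ δ := by
        have : (K + 1 : ℝ) * (1 / ρ) ≤ δ / 2 := by
          rw [mul_one_div, div_le_iff₀ hρ0]
          have : 2 * (K + 1) / δ * (δ / 2) ≤ ρ * (δ / 2) := by gcongr
          have h9 : 2 * ((K : ℝ) + 1) / δ * (δ / 2) = K + 1 := by field_simp
          rw [h9] at this; linarith
        linarith

end H47.SE
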