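import Pool.Agent.H47.SE.Pair

/-! Averaging over independent random shifts of the particles. -/

open MeasureTheory ProbabilityTheory
open scoped ENNReal NNReal Real

noncomputable section

namespace H47.SE

/-- smearing of a pair potential by independent shifts of the two particles -/
def smear (w : E3 → ℝ) (μ : Measure E3) (s : E3) : ℝ :=
  ∫ q : E3 × E3, w (s + (q.1 - q.2)) ∂(μ.prod μ)

lemma integrable_diff {L : ℝ} [hL : Fact (0 < L)] {w : E3 → ℝ} (hw : ∀ x, 0 ≤ w x)
    (hwm : Measurable w) (hwp : ∀ x n, w (x + latt L n) = w x) (hwi : Integrable w (unif L))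
    (s : E3) :
    Integrable (fun q : E3 × E3 => w (q.1 - q.2 + s)) ((unif L).prod (unif L)) ∧
    ∫ q : E3 × E3, w (q.1 - q.2 + s) ∂((unif L).prod (unif L)) = ∫ x, w x ∂(unif L) := by
  have hm : StronglyMeasurable w := hwm.stronglyMeasurable
  have hms : AEStronglyMeasurable (fun q : E3 × E3 => w (q.1 - q.2 + s))
      ((unif L).prod (unif L)) :=
    (hwm.comp (by fun_prop)).aestronglyMeasurable
  have e : ∀ z, ∫ y, w (y - z + s) ∂(unif L) = ∫ x, w x ∂(unif L) := by
    intro z
    have := unif_shift hwp hm (s - z)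
    rw [← this]
    congr 1; ext y; congr 1; abel
  have hi : Integrable (fun q : E3 × E3 => w (q.1 - q.2 + s)) ((unif L).prod (unif L)) := by
    rw [integrable_prod_iff' hms]
    constructor
    · filter_upwards with z
      have := unif_integrable_shift hwp hm (s - z) hwi
      refine this.congr ?_
      filter_upwards with y
      congr 1; abel
    · have : (fun z => ∫ y, ‖w (y - z + s)‖ ∂(unif L)) = fun _ => ∫ x, w x ∂(unif L) := by
        ext z
        rw [← e z]
        congr 1; ext y; rw [Real.norm_eq_abs, abs_of_nonneg (hw _)]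
      simp only
      rw [this]
      exact integrable_const _
  refine ⟨hi, ?_⟩
  rw [integral_prod_symm _ hi]
  simp only
  simp_rw [e]
  simp

variable {N : ℕ} {L : ℝ}

lemma integrable_diffN [hL : Fact (0 < L)] {w : E3 → ℝ} (hw : ∀ x, 0 ≤ w x)
    (hwm : Measurable w) (hwp : ∀ x n, w (x + latt L n) = w x) (hwi : Integrable w (unif L))
    (s : E3) {i j : Fin N} (hij : i ≠ j) :
    Integrable (fun x : Fin N → E3 => w (x i - x j + s)) (unifN (Fin N) L) ∧
    ∫ x : Fin N → E3, w (x i - x j + s) ∂(unifN (Fin N) L) = ∫ x, w x ∂(unif L) := by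
  obtain ⟨h1, h2⟩ := integrable_diff hw hwm hwp hwi s
  have mp := mp_pair (fun _ : Fin N => unif L) hij
  constructor
  · exact (mp.integrable_comp h1.1).mpr h1
  · rw [← h2, ← mp.map_eq, integral_map mp.measurable.aemeasurable]
    · rfl
    · rw [mp.map_eq]; exact h1.1

/-- a continuous function is bounded on the box -/
lemma exists_bound_box (g : (Fin N → E3) → ℝ) (hg : Continuous g) :
    ∃ C, 0 ≤ C ∧ ∀ x ∈ box (Fin N) L, ‖g x‖ ≤ C := by
  have hK : IsCompact (Set.pi Set.univ (fun _ : Fin N => Metric.closedBall (0 : E3) (|L| * 3))) :=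
    isCompact_univ_pi fun _ => isCompact_closedBall _ _
  obtain ⟨C, hC⟩ := hK.exists_bound_of_continuousOn hg.continuousOn
  refine ⟨max C 0, le_max_right _ _, ?_⟩
  intro x hx
  refine (hC x ?_).trans (le_max_left _ _)
  intro i _
  rw [mem_closedBall_zero_iff, EuclideanSpace.norm_eq]
  have h1 : ∀ a, ‖x i a‖ ^ 2 ≤ |L| ^ 2 := by
    intro a
    have := hx i a
    rw [Set.mem_Ioc] at this
    have h0 : 0 < L := lt_of_lt_of_le this.1 this.2
    rw [Real.norm_eq_abs, sq_abs, sq_abs]
    nlinarith [this.1, this.2]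
  calc √(∑ a, ‖x i a‖ ^ 2) ≤ √((|L| * 3) ^ 2) := by
        apply Real.sqrt_le_sqrt
        calc ∑ a, ‖x i a‖ ^ 2 ≤ ∑ _a : Fin 3, |L| ^ 2 := Finset.sum_le_sum fun a _ => h1 a
          _ = 3 * |L| ^ 2 := by simp
          _ ≤ (|L| * 3) ^ 2 := by nlinarith [sq_nonneg |L|]
    _ = |L| * 3 := Real.sqrt_sq (by positivity)

lemma ae_mem_box [hL : Fact (0 < L)] : ∀ᵐ x ∂(unifN (Fin N) L), x ∈ box (Fin N) L := by
  rw [unifN_eq]
  apply Measure.ae_smul_measure
  exact ae_restrict_mem (measurableSet_box L)

/-- averaged trial function inequality -/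
theorem groundEnergy_average [hL : Fact (0 < L)] {m : ℝ} (hm : 0 < m) {w : E3 → ℝ}
    (hw : ∀ x, 0 ≤ w x) (hwm : Measurable w) (hwp : ∀ x n, w (x + latt L n) = w x)
    (hwi : Integrable w (unif L)) (μ : Measure E3) [IsProbabilityMeasure μ]
    {f : (Fin N → E3) → ℝ} (hf : ContDiff ℝ (⊤ : ℕ∞) f) (hp : PeriodicN L f) :
    groundEnergy m w N L * (∫ x, Real.exp (f x) ∂(unifN (Fin N) L)) ≤
      1 / (8 * m) * (∑ i, ∑ a, ∫ x, (pd i a f x) ^ 2 * Real.exp (f x) ∂(unifN (Fin N) L)) +
      ∑ p : Fin N × Fin N, if p.1 < p.2 then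
        ∫ x, smear w μ (x p.1 - x p.2) * Real.exp (f x) ∂(unifN (Fin N) L) else 0 := by
  have hL3 : 0 < (L ^ 3) ^ Fintype.card (Fin N) := by have := hL.out; positivity
  set P := unifN (Fin N) L with hP
  have hcont : Continuous (fun x => Real.exp (f x)) := Real.continuous_exp.comp hf.continuous
  obtain ⟨C, hC0, hC⟩ := exists_bound_box (L := L) _ hcont
  have hexpi : Integrable (fun x => Real.exp (f x)) P := by
    refine Integrable.mono' (integrable_const C) hcont.aestronglyMeasurable ?_
    filter_upwards [ae_mem_box] with x hx using hC x hx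
  have hposP : 0 < ∫ x, Real.exp (f x) ∂P := integral_exp_pos hexpi
  have hpos : 0 < ∫ x in box (Fin N) L, Real.exp (f x) := by
    rw [integral_unifN]; positivity
  -- the inequality for every shift, normalised
  have h1 : ∀ ζ : Fin N → E3, groundEnergy m w N L * (∫ x, Real.exp (f x) ∂P) ≤
      1 / (8 * m) * (∑ i, ∑ a, ∫ x, (pd i a f x) ^ 2 * Real.exp (f x) ∂P) +
      ∑ p : Fin N × Fin N, if p.1 < p.2 then
        ∫ x, w (x p.1 - x p.2 + (ζ p.1 - ζ p.2)) * Real.exp (f x) ∂P else 0 := by
    intro ζ
    have := groundEnergy_shift hm hw hwm hwp hf hp hpos ζ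
    simp_rw [integral_unifN] at this
    have e1 : (∑ p : Fin N × Fin N, if p.1 < p.2 then (L ^ 3) ^ Fintype.card (Fin N) *
        ∫ x, w (x p.1 - x p.2 + (ζ p.1 - ζ p.2)) * Real.exp (f x) ∂P else 0) =
        (L ^ 3) ^ Fintype.card (Fin N) * ∑ p : Fin N × Fin N, if p.1 < p.2 then
        ∫ x, w (x p.1 - x p.2 + (ζ p.1 - ζ p.2)) * Real.exp (f x) ∂P else 0 := by
      rw [Finset.mul_sum]
      apply Finset.sum_congr rfl
      intro p _
      split_ifs <;> simp
    rw [e1] at this
    simp_rw [← Finset.mul_sum] at this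
    have h2 : (L ^ 3) ^ Fintype.card (Fin N) *
        (groundEnergy m w N L * (∫ x, Real.exp (f x) ∂P)) ≤
        (L ^ 3) ^ Fintype.card (Fin N) * (1 / (8 * m) *
          (∑ i, ∑ a, ∫ x, (pd i a f x) ^ 2 * Real.exp (f x) ∂P) +
      ∑ p : Fin N × Fin N, if p.1 < p.2 then
        ∫ x, w (x p.1 - x p.2 + (ζ p.1 - ζ p.2)) * Real.exp (f x) ∂P else 0) := by
      calc _ = groundEnergy m w N L *
          ((L ^ 3) ^ Fintype.card (Fin N) * (∫ x, Real.exp (f x) ∂P)) := by ring
        _ ≤ _ := this
        _ = _ := by ring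
    exact le_of_mul_le_mul_left h2 hL3
  -- joint integrability
  set M := Measure.pi (fun _ : Fin N => μ) with hM
  have hΦ : ∀ p : Fin N × Fin N, p.1 < p.2 →
      Integrable (fun z : (Fin N → E3) × (Fin N → E3) =>
        w (z.2 p.1 - z.2 p.2 + (z.1 p.1 - z.1 p.2)) * Real.exp (f z.2)) (M.prod P) := by
    intro p hlt
    have hms : AEStronglyMeasurable (fun z : (Fin N → E3) × (Fin N → E3) =>
        w (z.2 p.1 - z.2 p.2 + (z.1 p.1 - z.1 p.2)) * Real.exp (f z.2)) (M.prod P) := by
      apply Measurable.aestronglyMeasurable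
      apply Measurable.mul
      · exact hwm.comp (by fun_prop)
      · exact (hcont.comp continuous_snd).measurable
    have hint : ∀ ζ : Fin N → E3, Integrable (fun x : Fin N → E3 =>
        w (x p.1 - x p.2 + (ζ p.1 - ζ p.2)) * Real.exp (f x)) P := by
      intro ζ
      obtain ⟨a1, _⟩ := integrable_diffN hw hwm hwp hwi (ζ p.1 - ζ p.2) hlt.ne
      refine a1.mul_bdd (c := C) hcont.aestronglyMeasurable ?_
      filter_upwards [ae_mem_box] with x hx using hC x hx
    rw [integrable_prod_iff hms]
    refine ⟨Filter.Eventually.of_forall hint, ?_⟩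
    refine Integrable.mono' (integrable_const (C * ∫ x, w x ∂(unif L))) ?_ ?_
    · exact hms.norm.integral_prod_right'
    · filter_upwards with ζ
      rw [Real.norm_eq_abs, abs_of_nonneg (integral_nonneg fun x => norm_nonneg _)]
      obtain ⟨a1, a2⟩ := integrable_diffN hw hwm hwp hwi (ζ p.1 - ζ p.2) hlt.ne
      rw [← a2, ← integral_const_mul]
      apply integral_mono_ae (hint ζ).norm (a1.const_mul C)
      filter_upwards [ae_mem_box] with x hx
      rw [norm_mul, Real.norm_eq_abs, abs_of_nonneg (hw _), mul_comm]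
      exact mul_le_mul_of_nonneg_right (hC x hx) (hw _)
  -- integrate over the shifts
  have h3 := integral_mono (μ := M) (f := fun _ => groundEnergy m w N L * (∫ x, Real.exp (f x) ∂P))
    (g := fun ζ => 1 / (8 * m) * (∑ i, ∑ a, ∫ x, (pd i a f x) ^ 2 * Real.exp (f x) ∂P) +
      ∑ p : Fin N × Fin N, if p.1 < p.2 then
        ∫ x, w (x p.1 - x p.2 + (ζ p.1 - ζ p.2)) * Real.exp (f x) ∂P else 0)
    (integrable_const _) (by
      apply (integrable_const _).add
      apply integrable_finsetSum
      intro p _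
      split_ifs with hlt
      · exact (hΦ p hlt).integral_prod_left
      · exact integrable_zero _ _ _) h1
  rw [integral_const] at h3
  simp only [probReal_univ, one_smul] at h3
  refine h3.trans (le_of_eq ?_)
  rw [integral_add (integrable_const _), integral_const]
  · simp only [probReal_univ, one_smul]
    congr 1
    rw [integral_finsetSum]
    · apply Finset.sum_congr rfl
      intro p _
      split_ifs with hlt
      · have hsw := integral_integral_swap (μ := M) (ν := P)
          (f := fun (ζ x : Fin N → E3) =>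
            w (x p.1 - x p.2 + (ζ p.1 - ζ p.2)) * Real.exp (f x)) (hΦ p hlt)
        rw [hsw]
        congr 1
        ext x
        rw [integral_mul_const]
        congr 1
        unfold smear
        have mp := mp_pair (fun _ : Fin N => μ) hlt.ne
        rw [← mp.map_eq, integral_map mp.measurable.aemeasurable]
        exact (hwm.comp (by fun_prop)).aestronglyMeasurable
      · simp
    · intro p _
      split_ifs with hlt
      · exact (hΦ p hlt).integral_prod_left
      · exact integrable_zero _ _ _
  · apply integrable_finsetSum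
    intro p _
    split_ifs with hlt
    · exact (hΦ p hlt).integral_prod_left
    · exact integrable_zero _ _ _

end H47.SE
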