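import Pool.Agent.H47.SE.Cells

/-! The energy bound from the Gibbs state and balanced cell distributions. -/

open MeasureTheory ProbabilityTheory
open scoped ENNReal NNReal Real ComplexConjugate

noncomputable section

namespace H47.SE

lemma sum_balanced {N n : ℕ} {I : Type*} [Fintype I] [DecidableEq I] {σ : Fin N → I}
    (hσ : σ ∈ balanced N I n) (g : I → ℝ) : ∑ k, g (σ k) = n * ∑ c, g c := by
  unfold balanced at hσ
  rw [Finset.mem_filter] at hσ
  rw [← Finset.sum_fiberwise Finset.univ σ (fun k => g (σ k)), Finset.mul_sum]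
  apply Finset.sum_congr rfl; intro c _
  have h1 : ∑ k ∈ Finset.univ.filter (fun k => σ k = c), g (σ k) =
      ∑ k ∈ Finset.univ.filter (fun k => σ k = c), g c := by
    apply Finset.sum_congr rfl
    intro k hk
    rw [Finset.mem_filter] at hk
    rw [hk.2]
  rw [h1, Finset.sum_const, hσ.2 c, nsmul_eq_mul]

variable {τ : Type*} {T : Finset τ} {d : τ → Fin 3 → ℤ} {c : τ → ℝ}

/-- mean interaction of a balanced distribution -/
lemma integral_Vt_balanced {r : ℝ} [hr : Fact (0 < r)] {q n N : ℕ} (hq : 0 < q)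
    [Fact (0 < (q : ℝ) * r)] (hN : N = n * q ^ 3) (G : ℝ)
    (hG : ∀ c' : Fin 3 → Fin q, G ≤ ∑ t ∈ T, c t *
      ((∫ x, Real.cos (ph (q * r) (d t) x) ∂(eta r (emb c'))) ^ 2 +
        (∫ x, Real.sin (ph (q * r) (d t) x) ∂(eta r (emb c'))) ^ 2))
    {σ : Fin N → Fin 3 → Fin q} (hσ : σ ∈ balanced N (Fin 3 → Fin q) n) :
    ∫ x, Vt (q * r) T d c x ∂(etaN r σ) ≤
      1 / 2 * ((N : ℝ) ^ 2 * (∑ t ∈ T, if d t = 0 then c t else 0) - N * G) := by
  unfold etaN
  rw [integral_Vt]
  have h1 : ∀ t, ∑ k, ∫ x, Real.cos (ph (q * r) (d t) x) ∂(eta r (emb (σ k))) =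
      if d t = 0 then (N : ℝ) else 0 := by
    intro t
    rw [sum_balanced hσ (fun c' => ∫ x, Real.cos (ph (q * r) (d t) x) ∂(eta r (emb c'))),
      sum_eta hq (abs_cos_int _ (continuous_ph _).measurable).1, integral_cos_unif]
    split_ifs
    · rw [hN]; push_cast; ring
    · ring
  have h2 : ∀ t, ∑ k, ∫ x, Real.sin (ph (q * r) (d t) x) ∂(eta r (emb (σ k))) = 0 := by
    intro t
    rw [sum_balanced hσ (fun c' => ∫ x, Real.sin (ph (q * r) (d t) x) ∂(eta r (emb c'))),
      sum_eta hq (abs_cos_int _ (continuous_ph _).measurable).2, integral_sin_unif]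
    ring
  simp_rw [h1, h2]
  have h3 : ∑ t ∈ T, c t * ((if d t = 0 then (N : ℝ) else 0) ^ 2 + 0 ^ 2) =
      (N : ℝ) ^ 2 * (∑ t ∈ T, if d t = 0 then c t else 0) := by
    rw [Finset.mul_sum]
    apply Finset.sum_congr rfl; intro t _
    split_ifs <;> ring
  have h4 : (N : ℝ) * G ≤ ∑ k, ∑ t ∈ T, c t *
      ((∫ x, Real.cos (ph (q * r) (d t) x) ∂(eta r (emb (σ k)))) ^ 2 +
        (∫ x, Real.sin (ph (q * r) (d t) x) ∂(eta r (emb (σ k)))) ^ 2) := by
    calc (N : ℝ) * G = ∑ _k : Fin N, G := by simp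
      _ ≤ _ := Finset.sum_le_sum fun k _ => hG (σ k)
  rw [h3]
  linarith

/-- lower bound of the logarithm of the partition function -/
theorem log_Z_ge {r : ℝ} [hr : Fact (0 < r)] {q n N : ℕ} (hq : 0 < q) (hn : 1 ≤ n)
    [hL : Fact (0 < (q : ℝ) * r)] (hN : N = n * q ^ 3) (G : ℝ)
    (hG : ∀ c' : Fin 3 → Fin q, G ≤ ∑ t ∈ T, c t *
      ((∫ x, Real.cos (ph (q * r) (d t) x) ∂(eta r (emb c'))) ^ 2 +
        (∫ x, Real.sin (ph (q * r) (d t) x) ∂(eta r (emb c'))) ^ 2))
    {lam : ℝ} (hlam : 0 < lam) :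
    - (lam * (1 / 2 * ((N : ℝ) ^ 2 * (∑ t ∈ T, if d t = 0 then c t else 0) - N * G))) -
      (q : ℝ) ^ 3 * (1 + Real.log n) ≤
      Real.log (∫ x, Real.exp (-lam * Vt (q * r) T d c x) ∂(unifN (Fin N) (q * r))) := by
  set K := 1 / 2 * ((N : ℝ) ^ 2 * (∑ t ∈ T, if d t = 0 then c t else 0) - N * G) with hK
  set V : (Fin N → E3) → ℝ := Vt (q * r) T d c with hV
  have hVc : Continuous V := contDiff_Vt.continuous
  have hVp : PeriodicN (q * r) V := Vt_periodic
  have hec : Continuous (fun x => Real.exp (-lam * V x)) :=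
    Real.continuous_exp.comp (continuous_const.mul hVc)
  have hep : PeriodicN (q * r) (fun x => Real.exp (-lam * V x)) := by
    intro x k; simp only; rw [hVp x k]
  have hei : Integrable (fun x => Real.exp (-lam * V x)) (unifN (Fin N) (q * r)) :=
    integrable_unifN_periodic _ hec hep
  obtain ⟨C1, _, hC1⟩ := exists_bound_periodic _ hVc hVp
  obtain ⟨C2, _, hC2⟩ := exists_bound_periodic _ hec hep
  have h1 : ∀ σ ∈ balanced N (Fin 3 → Fin q) n,
      (((q : ℝ) ^ 3)⁻¹) ^ N * Real.exp (-lam * K) ≤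
      (((q : ℝ) ^ 3)⁻¹) ^ N * ∫ x, Real.exp (-lam * V x) ∂(etaN r σ) := by
    intro σ hσ
    apply mul_le_mul_of_nonneg_left _ (by positivity)
    have i1 : Integrable V (etaN r σ) :=
      (integrable_const C1).mono' hVc.aestronglyMeasurable (Filter.Eventually.of_forall hC1)
    have i2 : Integrable (fun x => Real.exp (-lam * V x)) (etaN r σ) :=
      (integrable_const C2).mono' hec.aestronglyMeasurable (Filter.Eventually.of_forall hC2)
    refine le_trans ?_ (jensen_exp (etaN r σ) (i1.const_mul (-lam)) i2)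
    apply Real.exp_le_exp.mpr
    rw [integral_const_mul]
    have := integral_Vt_balanced hq hN G hG hσ
    rw [← hK] at this
    nlinarith
  have h2 := (Finset.sum_le_sum h1).trans
    (sum_cbox_le hq _ (fun x => (Real.exp_pos _).le) hei)
  rw [Finset.sum_const, nsmul_eq_mul] at h2
  -- counting
  set I := Fin 3 → Fin q with hI
  have hcardI : Fintype.card I = q ^ 3 := by simp [hI]
  have hcount := card_balanced (N := N) (n := n) (I := I) (by rw [hcardI]; exact hN)
  rw [hcardI] at hcount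
  set B := (balanced N I n).card with hB
  have hBpos : 0 < B := by
    by_contra hcon
    have : B = 0 := by omega
    rw [this, mul_zero] at hcount
    exact absurd hcount (not_le.mpr (Nat.factorial_pos N))
  have hB0 : (0 : ℝ) < B := by exact_mod_cast hBpos
  have hq0 : (0 : ℝ) < q := by exact_mod_cast hq
  have hq3 : (0 : ℝ) < (q : ℝ) ^ 3 := by positivity
  have h3 : Real.log (N.factorial) ≤ (q : ℝ) ^ 3 * Real.log (n.factorial) + Real.log B := by
    have h4 : (N.factorial : ℝ) ≤ (n.factorial : ℝ) ^ (q ^ 3) * B := by exact_mod_cast hcount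
    have h5 := Real.log_le_log (by exact_mod_cast Nat.factorial_pos N) h4
    have hnf : (0 : ℝ) < (n.factorial : ℝ) := by exact_mod_cast Nat.factorial_pos n
    rw [Real.log_mul (pow_pos hnf _).ne' hB0.ne', Real.log_pow] at h5
    push_cast at h5
    exact h5
  have h6 := log_count (n := n) (M := q ^ 3) (N := N) hn (Nat.one_le_pow _ _ hq) hN
  push_cast at h6
  have h7 : 0 < (B : ℝ) * ((((q : ℝ) ^ 3)⁻¹) ^ N * Real.exp (-lam * K)) := by positivity
  have h8 := Real.log_le_log h7 h2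
  rw [Real.log_mul hB0.ne' (by positivity), Real.log_mul (by positivity) (Real.exp_pos _).ne',
    Real.log_exp, Real.log_pow, Real.log_inv] at h8
  linarith

/-- energy bound -/
theorem cell_energy {m : ℝ} (hm : 0 < m) {r : ℝ} [hr : Fact (0 < r)] {q n N : ℕ} (hq : 0 < q)
    (hn : 1 ≤ n) [hL : Fact (0 < (q : ℝ) * r)] (hN : N = n * q ^ 3) {w : E3 → ℝ}
    (hw : ∀ x, 0 ≤ w x) (hwm : Measurable w) (hwp : ∀ x k, w (x + latt (q * r) k) = w x)
    (hwi : Integrable w (unif (q * r))) (μ : Measure E3) [IsProbabilityMeasure μ]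
    (hsm : ∀ s, smear w μ s = Wt (q * r) T d c s) (hc : ∀ t ∈ T, 0 ≤ c t) (G : ℝ)
    (hG : ∀ c' : Fin 3 → Fin q, G ≤ ∑ t ∈ T, c t *
      ((∫ x, Real.cos (ph (q * r) (d t) x) ∂(eta r (emb c'))) ^ 2 +
        (∫ x, Real.sin (ph (q * r) (d t) x) ∂(eta r (emb c'))) ^ 2))
    {lam : ℝ} (hlam : 0 < lam) :
    groundEnergy m w N (q * r) ≤ lam / (8 * m) * (N * Dt (q * r) T d c) +
      1 / 2 * ((N : ℝ) ^ 2 * (∑ t ∈ T, if d t = 0 then c t else 0) - N * G) +
      (q : ℝ) ^ 3 * (1 + Real.log n) / lam := by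
  have h1 := gibbs_bound (N := N) (L := q * r) hm hw hwm hwp hwi μ hsm hc hlam
  have h2 := log_Z_ge (T := T) (d := d) (c := c) hq hn hN G hG hlam
  set Z := ∫ x, Real.exp (-lam * Vt (q * r) T d c x) ∂(unifN (Fin N) (q * r)) with hZ
  set K := 1 / 2 * ((N : ℝ) ^ 2 * (∑ t ∈ T, if d t = 0 then c t else 0) - N * G) with hK
  have h3 : - (1 / lam * Real.log Z) ≤ K + (q : ℝ) ^ 3 * (1 + Real.log n) / lam := by
    have h4 : 1 / lam * (- (lam * K) - (q : ℝ) ^ 3 * (1 + Real.log n)) ≤ 1 / lam * Real.log Z :=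
      mul_le_mul_of_nonneg_left h2 (by positivity)
    have h5 : 1 / lam * (- (lam * K) - (q : ℝ) ^ 3 * (1 + Real.log n)) =
        - (K + (q : ℝ) ^ 3 * (1 + Real.log n) / lam) := by
      field_simp
      ring
    rw [h5] at h4
    linarith
  linarith

end H47.SE
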