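import Mathlib

/-! Counting balanced colourings. -/

open Finset

noncomputable section

namespace H47.SE

/-- balanced colourings: every colour is used `n` times -/
def balanced (N : ℕ) (I : Type*) [Fintype I] [DecidableEq I] (n : ℕ) : Finset (Fin N → I) :=
  univ.filter (fun σ => ∀ c, (univ.filter (fun i => σ i = c)).card = n)

theorem card_balanced {N n : ℕ} {I : Type*} [Fintype I] [DecidableEq I]
    (hN : N = n * Fintype.card I) :
    N.factorial ≤ (n.factorial) ^ (Fintype.card I) * (balanced N I n).card := by
  have hcard : Fintype.card (Fin N) = Fintype.card (Fin n × I) := by simp [hN]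
  let e : Fin N ≃ Fin n × I := Fintype.equivOfCardEq hcard
  let σ0 : Fin N → I := fun i => (e i).2
  have hfib : ∀ c, Fintype.card {i // σ0 i = c} = n := by
    intro c
    have e1 : {i // σ0 i = c} ≃ Fin n :=
      { toFun := fun i => (e i.1).1
        invFun := fun k => ⟨e.symm (k, c), by simp [σ0]⟩
        left_inv := by
          rintro ⟨i, hi⟩
          apply Subtype.ext
          simp only
          rw [Equiv.symm_apply_eq]
          exact Prod.ext rfl hi.symm
        right_inv := by intro k; simp }
    rw [Fintype.card_congr e1, Fintype.card_fin]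
  let f : Equiv.Perm (Fin N) → (Fin N → I) := fun τ => σ0 ∘ τ
  have himg : univ.image f ⊆ balanced N I n := by
    intro b hb
    rw [mem_image] at hb
    obtain ⟨τ, _, rfl⟩ := hb
    unfold balanced
    rw [mem_filter]
    refine ⟨mem_univ _, fun c => ?_⟩
    rw [← hfib c, Fintype.card_subtype]
    apply card_bij (fun i _ => τ i)
    · intro i hi
      simp only [f, Function.comp, mem_filter, mem_univ, true_and] at hi ⊢
      exact hi
    · intro i _ j _ h; exact τ.injective h
    · intro j hj
      refine ⟨τ.symm j, ?_, by simp⟩
      simp only [f, Function.comp, mem_filter, mem_univ, true_and, Equiv.apply_symm_apply] at hj ⊢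
      exact hj
  have hle : ∀ b ∈ univ.image f, #{τ ∈ (univ : Finset (Equiv.Perm (Fin N))) | f τ = b} ≤
      (n.factorial) ^ (Fintype.card I) := by
    intro b hb
    rw [mem_image] at hb
    obtain ⟨τ0, _, rfl⟩ := hb
    have h1 := DomMulAct.stabilizer_card (f := σ0)
    simp_rw [hfib] at h1
    rw [prod_const, card_univ] at h1
    rw [← h1, Fintype.card_subtype]
    apply card_le_card_of_injOn (fun τ => τ * τ0⁻¹)
    · intro τ hτ
      simp only [coe_filter, mem_univ, true_and, Set.mem_ofPred_eq, f] at hτ ⊢
      ext i
      have := congrFun hτ (τ0⁻¹ i)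
      simp only [Function.comp] at this ⊢
      rw [Equiv.Perm.mul_apply, this]
      simp
    · intro a _ b _ h
      exact mul_right_cancel h
  calc N.factorial = (univ : Finset (Equiv.Perm (Fin N))).card := by
        rw [card_univ, Fintype.card_perm, Fintype.card_fin]
    _ ≤ (n.factorial) ^ (Fintype.card I) * (univ.image f).card :=
        card_le_mul_card_image univ _ hle
    _ ≤ _ := Nat.mul_le_mul_left _ (card_le_card himg)

lemma log_factorial_le (n : ℕ) (hn : 1 ≤ n) :
    Real.log (n.factorial) ≤ 1 + Real.log n + n * Real.log n - n := by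
  induction n, hn using Nat.le_induction with
  | base => simp
  | succ n hn ih =>
    have hn0 : (0 : ℝ) < n := by exact_mod_cast hn
    have h1 : Real.log ((n + 1).factorial) = Real.log (n + 1) + Real.log n.factorial := by
      rw [Nat.factorial_succ]; push_cast
      rw [Real.log_mul (by positivity) (by positivity)]
    rw [h1]
    push_cast
    -- `(n+1) (log (n+1) - log n) ≥ 1`
    have h2 : 1 ≤ (n + 1) * (Real.log (n + 1) - Real.log n) := by
      have h3 : Real.log (n / (n + 1)) ≤ n / (n + 1) - 1 :=
        Real.log_le_sub_one_of_pos (by positivity)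
      rw [Real.log_div hn0.ne' (by positivity)] at h3
      have h4 : (n : ℝ) / (n + 1) - 1 = - (1 / (n + 1)) := by field_simp; ring
      rw [h4] at h3
      have h5 : 1 / ((n : ℝ) + 1) ≤ Real.log (n + 1) - Real.log n := by linarith
      calc (1 : ℝ) = (n + 1) * (1 / (n + 1)) := by field_simp
        _ ≤ _ := mul_le_mul_of_nonneg_left h5 (by positivity)
    nlinarith

lemma le_log_factorial (N : ℕ) : N * Real.log N - N ≤ Real.log (N.factorial) := by
  rcases Nat.eq_zero_or_pos N with h | h
  · subst h; simp
  · have hN : (0 : ℝ) < N := by exact_mod_cast h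
    have h1 := Real.pow_div_factorial_le_exp (x := (N : ℝ)) hN.le N
    have h2 : Real.log ((N : ℝ) ^ N / N.factorial) ≤ N := by
      have h3 := Real.log_le_log (div_pos (pow_pos hN N) (by positivity)) h1
      rwa [Real.log_exp] at h3
    rw [Real.log_div (pow_pos hN N).ne' (by positivity), Real.log_pow] at h2
    linarith

lemma log_count {n M N : ℕ} (hn : 1 ≤ n) (hM : 1 ≤ M) (hN : N = n * M) :
    N * Real.log M + M * Real.log (n.factorial) - Real.log (N.factorial) ≤
      M * (1 + Real.log n) := by
  have h1 := log_factorial_le n hn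
  have h2 := le_log_factorial N
  have hn0 : (0 : ℝ) < n := by exact_mod_cast hn
  have hM0 : (0 : ℝ) < M := by exact_mod_cast hM
  have h3 : (N : ℝ) = n * M := by rw [hN]; push_cast; ring
  have h4 : Real.log N = Real.log n + Real.log M := by
    rw [h3, Real.log_mul hn0.ne' hM0.ne']
  rw [h4] at h2
  have h5 := mul_le_mul_of_nonneg_left h1 hM0.le
  rw [h3] at h2 ⊢
  nlinarith

end H47.SE
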