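import Pool.Agent.H47.SE.Gibbs
import Pool.Agent.H47.SE.Count

/-! Lower bound of the partition function by balanced distributions over small cells. -/

open MeasureTheory ProbabilityTheory
open scoped ENNReal NNReal Real ComplexConjugate

noncomputable section

namespace H47.SE

/-- uniform probability measure on the cell at `n` of side `r` -/
def eta (r : ℝ) (n : Fin 3 → ℤ) : Measure E3 :=
  (ENNReal.ofReal (r ^ 3))⁻¹ • volume.restrict (cellAt r n)

lemma volume_cellAt {r : ℝ} (hr : 0 < r) (n : Fin 3 → ℤ) :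
    volume (cellAt r n) = ENNReal.ofReal (r ^ 3) := by
  have := setLIntegral_shift (L := r) n (fun _ => 1)
  simp only [lintegral_const, one_mul, Measure.restrict_apply MeasurableSet.univ,
    Set.univ_inter] at this
  rw [← this, volume_cell hr]

instance isProb_eta (r : ℝ) [hr : Fact (0 < r)] (n : Fin 3 → ℤ) :
    IsProbabilityMeasure (eta r n) := by
  constructor
  rw [eta, Measure.smul_apply, Measure.restrict_apply MeasurableSet.univ, Set.univ_inter,
    volume_cellAt hr.out, smul_eq_mul]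
  apply ENNReal.inv_mul_cancel
  · simp only [ne_eq, ENNReal.ofReal_eq_zero, not_le]
    have := hr.out; positivity
  · exact ENNReal.ofReal_ne_top

lemma integral_eta (r : ℝ) [hr : Fact (0 < r)] (n : Fin 3 → ℤ) {α : Type*}
    [NormedAddCommGroup α] [NormedSpace ℝ α] (F : E3 → α) :
    ∫ x, F x ∂(eta r n) = (r ^ 3)⁻¹ • ∫ x in cellAt r n, F x := by
  have h3 : 0 < r ^ 3 := by have := hr.out; positivity
  rw [eta, integral_smul_measure, ENNReal.toReal_inv, ENNReal.toReal_ofReal h3.le]

/-- integer vector of a cell index -/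
def emb {q : ℕ} (c : Fin 3 → Fin q) : Fin 3 → ℤ := fun a => ((c a : ℕ) : ℤ)

lemma emb_injective {q : ℕ} : Function.Injective (emb (q := q)) := by
  intro c c' h
  ext a
  have := congrFun h a
  simp only [emb] at this
  exact_mod_cast this

lemma cellAt_subset {r : ℝ} (hr : 0 < r) {q : ℕ} (c : Fin 3 → Fin q) :
    cellAt r (emb c) ⊆ cell (q * r) := by
  intro y hy a
  have h := hy a
  simp only [PiLp.sub_apply, latt_apply, Set.mem_Ioc, emb] at h
  have h1 : ((c a : ℕ) : ℝ) + 1 ≤ q := by exact_mod_cast (c a).2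
  have h0 : (0 : ℝ) ≤ ((c a : ℕ) : ℝ) := by positivity
  push_cast at h
  constructor
  · nlinarith [h.1]
  · nlinarith [h.2]

lemma cell_eq_iUnion {r : ℝ} (hr : 0 < r) (q : ℕ) :
    cell (q * r) = ⋃ c : Fin 3 → Fin q, cellAt r (emb c) := by
  apply Set.Subset.antisymm
  · intro y hy
    rw [Set.mem_iUnion]
    have key : ∀ a, ∃ k : Fin q, (k : ℕ) * r < y a ∧ y a ≤ ((k : ℕ) + 1) * r := by
      intro a
      have h := hy a
      rw [Set.mem_Ioc] at h
      have hpos : 0 < y a / r := div_pos h.1 hr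
      have h1 : 0 < ⌈y a / r⌉₊ := Nat.ceil_pos.mpr hpos
      have h2 : ⌈y a / r⌉₊ ≤ q := by
        apply Nat.ceil_le.mpr
        rw [div_le_iff₀ hr]; exact h.2
      refine ⟨⟨⌈y a / r⌉₊ - 1, by omega⟩, ?_, ?_⟩
      · have h3 := Nat.ceil_lt_add_one hpos.le
        have h4 : ((⌈y a / r⌉₊ - 1 : ℕ) : ℝ) = (⌈y a / r⌉₊ : ℝ) - 1 := by
          rw [Nat.cast_sub (by omega)]; simp
        simp only
        rw [h4]
        rw [← lt_div_iff₀ hr]; linarith
      · have h3 := Nat.le_ceil (y a / r)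
        have h4 : ((⌈y a / r⌉₊ - 1 : ℕ) : ℝ) = (⌈y a / r⌉₊ : ℝ) - 1 := by
          rw [Nat.cast_sub (by omega)]; simp
        simp only
        rw [h4, ← div_le_iff₀ hr]; linarith
    choose k hk using key
    refine ⟨k, ?_⟩
    intro a
    simp only [PiLp.sub_apply, latt_apply, Set.mem_Ioc, emb]
    push_cast
    obtain ⟨h1, h2⟩ := hk a
    constructor
    · nlinarith
    · nlinarith
  · intro y hy
    rw [Set.mem_iUnion] at hy
    obtain ⟨c, hc⟩ := hy
    exact cellAt_subset hr c hc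

lemma pi_smul_measure' {ι : Type*} [Fintype ι] {Y : Type*} [MeasurableSpace Y]
    (ν : ι → Measure Y) [∀ i, SigmaFinite (ν i)] (c : ℝ≥0∞) (hc : c ≠ ∞) :
    Measure.pi (fun i : ι => c • ν i) = c ^ Fintype.card ι • Measure.pi ν := by
  have : ∀ i, SigmaFinite (c • ν i) := by
    intro i
    lift c to ℝ≥0 using hc
    exact inferInstanceAs (SigmaFinite (c • ν i))
  apply Measure.pi_eq
  intro s _
  rw [Measure.smul_apply, Measure.pi_pi]
  simp only [Measure.smul_apply, smul_eq_mul, Finset.prod_mul_distrib, Finset.prod_const,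
    Finset.card_univ]

lemma restrict_unif {r : ℝ} [hr : Fact (0 < r)] {q : ℕ} (hq : 0 < q) (c : Fin 3 → Fin q) :
    (unif (q * r)).restrict (cellAt r (emb c)) =
      (((q : ℝ≥0∞)) ^ 3)⁻¹ • eta r (emb c) := by
  rw [unif, eta, Measure.restrict_smul, Measure.restrict_restrict (measurableSet_cellAt r _),
    Set.inter_eq_self_of_subset_left (cellAt_subset hr.out c), smul_smul]
  congr 1
  rw [mul_pow, ENNReal.ofReal_mul (by positivity)]
  have h1 : ENNReal.ofReal ((q : ℝ) ^ 3) = (q : ℝ≥0∞) ^ 3 := by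
    rw [ENNReal.ofReal_pow (by positivity), ENNReal.ofReal_natCast]
  rw [h1, ENNReal.mul_inv]
  · right; exact ENNReal.ofReal_ne_top
  · left; simp

variable {N : ℕ}

/-- the product box of a colouring -/
def cbox (r : ℝ) {q : ℕ} (σ : Fin N → Fin 3 → Fin q) : Set (Fin N → E3) :=
  Set.pi Set.univ (fun i => cellAt r (emb (σ i)))

/-- product measure of a colouring -/
def etaN (r : ℝ) {q : ℕ} (σ : Fin N → Fin 3 → Fin q) : Measure (Fin N → E3) :=
  Measure.pi (fun i => eta r (emb (σ i)))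

instance isProb_etaN (r : ℝ) [hr : Fact (0 < r)] {q : ℕ} (σ : Fin N → Fin 3 → Fin q) :
    IsProbabilityMeasure (etaN r σ) := by
  unfold etaN; infer_instance

lemma restrict_unifN {r : ℝ} [hr : Fact (0 < r)] {q : ℕ} (hq : 0 < q)
    (σ : Fin N → Fin 3 → Fin q) [Fact (0 < (q : ℝ) * r)] :
    (unifN (Fin N) (q * r)).restrict (cbox r σ) =
      ((((q : ℝ≥0∞)) ^ 3)⁻¹) ^ N • etaN r σ := by
  rw [unifN, cbox, Measure.restrict_pi_pi]
  simp_rw [restrict_unif hq]
  rw [pi_smul_measure', Fintype.card_fin, etaN]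
  simp only [ne_eq, ENNReal.inv_eq_top]
  have : (q : ℝ≥0∞) ≠ 0 := by exact_mod_cast hq.ne'
  positivity

lemma measurableSet_cbox (r : ℝ) {q : ℕ} (σ : Fin N → Fin 3 → Fin q) :
    MeasurableSet (cbox r σ) :=
  MeasurableSet.univ_pi fun _ => measurableSet_cellAt r _

lemma disjoint_cbox {r : ℝ} [hr : Fact (0 < r)] {q : ℕ} {σ τ : Fin N → Fin 3 → Fin q}
    (h : σ ≠ τ) : Disjoint (cbox r σ) (cbox r τ) := by
  obtain ⟨i, hi⟩ := Function.ne_iff.mp h
  have h1 : emb (σ i) ≠ emb (τ i) := fun hcon => hi (emb_injective hcon)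
  have h2 := disjoint_cellAt r h1
  rw [Function.onFun, Set.disjoint_left] at h2
  rw [Set.disjoint_left]
  intro x hx hx'
  exact h2 (hx i (Set.mem_univ i)) (hx' i (Set.mem_univ i))

/-- lower bound of a nonnegative integral by boxes -/
lemma sum_cbox_le {r : ℝ} [hr : Fact (0 < r)] {q : ℕ} (hq : 0 < q) [Fact (0 < (q : ℝ) * r)]
    (B : Finset (Fin N → Fin 3 → Fin q)) {F : (Fin N → E3) → ℝ} (hF0 : ∀ x, 0 ≤ F x)
    (hF : Integrable F (unifN (Fin N) (q * r))) :
    ∑ σ ∈ B, (((q : ℝ) ^ 3)⁻¹) ^ N * ∫ x, F x ∂(etaN r σ) ≤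
      ∫ x, F x ∂(unifN (Fin N) (q * r)) := by
  have h1 : ∀ σ : Fin N → Fin 3 → Fin q, ∫ x in cbox r σ, F x ∂(unifN (Fin N) (q * r)) =
      (((q : ℝ) ^ 3)⁻¹) ^ N * ∫ x, F x ∂(etaN r σ) := by
    intro σ
    rw [restrict_unifN hq, integral_smul_measure, smul_eq_mul]
    congr 1
    simp
  simp_rw [← h1]
  rw [← integral_biUnion_finset B (fun σ _ => measurableSet_cbox r σ)
    (fun σ _ τ _ h => disjoint_cbox h) (fun σ _ => hF.integrableOn)]
  exact setIntegral_le_integral hF (Filter.Eventually.of_forall hF0)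

lemma jensen_exp {Ω : Type*} [MeasurableSpace Ω] (ν : Measure Ω) [IsProbabilityMeasure ν]
    {g : Ω → ℝ} (hg : Integrable g ν) (he : Integrable (fun x => Real.exp (g x)) ν) :
    Real.exp (∫ x, g x ∂ν) ≤ ∫ x, Real.exp (g x) ∂ν := by
  set a := ∫ x, g x ∂ν with ha
  have h1 : ∀ x, Real.exp a * (1 + (g x - a)) ≤ Real.exp (g x) := by
    intro x
    have h2 : Real.exp (g x) = Real.exp a * Real.exp (g x - a) := by
      rw [← Real.exp_add]; congr 1; ring
    rw [h2]
    apply mul_le_mul_of_nonneg_left _ (Real.exp_pos a).le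
    linarith [Real.add_one_le_exp (g x - a)]
  have h3 : Integrable (fun x => Real.exp a * (1 + (g x - a))) ν :=
    ((integrable_const 1).add (hg.sub (integrable_const a))).const_mul _
  have h4 := integral_mono h3 he h1
  rw [integral_const_mul] at h4
  have h5 : ∫ x, (1 + (g x - a)) ∂ν = 1 := by
    have i1 : Integrable (fun x => g x - a) ν := hg.sub (integrable_const a)
    rw [integral_add (integrable_const 1) i1, integral_sub hg (integrable_const a), ← ha]
    simp
  rw [h5, mul_one] at h4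
  exact h4

lemma abs_cos_int {Ω : Type*} [MeasurableSpace Ω] (ν : Measure Ω) [IsProbabilityMeasure ν]
    {g : Ω → ℝ} (hg : Measurable g) : Integrable (fun x => Real.cos (g x)) ν ∧
      Integrable (fun x => Real.sin (g x)) ν := by
  constructor
  · exact (integrable_const (1 : ℝ)).mono' (Real.measurable_cos.comp hg).aestronglyMeasurable
      (Filter.Eventually.of_forall fun x => Real.abs_cos_le_one _)
  · exact (integrable_const (1 : ℝ)).mono' (Real.measurable_sin.comp hg).aestronglyMeasurable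
      (Filter.Eventually.of_forall fun x => Real.abs_sin_le_one _)

lemma integral_cos_pair {L : ℝ} (ν : Fin N → Measure E3) [∀ i, IsProbabilityMeasure (ν i)]
    (p : Fin 3 → ℤ) {k l : Fin N} (hkl : k ≠ l) :
    ∫ x, Real.cos (ph L p (x k - x l)) ∂(Measure.pi ν) =
      (∫ x, Real.cos (ph L p x) ∂(ν k)) * (∫ x, Real.cos (ph L p x) ∂(ν l)) +
      (∫ x, Real.sin (ph L p x) ∂(ν k)) * (∫ x, Real.sin (ph L p x) ∂(ν l)) := by
  have mp := mp_pair ν hkl
  have hph := (continuous_ph (L := L) p)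
  have h0 : ∫ x, Real.cos (ph L p (x k - x l)) ∂(Measure.pi ν) =
      ∫ z : E3 × E3, Real.cos (ph L p (z.1 - z.2)) ∂((ν k).prod (ν l)) := by
    rw [← mp.map_eq, integral_map mp.measurable.aemeasurable]
    exact (Real.continuous_cos.comp (hph.comp (by fun_prop))).aestronglyMeasurable
  rw [h0]
  simp_rw [ph_sub, Real.cos_sub]
  have ck := abs_cos_int (ν k) hph.measurable
  have cl := abs_cos_int (ν l) hph.measurable
  rw [integral_add (ck.1.mul_prod cl.1) (ck.2.mul_prod cl.2)]
  exact congrArg₂ (· + ·)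
    (integral_prod_mul (fun x => Real.cos (ph L p x)) (fun x => Real.cos (ph L p x)))
    (integral_prod_mul (fun x => Real.sin (ph L p x)) (fun x => Real.sin (ph L p x)))

section

variable {L : ℝ} {τ : Type*} {T : Finset τ} {d : τ → Fin 3 → ℤ} {c : τ → ℝ}

/-- mean interaction in a product state -/
lemma integral_Vt (ν : Fin N → Measure E3) [∀ i, IsProbabilityMeasure (ν i)] :
    ∫ x, Vt L T d c x ∂(Measure.pi ν) =
      1 / 2 * ((∑ r ∈ T, c r * ((∑ k, ∫ x, Real.cos (ph L (d r) x) ∂(ν k)) ^ 2 +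
        (∑ k, ∫ x, Real.sin (ph L (d r) x) ∂(ν k)) ^ 2)) -
        ∑ k, ∑ r ∈ T, c r * ((∫ x, Real.cos (ph L (d r) x) ∂(ν k)) ^ 2 +
          (∫ x, Real.sin (ph L (d r) x) ∂(ν k)) ^ 2)) := by
  have hci : ∀ (p : Fin N × Fin N) (r : τ), Integrable
      (fun x : Fin N → E3 => c r * Real.cos (ph L (d r) (x p.1 - x p.2))) (Measure.pi ν) := by
    intro p r
    apply Integrable.const_mul
    refine (abs_cos_int _ ?_).1
    exact ((continuous_ph (L := L) (d r)).comp (by fun_prop)).measurable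
  have h1 : ∀ p : Fin N × Fin N, Integrable (fun x : Fin N → E3 =>
        (if p.1 < p.2 then Wt L T d c (x p.1 - x p.2) else 0)) (Measure.pi ν) := by
    intro p
    split_ifs
    · exact integrable_finsetSum _ fun r _ => hci p r
    · simp
  simp_rw [← sum_Wt]
  rw [integral_finsetSum _ (fun p _ => h1 p)]
  have h2 : ∀ p : Fin N × Fin N, (∫ x : Fin N → E3,
      (if p.1 < p.2 then Wt L T d c (x p.1 - x p.2) else 0) ∂(Measure.pi ν)) =
      if p.1 < p.2 then (fun k l => ∑ r ∈ T, c r *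
        ((∫ x, Real.cos (ph L (d r) x) ∂(ν k)) * (∫ x, Real.cos (ph L (d r) x) ∂(ν l)) +
        (∫ x, Real.sin (ph L (d r) x) ∂(ν k)) * (∫ x, Real.sin (ph L (d r) x) ∂(ν l)))) p.1 p.2
      else 0 := by
    intro p
    split_ifs with hlt
    · unfold Wt
      rw [integral_finsetSum _ (fun r _ => hci p r)]
      apply Finset.sum_congr rfl; intro r _
      rw [integral_const_mul, integral_cos_pair ν (d r) hlt.ne]
    · simp
  simp_rw [h2]
  rw [sum_pairs (fun k l => ∑ r ∈ T, c r *
        ((∫ x, Real.cos (ph L (d r) x) ∂(ν k)) * (∫ x, Real.cos (ph L (d r) x) ∂(ν l)) +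
        (∫ x, Real.sin (ph L (d r) x) ∂(ν k)) * (∫ x, Real.sin (ph L (d r) x) ∂(ν l))))]
  · congr 2
    · rw [Finset.sum_congr rfl (fun k _ => Finset.sum_comm), Finset.sum_comm]
      apply Finset.sum_congr rfl; intro r _
      rw [sq, sq, Finset.sum_mul_sum, Finset.sum_mul_sum, ← Finset.sum_add_distrib,
        Finset.mul_sum]
      apply Finset.sum_congr rfl; intro k _
      rw [← Finset.sum_add_distrib, Finset.mul_sum]
    · apply Finset.sum_congr rfl; intro k _
      apply Finset.sum_congr rfl; intro r _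
      ring
  · intro k l
    apply Finset.sum_congr rfl; intro r _
    ring

end

/-- sum of cell averages -/
lemma sum_eta {r : ℝ} [hr : Fact (0 < r)] {q : ℕ} (hq : 0 < q) [Fact (0 < (q : ℝ) * r)]
    {g : E3 → ℝ} (hg : Integrable g (unif (q * r))) :
    ∑ c : Fin 3 → Fin q, ∫ x, g x ∂(eta r (emb c)) = (q : ℝ) ^ 3 * ∫ x, g x ∂(unif (q * r)) := by
  have hr3 : (r ^ 3) ≠ 0 := by have := hr.out; positivity
  have hq3 : ((q : ℝ) ^ 3) ≠ 0 := by
    have : (0 : ℝ) < q := by exact_mod_cast hq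
    positivity
  simp_rw [integral_eta]
  rw [integral_unif, smul_eq_mul]
  simp_rw [smul_eq_mul]
  rw [← Finset.mul_sum]
  have h1 : ∑ c : Fin 3 → Fin q, ∫ x in cellAt r (emb c), g x = ∫ x in cell (q * r), g x := by
    have hd : Pairwise (Function.onFun Disjoint (fun c : Fin 3 → Fin q => cellAt r (emb c))) := by
      intro c c' h
      have h1 : emb c ≠ emb c' := fun hcon => h (emb_injective hcon)
      exact disjoint_cellAt r h1
    rw [cell_eq_iUnion hr.out, integral_iUnion_fintype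
      (fun c => measurableSet_cellAt r (emb c)) hd]
    intro c
    have := (integrable_unif (q * r) g).mpr hg
    exact this.mono_set (cellAt_subset hr.out c)
  rw [h1, mul_pow, mul_inv]
  field_simp

lemma integral_cos_unif {L : ℝ} [hL : Fact (0 < L)] (p : Fin 3 → ℤ) :
    ∫ x, Real.cos (ph L p x) ∂(unif L) = if p = 0 then 1 else 0 := by
  have h := congrArg Complex.re (integral_ch (L := L) p)
  have hi : Integrable (ch L p) (unif L) :=
    (integrable_const (1 : ℝ)).mono' (continuous_ch _).aestronglyMeasurable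
      (Filter.Eventually.of_forall fun x => by rw [norm_ch])
  have h2 : Complex.re (∫ x, ch L p x ∂(unif L)) = ∫ x, (ch L p x).re ∂(unif L) :=
    (integral_re hi).symm
  rw [h2] at h
  simp only [ch, Complex.exp_ofReal_mul_I_re] at h
  rw [h]
  split_ifs <;> simp

lemma integral_sin_unif {L : ℝ} [hL : Fact (0 < L)] (p : Fin 3 → ℤ) :
    ∫ x, Real.sin (ph L p x) ∂(unif L) = 0 := by
  have h := congrArg Complex.im (integral_ch (L := L) p)
  have hi : Integrable (ch L p) (unif L) :=
    (integrable_const (1 : ℝ)).mono' (continuous_ch _).aestronglyMeasurable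
      (Filter.Eventually.of_forall fun x => by rw [norm_ch])
  have h2 : Complex.im (∫ x, ch L p x ∂(unif L)) = ∫ x, (ch L p x).im ∂(unif L) :=
    (integral_im hi).symm
  rw [h2] at h
  simp only [ch, Complex.exp_ofReal_mul_I_im] at h
  rw [h]
  split_ifs <;> simp

end H47.SE
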