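import Pool.Agent.H47.SE.Average

/-! Characters of the torus and the Fejér type smearing. -/

open MeasureTheory ProbabilityTheory
open scoped ENNReal NNReal Real ComplexConjugate

noncomputable section

namespace H47.SE

/-- phase `2π ⟨p, x⟩ / L` -/
def ph (L : ℝ) (p : Fin 3 → ℤ) (x : E3) : ℝ := 2 * π * (∑ a, (p a : ℝ) * x a) / L

/-- character `exp (2 π i ⟨p, x⟩ / L)` -/
def ch (L : ℝ) (p : Fin 3 → ℤ) (x : E3) : ℂ := Complex.exp (ph L p x * Complex.I)

variable {L : ℝ}

lemma ph_add (p : Fin 3 → ℤ) (x y : E3) : ph L p (x + y) = ph L p x + ph L p y := by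
  unfold ph
  simp only [PiLp.add_apply, mul_add, Finset.sum_add_distrib]
  ring

lemma ph_neg (p : Fin 3 → ℤ) (x : E3) : ph L p (-x) = - ph L p x := by
  unfold ph
  simp only [PiLp.neg_apply, mul_neg, Finset.sum_neg_distrib]
  ring

lemma ph_sub (p : Fin 3 → ℤ) (x y : E3) : ph L p (x - y) = ph L p x - ph L p y := by
  rw [sub_eq_add_neg, ph_add, ph_neg]; ring

lemma ph_add_left (p q : Fin 3 → ℤ) (x : E3) : ph L (p + q) x = ph L p x + ph L q x := by
  unfold ph
  simp only [Pi.add_apply, Int.cast_add, add_mul, Finset.sum_add_distrib, mul_add]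
  ring

lemma ph_neg_left (p : Fin 3 → ℤ) (x : E3) : ph L (-p) x = - ph L p x := by
  unfold ph
  simp only [Pi.neg_apply, Int.cast_neg, neg_mul, Finset.sum_neg_distrib, mul_neg]
  ring

lemma ph_zero_left (x : E3) : ph L 0 x = 0 := by simp [ph]

lemma continuous_ph (p : Fin 3 → ℤ) : Continuous (ph L p) := by
  unfold ph; fun_prop

lemma continuous_ch (p : Fin 3 → ℤ) : Continuous (ch L p) := by
  unfold ch
  exact Complex.continuous_exp.comp
    ((Complex.continuous_ofReal.comp (continuous_ph p)).mul continuous_const)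

lemma ch_add (p : Fin 3 → ℤ) (x y : E3) : ch L p (x + y) = ch L p x * ch L p y := by
  unfold ch; rw [ph_add, ← Complex.exp_add]; push_cast; ring_nf

lemma ch_add_left (p q : Fin 3 → ℤ) (x : E3) : ch L (p + q) x = ch L p x * ch L q x := by
  unfold ch; rw [ph_add_left, ← Complex.exp_add]; push_cast; ring_nf

lemma ch_zero_left (x : E3) : ch L 0 x = 1 := by simp [ch, ph_zero_left]

lemma norm_ch (p : Fin 3 → ℤ) (x : E3) : ‖ch L p x‖ = 1 := by
  unfold ch; exact Complex.norm_exp_ofReal_mul_I _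

lemma ch_neg (p : Fin 3 → ℤ) (x : E3) : ch L p (-x) = conj (ch L p x) := by
  unfold ch
  rw [ph_neg, ← Complex.exp_conj]
  simp

lemma ch_neg_left (p : Fin 3 → ℤ) (x : E3) : ch L (-p) x = conj (ch L p x) := by
  unfold ch
  rw [ph_neg_left, ← Complex.exp_conj]
  simp

lemma ch_sub (p : Fin 3 → ℤ) (x y : E3) : ch L p (x - y) = ch L p x * conj (ch L p y) := by
  rw [sub_eq_add_neg, ch_add, ch_neg]

lemma ch_latt [hL : Fact (0 < L)] (p : Fin 3 → ℤ) (n : Fin 3 → ℤ) : ch L p (latt L n) = 1 := by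
  unfold ch ph
  have hL0 : L ≠ 0 := hL.out.ne'
  have : 2 * π * (∑ a, (p a : ℝ) * latt L n a) / L = ((∑ a, p a * n a : ℤ) : ℝ) * (2 * π) := by
    simp only [latt_apply]
    push_cast
    rw [Finset.mul_sum, Finset.sum_div, Finset.sum_mul]
    apply Finset.sum_congr rfl
    intro a _
    field_simp
  rw [this]
  have h2 : (((((∑ a, p a * n a : ℤ) : ℝ) * (2 * π) : ℝ) : ℂ)) * Complex.I =
      ((∑ a, p a * n a : ℤ) : ℂ) * (2 * π * Complex.I) := by
    push_cast; ring
  rw [h2, Complex.exp_int_mul_two_pi_mul_I]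

lemma ch_periodic [hL : Fact (0 < L)] (p : Fin 3 → ℤ) (x : E3) (n : Fin 3 → ℤ) :
    ch L p (x + latt L n) = ch L p x := by
  rw [ch_add, ch_latt, mul_one]

/-- orthogonality of characters -/
lemma integral_ch [hL : Fact (0 < L)] (p : Fin 3 → ℤ) :
    ∫ x, ch L p x ∂(unif L) = if p = 0 then 1 else 0 := by
  split_ifs with h
  · subst h
    simp [ch_zero_left]
  · obtain ⟨a, ha⟩ : ∃ a, p a ≠ 0 := by
      by_contra hcon
      push Not at hcon
      exact h (funext hcon)
    have hL0 : L ≠ 0 := hL.out.ne'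
    have hpa : (p a : ℝ) ≠ 0 := by exact_mod_cast ha
    set s : E3 := EuclideanSpace.single a (L / (2 * p a)) with hs
    have h1 : ch L p s = -1 := by
      unfold ch ph
      have : 2 * π * (∑ b, (p b : ℝ) * s b) / L = π := by
        have h2 : ∑ b, (p b : ℝ) * s b = p a * (L / (2 * p a)) := by
          rw [Finset.sum_eq_single a]
          · simp [hs]
          · intro b _ hb; simp [hs, hb]
          · simp
        rw [h2]; field_simp
      rw [this, Complex.exp_pi_mul_I]
    have h2 := unif_shift (F := ch L p) (ch_periodic p) (continuous_ch p).stronglyMeasurable s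
    have h3 : (fun x => ch L p (x + s)) = fun x => - ch L p x := by
      ext x; rw [ch_add, h1]; ring
    rw [h3, integral_neg] at h2
    have h4 : (2 : ℂ) * ∫ x, ch L p x ∂(unif L) = 0 := by linear_combination -h2
    simpa using h4

lemma integrable_ch_mul {Ω : Type*} [MeasurableSpace Ω] {ν : Measure Ω}
    {w : Ω → ℝ} (hw : Integrable w ν) (g : Ω → ℂ) (hg : AEStronglyMeasurable g ν)
    (hb : ∀ x, ‖g x‖ = 1) :
    Integrable (fun x => (w x : ℂ) * g x) ν := by
  refine hw.ofReal.mul_bdd (c := 1) hg ?_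
  filter_upwards with x
  rw [hb x]

/-- the basic two particle integral -/
lemma integral_K [hL : Fact (0 < L)] {w : E3 → ℝ} (hw : ∀ x, 0 ≤ w x)
    (hwm : Measurable w) (hwp : ∀ x n, w (x + latt L n) = w x) (hwi : Integrable w (unif L))
    (s : E3) (p r : Fin 3 → ℤ) :
    ∫ q : E3 × E3, (w (s + (q.1 - q.2)) : ℂ) * (ch L p q.1 * ch L r q.2)
      ∂((unif L).prod (unif L)) =
      if p + r = 0 then (∫ x, (w x : ℂ) * ch L p x ∂(unif L)) * conj (ch L p s) else 0 := by
  obtain ⟨h1, _⟩ := integrable_diff hw hwm hwp hwi s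
  have h1' : Integrable (fun q : E3 × E3 => w (s + (q.1 - q.2))) ((unif L).prod (unif L)) := by
    refine h1.congr ?_
    filter_upwards with q
    congr 1; abel
  have hi : Integrable (fun q : E3 × E3 => (w (s + (q.1 - q.2)) : ℂ) *
      (ch L p q.1 * ch L r q.2)) ((unif L).prod (unif L)) := by
    apply integrable_ch_mul h1'
    · exact (((continuous_ch p).comp continuous_fst).mul
        ((continuous_ch r).comp continuous_snd)).aestronglyMeasurable
    · intro x; rw [norm_mul, norm_ch, norm_ch, one_mul]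
  rw [integral_prod_symm _ hi]
  simp only
  have e : ∀ z : E3, ∫ y, (w (s + (y - z)) : ℂ) * (ch L p y * ch L r z) ∂(unif L) =
      (∫ x, (w x : ℂ) * ch L p x ∂(unif L)) * conj (ch L p s) * ch L (p + r) z := by
    intro z
    have hper : ∀ x n, (fun x => (w x : ℂ) * ch L p x) (x + latt L n) =
        (fun x => (w x : ℂ) * ch L p x) x := by
      intro x n; simp only [hwp, ch_periodic]
    have hmeas : StronglyMeasurable (fun x => (w x : ℂ) * ch L p x) :=
      ((Complex.measurable_ofReal.comp hwm).mul (continuous_ch p).measurable).stronglyMeasurable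
    have := unif_shift hper hmeas (s - z)
    rw [← this, ← integral_mul_const, ← integral_mul_const]
    congr 1; ext y
    have e1 : y + (s - z) = s + (y - z) := by abel
    rw [e1, ch_add_left]
    have e2 : ch L p (s + (y - z)) * conj (ch L p s) * ch L p z = ch L p y := by
      rw [ch_add, ch_sub]
      have n1 : ch L p s * conj (ch L p s) = 1 := by
        rw [Complex.mul_conj, Complex.normSq_eq_norm_sq, norm_ch]; simp
      have n2 : conj (ch L p z) * ch L p z = 1 := by
        rw [mul_comm, Complex.mul_conj, Complex.normSq_eq_norm_sq, norm_ch]; simp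
      linear_combination (ch L p y * conj (ch L p z) * ch L p z) * n1 + ch L p y * n2
    rw [← e2]; ring
  simp_rw [e]
  rw [integral_const_mul, integral_ch]
  split_ifs <;> simp

/-- multiplicity of a difference -/
def mult (Q : Finset (Fin 3 → ℤ)) (d : Fin 3 → ℤ) : ℕ :=
  ((Q ×ˢ Q).filter (fun r => d + (r.1 - r.2) = 0)).card

/-- the Fejér type kernel of a finite set of frequencies -/
def fej (L : ℝ) (Q : Finset (Fin 3 → ℤ)) (y : E3) : ℝ :=
  (Q.card : ℝ)⁻¹ * ‖∑ q ∈ Q, ch L q y‖ ^ 2

lemma fej_nonneg (Q : Finset (Fin 3 → ℤ)) (y : E3) : 0 ≤ fej L Q y := by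
  unfold fej; positivity

lemma continuous_fej (Q : Finset (Fin 3 → ℤ)) : Continuous (fej L Q) := by
  unfold fej
  exact continuous_const.mul ((continuous_finsetSum _ fun q _ => continuous_ch q).norm.pow 2)

lemma fej_eq (Q : Finset (Fin 3 → ℤ)) (y : E3) :
    (fej L Q y : ℂ) = (Q.card : ℂ)⁻¹ * ∑ r ∈ Q ×ˢ Q, ch L (r.1 - r.2) y := by
  unfold fej
  push_cast
  congr 1
  rw [← Complex.ofReal_pow, ← Complex.normSq_eq_norm_sq, ← Complex.mul_conj, map_sum,
    Finset.sum_mul_sum, Finset.sum_product]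
  apply Finset.sum_congr rfl; intro q _
  apply Finset.sum_congr rfl; intro r _
  rw [sub_eq_add_neg, ch_add_left, ch_neg_left]

/-- the smearing probability measure -/
def fejM (L : ℝ) (Q : Finset (Fin 3 → ℤ)) : Measure E3 :=
  (unif L).withDensity (fun y => ENNReal.ofReal (fej L Q y))

lemma integral_fej [hL : Fact (0 < L)] (Q : Finset (Fin 3 → ℤ)) (hQ : Q.Nonempty) :
    ∫ y, fej L Q y ∂(unif L) = 1 := by
  have h : ((∫ y, fej L Q y ∂(unif L) : ℝ) : ℂ) = 1 := by
    rw [← integral_complex_ofReal]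
    simp_rw [fej_eq]
    rw [integral_const_mul, integral_finsetSum]
    · simp_rw [integral_ch]
      rw [Finset.sum_ite, Finset.sum_const_zero, add_zero, Finset.sum_const]
      have : ((Q ×ˢ Q).filter (fun r : (Fin 3 → ℤ) × (Fin 3 → ℤ) => r.1 - r.2 = 0)).card
          = Q.card := by
        have h2 : (Q ×ˢ Q).filter (fun r : (Fin 3 → ℤ) × (Fin 3 → ℤ) => r.1 - r.2 = 0) =
            Q.image (fun q => (q, q)) := by
          ext ⟨a, b⟩
          simp only [Finset.mem_filter, Finset.mem_product, Finset.mem_image, Prod.mk.injEq]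
          constructor
          · rintro ⟨⟨h1, h2⟩, h3⟩; exact ⟨a, h1, rfl, sub_eq_zero.mp h3⟩
          · rintro ⟨c, hc, rfl, rfl⟩; exact ⟨⟨hc, hc⟩, sub_self _⟩
        rw [h2, Finset.card_image_of_injective _ (fun a b h => (Prod.mk.inj h).1)]
      rw [this]
      have hc : (Q.card : ℂ) ≠ 0 := by
        exact_mod_cast (Finset.card_pos.mpr hQ).ne'
      simp [hc]
    · intro r _
      exact (integrable_const (1 : ℝ)).mono' (continuous_ch _).aestronglyMeasurable
        (Filter.Eventually.of_forall fun x => by rw [norm_ch])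
  exact_mod_cast h

lemma isProb_fejM [hL : Fact (0 < L)] (Q : Finset (Fin 3 → ℤ)) (hQ : Q.Nonempty) :
    IsProbabilityMeasure (fejM L Q) := by
  constructor
  have hi : Integrable (fej L Q) (unif L) := by
    by_contra hcon
    have := integral_undef hcon
    rw [integral_fej Q hQ] at this
    exact one_ne_zero this
  rw [fejM, withDensity_apply _ MeasurableSet.univ, Measure.restrict_univ,
    ← ofReal_integral_eq_lintegral_ofReal hi (Filter.Eventually.of_forall fun y => fej_nonneg Q y),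
    integral_fej Q hQ, ENNReal.ofReal_one]

/-- explicit form of the smeared potential -/
theorem smear_eq [hL : Fact (0 < L)] {w : E3 → ℝ} (hw : ∀ x, 0 ≤ w x)
    (hwm : Measurable w) (hwp : ∀ x n, w (x + latt L n) = w x) (hwi : Integrable w (unif L))
    (Q : Finset (Fin 3 → ℤ)) (hQ : Q.Nonempty) (s : E3) :
    ((smear w (fejM L Q) s : ℝ) : ℂ) = ∑ r ∈ Q ×ˢ Q,
      ((mult Q (r.1 - r.2) : ℂ) / (Q.card : ℂ) ^ 2) *
        ((∫ x, (w x : ℂ) * ch L (r.1 - r.2) x ∂(unif L)) * conj (ch L (r.1 - r.2) s)) := by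
  haveI := isProb_fejM (L := L) Q hQ
  have hmf : Measurable (fun y => ENNReal.ofReal (fej L Q y)) :=
    (continuous_fej Q).measurable.ennreal_ofReal
  have e0 : (fejM L Q).prod (fejM L Q) = ((unif L).prod (unif L)).withDensity
      (fun z => ENNReal.ofReal (fej L Q z.1) * ENNReal.ofReal (fej L Q z.2)) := by
    haveI : SFinite ((unif L).withDensity (fun y => ENNReal.ofReal (fej L Q y))) := by
      change SFinite (fejM L Q); infer_instance
    rw [fejM, prod_withDensity hmf hmf]
  have e1 : smear w (fejM L Q) s = ∫ z : E3 × E3, (fej L Q z.1 * fej L Q z.2) *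
      w (s + (z.1 - z.2)) ∂((unif L).prod (unif L)) := by
    unfold smear
    rw [e0, integral_withDensity_eq_integral_toReal_smul]
    · congr 1; ext z
      rw [ENNReal.toReal_mul, ENNReal.toReal_ofReal (fej_nonneg Q _),
        ENNReal.toReal_ofReal (fej_nonneg Q _), smul_eq_mul]
    · exact (hmf.comp measurable_fst).mul (hmf.comp measurable_snd)
    · exact Filter.Eventually.of_forall fun z => ENNReal.mul_lt_top ENNReal.ofReal_lt_top
        ENNReal.ofReal_lt_top
  rw [e1, ← integral_complex_ofReal]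
  obtain ⟨h1, _⟩ := integrable_diff hw hwm hwp hwi s
  have h1' : Integrable (fun q : E3 × E3 => w (s + (q.1 - q.2))) ((unif L).prod (unif L)) := by
    refine h1.congr ?_
    filter_upwards with q
    congr 1; abel
  have e2 : ∀ z : E3 × E3, (((fej L Q z.1 * fej L Q z.2) * w (s + (z.1 - z.2)) : ℝ) : ℂ) =
      ∑ r ∈ Q ×ˢ Q, ∑ t ∈ Q ×ˢ Q, ((Q.card : ℂ)⁻¹ ^ 2) * ((w (s + (z.1 - z.2)) : ℂ) *
        (ch L (r.1 - r.2) z.1 * ch L (t.1 - t.2) z.2)) := by
    intro z
    push_cast
    rw [fej_eq, fej_eq]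
    have : ((Q.card : ℂ)⁻¹ * ∑ r ∈ Q ×ˢ Q, ch L (r.1 - r.2) z.1) *
        ((Q.card : ℂ)⁻¹ * ∑ r ∈ Q ×ˢ Q, ch L (r.1 - r.2) z.2) =
        ((Q.card : ℂ)⁻¹ ^ 2) * ((∑ r ∈ Q ×ˢ Q, ch L (r.1 - r.2) z.1) *
          (∑ t ∈ Q ×ˢ Q, ch L (t.1 - t.2) z.2)) := by ring
    rw [this, Finset.sum_mul_sum, Finset.mul_sum, Finset.sum_mul]
    apply Finset.sum_congr rfl; intro r _
    rw [Finset.mul_sum, Finset.sum_mul]
    apply Finset.sum_congr rfl; intro t _
    ring
  simp_rw [e2]
  have hi : ∀ p r : Fin 3 → ℤ, Integrable (fun z : E3 × E3 => ((Q.card : ℂ)⁻¹ ^ 2) *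
      ((w (s + (z.1 - z.2)) : ℂ) * (ch L p z.1 * ch L r z.2))) ((unif L).prod (unif L)) := by
    intro p r
    apply Integrable.const_mul
    apply integrable_ch_mul h1'
    · exact (((continuous_ch p).comp continuous_fst).mul
        ((continuous_ch r).comp continuous_snd)).aestronglyMeasurable
    · intro x; rw [norm_mul, norm_ch, norm_ch, one_mul]
  rw [integral_finsetSum _ (fun r _ => integrable_finsetSum _ (fun t _ => hi _ _))]
  apply Finset.sum_congr rfl; intro r _
  rw [integral_finsetSum _ (fun t _ => hi _ _)]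
  simp_rw [integral_const_mul, integral_K hw hwm hwp hwi]
  rw [← Finset.mul_sum, Finset.sum_ite, Finset.sum_const_zero, add_zero, Finset.sum_const,
    nsmul_eq_mul]
  have hm : ((Q ×ˢ Q).filter (fun t : (Fin 3 → ℤ) × (Fin 3 → ℤ) =>
      r.1 - r.2 + (t.1 - t.2) = 0)).card = mult Q (r.1 - r.2) := rfl
  rw [hm]
  field_simp

end H47.SE
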