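import Mathlib

/-!
# The Simple equation and the Bose gas: the definitions of the statement

* `IsSimpleSolution m v ρ u e`: `(u, e)` is an integrable solution of the Simple equation at
  density `ρ` with `0 ≤ u ≤ 1`.
* `groundEnergy m w N L`: the ground state energy of `N` particles of mass `m` on the torus
  `ℝ³ / (L ℤ)³` with pair interaction `w (x_i - x_j)` (`w` an `L`-periodic function).
* `perPot v L`, `nearPot v L`: the two usual readings of `v (x_i - x_j)` on the torus,
  the periodization of `v` and the nearest image convention.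
* `side ρ N`: the side of the torus with `N` particles at density `ρ`.
* `IsThermoLimit m ρ w e0`: `e0` is the thermodynamic limit of the energy per particle.
-/

open MeasureTheory SchwartzMap Laplacian Filter
open scoped Real Topology

noncomputable section

namespace H47.SE

/-- three dimensional Euclidean space -/
abbrev E3 := EuclideanSpace ℝ (Fin 3)

/-! ### The Simple equation -/

/-- `u` (with energy `e`) is an integrable solution of the Simple equation
`-(1/m) Δ u = (1 - u) v - 4 e u + 2 e ρ u * u`, `e = (ρ/2) ∫ (1 - u) v`, with `0 ≤ u ≤ 1`.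
The equation is understood in the sense of (tempered) distributions: it is tested against
Schwartz functions. -/
structure IsSimpleSolution (m : ℝ) (v : E3 → ℝ) (ρ : ℝ) (u : E3 → ℝ) (e : ℝ) : Prop where
  integrable : Integrable u
  bounds : ∀ᵐ x, 0 ≤ u x ∧ u x ≤ 1
  energy : e = ρ / 2 * ∫ x, (1 - u x) * v x
  equation : ∀ φ : 𝓢(E3, ℂ),
    -(1 / (m : ℂ)) * ∫ x, (u x : ℂ) * (Δ φ) x =
      ∫ x, (((1 - u x) * v x - 4 * e * u x
        + 2 * e * ρ * ∫ y, u y * u (x - y) : ℝ) : ℂ) * φ x

/-! ### The torus -/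

/-- the fundamental cell `(0, L]³` -/
def cell (L : ℝ) : Set E3 := {x | ∀ a, x a ∈ Set.Ioc 0 L}

/-- lattice vectors of `(L ℤ)³` -/
def latt (L : ℝ) (n : Fin 3 → ℤ) : E3 := WithLp.toLp 2 (fun a => L * (n a : ℝ))

/-- the fundamental box of the lattice `(L ℤ)^{3 ι}` -/
def box (ι : Type*) (L : ℝ) : Set (ι → E3) := {x | ∀ i, x i ∈ cell L}

/-- periodicity in every coordinate with period `L` -/
def PeriodicN {ι : Type*} {α : Type*} (L : ℝ) (F : (ι → E3) → α) : Prop :=
  ∀ (x : ι → E3) (n : ι → Fin 3 → ℤ), F (fun i => x i + latt L (n i)) = F x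

/-! ### The many-body energy -/

/-- the unit vector of coordinate `a` of particle `i` -/
def dirE {ι : Type*} [DecidableEq ι] (i : ι) (a : Fin 3) : ι → E3 :=
  Pi.single i (EuclideanSpace.single a 1)

/-- admissible wave functions: smooth, `L`-periodic in all coordinates, nonzero -/
structure IsTrial (N : ℕ) (L : ℝ) (ψ : (Fin N → E3) → ℂ) : Prop where
  smooth : ContDiff ℝ (⊤ : ℕ∞) ψ
  periodic : PeriodicN L ψ
  pos : 0 < ∫ x in box (Fin N) L, ‖ψ x‖ ^ 2

/-- kinetic energy `(1/2m) ∑ ∫ |∇_i ψ|²` -/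
def kinetic (m : ℝ) (N : ℕ) (L : ℝ) (ψ : (Fin N → E3) → ℂ) : ℝ :=
  1 / (2 * m) * ∑ i, ∑ a, ∫ x in box (Fin N) L, ‖fderiv ℝ ψ x (dirE i a)‖ ^ 2

/-- potential energy `∑_{i<j} ∫ w (x_i - x_j) |ψ|²` -/
def potential (w : E3 → ℝ) (N : ℕ) (L : ℝ) (ψ : (Fin N → E3) → ℂ) : ℝ :=
  ∑ p : Fin N × Fin N, if p.1 < p.2 then
    ∫ x in box (Fin N) L, w (x p.1 - x p.2) * ‖ψ x‖ ^ 2 else 0

/-- ground state energy of `N` particles on the torus of side `L`: the infimum of the energy of
normalized smooth periodic wave functions -/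
def groundEnergy (m : ℝ) (w : E3 → ℝ) (N : ℕ) (L : ℝ) : ℝ :=
  sInf {r | ∃ ψ, IsTrial N L ψ ∧
    r = (kinetic m N L ψ + potential w N L ψ) / ∫ x in box (Fin N) L, ‖ψ x‖ ^ 2}

/-! ### The interaction on the torus -/

/-- the periodization of `v` -/
def perPot (v : E3 → ℝ) (L : ℝ) (x : E3) : ℝ := ∑' n : Fin 3 → ℤ, v (x + latt L n)

/-- nearest image convention: `v` at the representative of `x` in `(-L/2, L/2]³` -/
def nearPot (v : E3 → ℝ) (L : ℝ) (x : E3) : ℝ :=
  v (x + latt L (fun a => -⌈x a / L - 1 / 2⌉))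

/-! ### The thermodynamic limit -/

/-- side of the torus which carries `N` particles at density `ρ` -/
def side (ρ : ℝ) (N : ℕ) : ℝ := ((N : ℝ) / ρ) ^ ((1 : ℝ) / 3)

/-- `e0` is the thermodynamic limit of the ground state energy per particle, where
`w L` is the interaction on the torus of side `L` -/
def IsThermoLimit (m ρ : ℝ) (w : ℝ → E3 → ℝ) (e0 : ℝ) : Prop :=
  Tendsto (fun N : ℕ => groundEnergy m (w (side ρ N)) N (side ρ N) / N) atTop (𝓝 e0)

end H47.SE
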