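import Pool.Agent.H47.SE.Torus

/-! The many-body energy on the torus and the basic trial function inequality. -/

open MeasureTheory
open scoped ENNReal NNReal Real

noncomputable section

namespace H47.SE

variable {ι : Type*}

lemma groundEnergy_le {m : ℝ} (hm : 0 < m) {w : E3 → ℝ} (hw : ∀ x, 0 ≤ w x) {N : ℕ} {L : ℝ}
    {ψ : (Fin N → E3) → ℂ} (hψ : IsTrial N L ψ) :
    groundEnergy m w N L * (∫ x in box (Fin N) L, ‖ψ x‖ ^ 2) ≤
      kinetic m N L ψ + potential w N L ψ := by
  have h1 : groundEnergy m w N L ≤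
      (kinetic m N L ψ + potential w N L ψ) / ∫ x in box (Fin N) L, ‖ψ x‖ ^ 2 := by
    apply csInf_le
    · refine ⟨0, ?_⟩
      rintro r ⟨φ, hφ, rfl⟩
      apply div_nonneg _ hφ.pos.le
      apply add_nonneg
      · unfold kinetic
        apply mul_nonneg (by positivity)
        apply Finset.sum_nonneg; intro i _
        apply Finset.sum_nonneg; intro a _
        exact integral_nonneg fun x => by positivity
      · unfold potential
        apply Finset.sum_nonneg; intro p _
        split_ifs
        · exact integral_nonneg fun x => mul_nonneg (hw _) (by positivity)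
        · exact le_refl _
    · exact ⟨ψ, hψ, rfl⟩
  rwa [le_div_iff₀ hψ.pos] at h1

/-- partial derivative of a real function of the configuration -/
def pd [DecidableEq ι] [Fintype ι] (i : ι) (a : Fin 3) (f : (ι → E3) → ℝ) (x : ι → E3) : ℝ :=
  fderiv ℝ f x (dirE i a)

lemma PeriodicN.sub_const {α : Type*} {L : ℝ} {F : (ι → E3) → α} (hF : PeriodicN L F)
    (ζ : ι → E3) : PeriodicN L (fun x => F (x - ζ)) := by
  intro x n
  have := hF (x - ζ) n
  simp only
  rw [← this]
  congr 1
  ext i : 1
  simp only [Pi.sub_apply]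
  abel

lemma latt_add (L : ℝ) (n k : Fin 3 → ℤ) : latt L n + latt L k = latt L (n + k) := by
  ext a; simp; ring

lemma periodic_diff {α : Type*} {L : ℝ} {w : E3 → α} (hw : ∀ x n, w (x + latt L n) = w x)
    (i j : ι) : PeriodicN L (fun x : ι → E3 => w (x i - x j)) := by
  intro x n
  simp only
  have : x i + latt L (n i) - (x j + latt L (n j)) = (x i - x j) + latt L (n i - n j) := by
    ext a; simp; ring
  rw [this, hw]

section trial

variable {N : ℕ} {L : ℝ} {f : (Fin N → E3) → ℝ}

/-- trial function `exp (f (x - ζ) / 2)` -/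
def tf (f : (Fin N → E3) → ℝ) (ζ : Fin N → E3) (x : Fin N → E3) : ℂ :=
  ((Real.exp (f (x - ζ) / 2) : ℝ) : ℂ)

lemma norm_tf_sq (ζ x : Fin N → E3) : ‖tf f ζ x‖ ^ 2 = Real.exp (f (x - ζ)) := by
  rw [tf, Complex.norm_real, Real.norm_eq_abs, sq_abs, ← Real.exp_nat_mul]
  congr 1; push_cast; ring

lemma fderiv_tf (hf : ContDiff ℝ (⊤ : ℕ∞) f) (ζ x : Fin N → E3) (d : Fin N → E3) :
    ‖fderiv ℝ (tf f ζ) x d‖ ^ 2 = 1 / 4 * (fderiv ℝ f (x - ζ) d) ^ 2 * Real.exp (f (x - ζ)) := by
  have hd : DifferentiableAt ℝ f (x - ζ) := (hf.differentiable (by simp)).differentiableAt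
  have h0 : HasFDerivAt (fun y : Fin N → E3 => y - ζ) (ContinuousLinearMap.id ℝ _) x :=
    (hasFDerivAt_id x).sub_const ζ
  have h1 : HasFDerivAt (fun y => f (y - ζ)) (fderiv ℝ f (x - ζ)) x := by
    simpa using! hd.hasFDerivAt.comp x h0
  have h2 : HasFDerivAt (fun y => Real.exp (f (y - ζ) / 2))
      (Real.exp (f (x - ζ) / 2) • ((1 / 2 : ℝ) • fderiv ℝ f (x - ζ))) x := by
    have h3 : HasFDerivAt (fun y => f (y - ζ) / 2) ((1 / 2 : ℝ) • fderiv ℝ f (x - ζ)) x := by
      have h5 := h1.const_mul (1 / 2 : ℝ)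
      have h6 : (fun y => f (y - ζ) / 2) = fun y => 1 / 2 * f (y - ζ) := by
        ext y; ring
      rw [h6]
      exact h5
    exact h3.exp
  have h4 : HasFDerivAt (tf f ζ) (Complex.ofRealCLM.comp
      (Real.exp (f (x - ζ) / 2) • ((1 / 2 : ℝ) • fderiv ℝ f (x - ζ)))) x :=
    Complex.ofRealCLM.hasFDerivAt.comp x h2
  rw [h4.fderiv]
  simp only [ContinuousLinearMap.comp_apply, _root_.smul_apply, smul_eq_mul,
    Complex.ofRealCLM_apply, Complex.norm_real, Real.norm_eq_abs, sq_abs]
  have : Real.exp (f (x - ζ)) = Real.exp (f (x - ζ) / 2) ^ 2 := by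
    rw [← Real.exp_nat_mul]; congr 1; push_cast; ring
  rw [this]; ring

lemma isTrial_tf [hL : Fact (0 < L)] (hf : ContDiff ℝ (⊤ : ℕ∞) f) (hp : PeriodicN L f)
    (ζ : Fin N → E3) (hpos : 0 < ∫ x in box (Fin N) L, Real.exp (f x)) : IsTrial N L (tf f ζ) := by
  refine ⟨?_, ?_, ?_⟩
  · unfold tf
    apply Complex.ofRealCLM.contDiff.comp
    apply Real.contDiff_exp.comp
    exact (hf.comp (contDiff_id.sub contDiff_const)).div_const 2
  · intro x n
    unfold tf
    have := (hp.sub_const ζ) x n
    simp only at this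
    rw [this]
  · simp_rw [norm_tf_sq]
    have hper : PeriodicN L (fun x => Real.exp (f x)) := by
      intro x n; simp only; rw [hp x n]
    have hmeas : StronglyMeasurable (fun x => Real.exp (f x)) :=
      (Real.continuous_exp.comp hf.continuous).stronglyMeasurable
    have := integral_box_shift hper hmeas (-ζ)
    simp_rw [← sub_eq_add_neg] at this
    rw [this]; exact hpos

lemma integral_norm_tf [hL : Fact (0 < L)] (hf : ContDiff ℝ (⊤ : ℕ∞) f) (hp : PeriodicN L f)
    (ζ : Fin N → E3) :
    ∫ x in box (Fin N) L, ‖tf f ζ x‖ ^ 2 = ∫ x in box (Fin N) L, Real.exp (f x) := by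
  simp_rw [norm_tf_sq]
  have hper : PeriodicN L (fun x => Real.exp (f x)) := by
    intro x n; simp only; rw [hp x n]
  have hmeas : StronglyMeasurable (fun x => Real.exp (f x)) :=
    (Real.continuous_exp.comp hf.continuous).stronglyMeasurable
  have := integral_box_shift hper hmeas (-ζ)
  simp_rw [← sub_eq_add_neg] at this
  exact this

lemma fderiv_periodic (hp : PeriodicN L f) (d : Fin N → E3) :
    PeriodicN L (fun x => fderiv ℝ f x d) := by
  intro x n
  simp only
  set c : Fin N → E3 := fun i => latt L (n i) with hc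
  have h1 : (fun i => x i + latt L (n i)) = x + c := rfl
  rw [h1]
  have h2 : fderiv ℝ (fun y => f (y + c)) x = fderiv ℝ f (x + c) := by
    exact fderiv_comp_add_right (f := f) (x := x) c
  rw [← h2]
  congr 2
  ext y
  exact hp y n

lemma kinetic_tf [hL : Fact (0 < L)] (hf : ContDiff ℝ (⊤ : ℕ∞) f) (hp : PeriodicN L f) (m : ℝ)
    (ζ : Fin N → E3) :
    kinetic m N L (tf f ζ) =
      1 / (8 * m) * ∑ i, ∑ a, ∫ x in box (Fin N) L, (pd i a f x) ^ 2 * Real.exp (f x) := by
  unfold kinetic
  have key : ∀ i a, ∫ x in box (Fin N) L, ‖fderiv ℝ (tf f ζ) x (dirE i a)‖ ^ 2 =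
      1 / 4 * ∫ x in box (Fin N) L, (pd i a f x) ^ 2 * Real.exp (f x) := by
    intro i a
    simp_rw [fderiv_tf hf]
    have hper : PeriodicN L (fun x => (pd i a f x) ^ 2 * Real.exp (f x)) := by
      intro x n; simp only
      rw [hp x n]
      have := fderiv_periodic hp (dirE i a) x n
      simp only at this
      unfold pd
      rw [this]
    have hc : Continuous (fun x => (pd i a f x) ^ 2 * Real.exp (f x)) := by
      have h1 : Continuous (fun x => pd i a f x) := by
        unfold pd
        exact (hf.continuous_fderiv (by simp)).clm_apply continuous_const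
      exact (h1.pow 2).mul (Real.continuous_exp.comp hf.continuous)
    have := integral_box_shift hper hc.stronglyMeasurable (-ζ)
    simp_rw [← sub_eq_add_neg] at this
    rw [← this, ← integral_const_mul]
    apply integral_congr_ae; filter_upwards with x
    simp only [pd]; ring
  simp_rw [key, ← Finset.mul_sum]
  rw [← mul_assoc]
  congr 1
  by_cases h : m = 0
  · simp [h]
  · field_simp; norm_num

/-- the basic inequality for a shifted trial function -/
lemma groundEnergy_shift [hL : Fact (0 < L)] {m : ℝ} (hm : 0 < m) {w : E3 → ℝ}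
    (hw : ∀ x, 0 ≤ w x) (hwm : Measurable w) (hwp : ∀ x n, w (x + latt L n) = w x)
    (hf : ContDiff ℝ (⊤ : ℕ∞) f) (hp : PeriodicN L f)
    (hpos : 0 < ∫ x in box (Fin N) L, Real.exp (f x)) (ζ : Fin N → E3) :
    groundEnergy m w N L * (∫ x in box (Fin N) L, Real.exp (f x)) ≤
      1 / (8 * m) * (∑ i, ∑ a, ∫ x in box (Fin N) L, (pd i a f x) ^ 2 * Real.exp (f x)) +
      ∑ p : Fin N × Fin N, if p.1 < p.2 then
        ∫ x in box (Fin N) L, w (x p.1 - x p.2 + (ζ p.1 - ζ p.2)) * Real.exp (f x) else 0 := by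
  have h1 := groundEnergy_le hm hw (isTrial_tf hf hp ζ hpos)
  rw [integral_norm_tf hf hp ζ, kinetic_tf hf hp m ζ] at h1
  refine h1.trans (le_of_eq ?_)
  congr 1
  unfold potential
  apply Finset.sum_congr rfl
  intro p _
  split_ifs with hlt
  · simp_rw [norm_tf_sq]
    have hper : PeriodicN L (fun x : Fin N → E3 => w (x p.1 - x p.2) * Real.exp (f (x - ζ))) := by
      intro x n
      have a1 := periodic_diff hwp p.1 p.2 x n
      have a2 := (hp.sub_const ζ) x n
      simp only at a1 a2 ⊢
      rw [a1, a2]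
    have hmeas : StronglyMeasurable
        (fun x : Fin N → E3 => w (x p.1 - x p.2) * Real.exp (f (x - ζ))) := by
      apply Measurable.stronglyMeasurable
      apply Measurable.mul
      · exact hwm.comp (by fun_prop)
      · exact (Real.continuous_exp.comp (hf.continuous.comp (by fun_prop))).measurable
    rw [← integral_box_shift hper hmeas ζ]
    apply integral_congr_ae; filter_upwards with x
    simp only [Pi.add_apply, add_sub_cancel_right]
    congr 2
    abel
  · rfl

end trial

end H47.SE
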