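import Pool.Agent.H47.SE.Defs

/-! Plancherel for `L¹ ∩ L²` functions and flip lemma. -/

open MeasureTheory SchwartzMap FourierTransform
open scoped ENNReal Real

noncomputable section

namespace H47.SE

/-- smooth compactly supported real test function as complex Schwartz function -/
def cSchwartz (g : E3 → ℝ) (hg : ContDiff ℝ (⊤ : ℕ∞) g) (hs : HasCompactSupport g) : 𝓢(E3, ℂ) :=
  HasCompactSupport.toSchwartzMap (f := fun x => (g x : ℂ))
    (hs.comp_left (g := fun r : ℝ => (r : ℂ)) (by simp))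
    (Complex.ofRealCLM.contDiff.comp hg)

@[simp] lemma cSchwartz_apply (g : E3 → ℝ) (hg hs) (x : E3) : cSchwartz g hg hs x = (g x : ℂ) := rfl

/-- flip lemma for the Fourier transform -/
lemma flip_fourier (f : E3 → ℂ) (hf : Integrable f) (χ : E3 → ℂ) (hχ : Integrable χ) :
    ∫ x, f x * 𝓕 χ x = ∫ x, 𝓕 f x * χ x := by
  have := VectorFourier.integral_fourierIntegral_smul_eq_flip (L := innerₗ E3)
    (μ := volume) (ν := volume) (f := f) (g := χ) Real.continuous_fourierChar
    continuous_inner hf hχ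
  simp only [smul_eq_mul, flip_innerₗ] at this
  exact this.symm

lemma continuous_fourier (f : E3 → ℂ) (hf : Integrable f) : Continuous (𝓕 f) :=
  VectorFourier.fourierIntegral_continuous Real.continuous_fourierChar
    (by exact continuous_inner) hf

lemma norm_fourier_le (f : E3 → ℂ) (ξ : E3) : ‖𝓕 f ξ‖ ≤ ∫ x, ‖f x‖ :=
  VectorFourier.norm_fourierIntegral_le_integral_norm _ _ _ _ _

/-- Plancherel: a.e. equality of the two Fourier transforms -/
lemma fourier_ae_eq (f : E3 → ℂ) (h1 : Integrable f) (h2 : MemLp f 2) :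
    𝓕 f =ᵐ[volume] (𝓕 (h2.toLp f) : Lp ℂ 2 (volume : Measure E3)) := by
  have hG : MemLp (𝓕 (h2.toLp f) : Lp ℂ 2 (volume : Measure E3)) 2 volume := Lp.memLp _
  have hloc : LocallyIntegrable (𝓕 (h2.toLp f) : Lp ℂ 2 (volume : Measure E3)) volume :=
    hG.locallyIntegrable (by norm_num)
  have hloc' : LocallyIntegrable (𝓕 f) volume := (continuous_fourier f h1).locallyIntegrable
  apply ae_eq_of_integral_contDiff_smul_eq hloc' hloc
  intro g hg hs
  let φ := cSchwartz g hg hs
  have e1 : ∫ x, g x • 𝓕 f x = ∫ x, 𝓕 f x * φ x := by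
    apply integral_congr_ae; filter_upwards with x
    simp [φ, mul_comm]
  have e2 : ∫ x, 𝓕 f x * φ x = ∫ x, f x * 𝓕 (φ : E3 → ℂ) x :=
    (flip_fourier f h1 φ φ.integrable).symm
  have e3 : ∫ x, f x * 𝓕 (φ : E3 → ℂ) x = Lp.toTemperedDistribution (h2.toLp f) (𝓕 φ) := by
    rw [Lp.toTemperedDistribution_apply]
    apply integral_congr_ae
    filter_upwards [h2.coeFn_toLp] with x hx
    rw [hx, SchwartzMap.fourier_coe, smul_eq_mul, mul_comm]
  have e4 : Lp.toTemperedDistribution (h2.toLp f) (𝓕 φ) =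
      Lp.toTemperedDistribution (𝓕 (h2.toLp f)) φ := by
    rw [← Lp.fourier_toTemperedDistribution_eq, TemperedDistribution.fourier_apply]
  rw [e1, e2, e3, e4, Lp.toTemperedDistribution_apply]
  apply integral_congr_ae; filter_upwards with x
  simp [φ]

/-- Plancherel for `L¹ ∩ L²` functions -/
lemma plancherel (f : E3 → ℂ) (h1 : Integrable f) (h2 : MemLp f 2) :
    MemLp (𝓕 f) 2 ∧ eLpNorm (𝓕 f) 2 volume = eLpNorm f 2 volume := by
  have hae := fourier_ae_eq f h1 h2
  refine ⟨(memLp_congr_ae hae).mpr (Lp.memLp _), ?_⟩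
  rw [eLpNorm_congr_ae hae]
  have := Lp.norm_fourier_eq (h2.toLp f)
  rw [Lp.norm_def, Lp.norm_def, eLpNorm_congr_ae h2.coeFn_toLp] at this
  rwa [ENNReal.toReal_eq_toReal_iff' (Lp.memLp _).2.ne h2.2.ne] at this

end H47.SE
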