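import Pool.Agent.H47.SE.PerPot

/-! Gibbs type trial states for trigonometric polynomial potentials. -/

open MeasureTheory ProbabilityTheory
open scoped ENNReal NNReal Real ComplexConjugate

noncomputable section

namespace H47.SE

variable {N : ℕ} {L : ℝ}

lemma exists_bound_periodic [hL : Fact (0 < L)] (g : (Fin N → E3) → ℝ) (hg : Continuous g)
    (hp : PeriodicN L g) : ∃ C, 0 ≤ C ∧ ∀ x, ‖g x‖ ≤ C := by
  obtain ⟨C, h0, hC⟩ := exists_bound_box (L := L) g hg
  refine ⟨C, h0, fun x => ?_⟩
  rw [← hp.eq_comp x]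
  exact hC _ (fun i => sec_mem_cell L _)

lemma integrable_unifN_periodic [hL : Fact (0 < L)] (g : (Fin N → E3) → ℝ) (hg : Continuous g)
    (hp : PeriodicN L g) : Integrable g (unifN (Fin N) L) := by
  obtain ⟨C, _, hC⟩ := exists_bound_periodic g hg hp
  exact (integrable_const C).mono' hg.aestronglyMeasurable (Filter.Eventually.of_forall hC)

lemma unifN_shift [hL : Fact (0 < L)] {F : (Fin N → E3) → ℝ}
    (hF : PeriodicN L F) (hm : StronglyMeasurable F) (ζ : Fin N → E3) :
    ∫ x, F (x + ζ) ∂(unifN (Fin N) L) = ∫ x, F x ∂(unifN (Fin N) L) := by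
  have h := integral_box_shift hF hm ζ
  rw [integral_unifN, integral_unifN] at h
  have hL3 : (L ^ 3) ^ Fintype.card (Fin N) ≠ 0 := by have := hL.out; positivity
  exact mul_left_cancel₀ hL3 h

/-- integration by parts on the torus -/
lemma integral_deriv_zero [hL : Fact (0 < L)] {G G' : (Fin N → E3) → ℝ} (hG : Continuous G)
    (hG' : Continuous G') (hp : PeriodicN L G) (hp' : PeriodicN L G') (d : Fin N → E3)
    (hd : ∀ x (t : ℝ), HasDerivAt (fun t : ℝ => G (x + t • d)) (G' (x + t • d)) t) :
    ∫ x, G' x ∂(unifN (Fin N) L) = 0 := by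
  obtain ⟨C, hC0, hC⟩ := exists_bound_periodic G' hG' hp'
  have key := hasDerivAt_integral_of_dominated_loc_of_deriv_le (μ := unifN (Fin N) L)
    (F := fun (t : ℝ) (x : Fin N → E3) => G (x + t • d))
    (F' := fun (t : ℝ) (x : Fin N → E3) => G' (x + t • d)) (x₀ := (0 : ℝ))
    (s := Set.univ) (bound := fun _ => C) Filter.univ_mem
    (Filter.Eventually.of_forall fun t => (hG.comp (by fun_prop)).aestronglyMeasurable)
    (by
      have := integrable_unifN_periodic G hG hp
      simpa using this)
    (hG'.comp (by fun_prop)).aestronglyMeasurable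
    (Filter.Eventually.of_forall fun x t _ => hC _)
    (integrable_const C)
    (Filter.Eventually.of_forall fun x t _ => hd x t)
  have h1 := key.2
  have h2 : (fun t : ℝ => ∫ x, G (x + t • d) ∂(unifN (Fin N) L)) =
      fun _ => ∫ x, G x ∂(unifN (Fin N) L) := by
    ext t
    exact unifN_shift hp hG.stronglyMeasurable (t • d)
  rw [h2] at h1
  have h3 := h1.unique (hasDerivAt_const (0 : ℝ) _)
  simpa using h3

lemma pd_eq_of_hasDerivAt {f : (Fin N → E3) → ℝ} (hf : ContDiff ℝ (⊤ : ℕ∞) f) (i : Fin N)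
    (a : Fin 3) (x : Fin N → E3) {y : ℝ}
    (h : HasDerivAt (fun t : ℝ => f (x + t • dirE i a)) y 0) : pd i a f x = y := by
  have hd : DifferentiableAt ℝ f (x + (0 : ℝ) • dirE i a) :=
    (hf.differentiable (by simp)).differentiableAt
  have h2 : HasDerivAt (fun t : ℝ => x + t • (dirE i a : Fin N → E3)) (dirE i a) 0 := by
    have := ((hasDerivAt_id (0 : ℝ)).smul_const (dirE i a : Fin N → E3)).const_add x
    simpa using this
  have h3 := hd.hasFDerivAt.comp_hasDerivAt (0 : ℝ) h2
  have h4 := h3.unique h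
  rw [zero_smul, add_zero] at h4
  exact h4

/-- sum over pairs of a symmetric function -/
lemma sum_pairs (F : Fin N → Fin N → ℝ) (hs : ∀ k l, F k l = F l k) :
    (∑ p : Fin N × Fin N, if p.1 < p.2 then F p.1 p.2 else 0) =
      1 / 2 * ((∑ k, ∑ l, F k l) - ∑ k, F k k) := by
  have h1 : (∑ p : Fin N × Fin N, if p.1 < p.2 then F p.1 p.2 else 0) =
      ∑ p : Fin N × Fin N, if p.2 < p.1 then F p.1 p.2 else 0 := by
    rw [← (Equiv.prodComm (Fin N) (Fin N)).sum_comp]
    apply Finset.sum_congr rfl
    rintro ⟨k, l⟩ _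
    simp only [Equiv.prodComm_apply, Prod.swap]
    split_ifs
    · exact hs _ _
    · rfl
  have h2 : ∑ k, F k k = ∑ p : Fin N × Fin N, if p.1 = p.2 then F p.1 p.2 else 0 := by
    rw [Fintype.sum_prod_type]
    apply Finset.sum_congr rfl
    intro k _
    rw [Finset.sum_ite_eq]
    simp
  have h3 : ∑ k, ∑ l, F k l = ∑ p : Fin N × Fin N, F p.1 p.2 := by
    rw [Fintype.sum_prod_type]
  have h4 : ∑ p : Fin N × Fin N, F p.1 p.2 =
      (∑ p : Fin N × Fin N, if p.1 < p.2 then F p.1 p.2 else 0) +
      (∑ p : Fin N × Fin N, if p.2 < p.1 then F p.1 p.2 else 0) +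
      ∑ p : Fin N × Fin N, if p.1 = p.2 then F p.1 p.2 else 0 := by
    rw [← Finset.sum_add_distrib, ← Finset.sum_add_distrib]
    apply Finset.sum_congr rfl
    rintro ⟨k, l⟩ _
    simp only
    rcases lt_trichotomy k l with h | h | h
    · rw [if_pos h, if_neg h.not_gt, if_neg h.ne]; ring
    · subst h; simp
    · rw [if_neg h.not_gt, if_pos h, if_neg h.ne']; ring
  rw [h3, h4, ← h1, ← h2]
  ring

section gibbs

variable {τ : Type*} (L) (T : Finset τ) (d : τ → Fin 3 → ℤ) (c : τ → ℝ)

/-- the trigonometric polynomial -/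
def Wt (s : E3) : ℝ := ∑ r ∈ T, c r * Real.cos (ph L (d r) s)

/-- `∑ cos` -/
def Cr (p : Fin 3 → ℤ) (x : Fin N → E3) : ℝ := ∑ k, Real.cos (ph L p (x k))
/-- `∑ sin` -/
def Sr (p : Fin 3 → ℤ) (x : Fin N → E3) : ℝ := ∑ k, Real.sin (ph L p (x k))

/-- the total interaction -/
def Vt (x : Fin N → E3) : ℝ :=
  1 / 2 * ((∑ r ∈ T, c r * (Cr L (d r) x ^ 2 + Sr L (d r) x ^ 2)) - N * ∑ r ∈ T, c r)

/-- `2 π p_a / L` -/
def alp (p : Fin 3 → ℤ) (a : Fin 3) : ℝ := 2 * π * (p a : ℝ) / L

/-- the first derivative of the total interaction -/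
def DV (i : Fin N) (a : Fin 3) (x : Fin N → E3) : ℝ :=
  ∑ r ∈ T, c r * (alp L (d r) a * (Sr L (d r) x * Real.cos (ph L (d r) (x i)) -
    Cr L (d r) x * Real.sin (ph L (d r) (x i))))

/-- the second derivative of the total interaction -/
def D2V (i : Fin N) (a : Fin 3) (x : Fin N → E3) : ℝ :=
  ∑ r ∈ T, c r * (alp L (d r) a ^ 2 * (1 - Sr L (d r) x * Real.sin (ph L (d r) (x i)) -
    Cr L (d r) x * Real.cos (ph L (d r) (x i))))

/-- bound of the second derivatives -/
def Dt : ℝ := ∑ a : Fin 3, ∑ r ∈ T, c r * alp L (d r) a ^ 2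

variable {L} {T} {d} {c}

lemma cos_sub_sum (p : Fin 3 → ℤ) (x : Fin N → E3) :
    ∑ k, ∑ l, Real.cos (ph L p (x k - x l)) = Cr L p x ^ 2 + Sr L p x ^ 2 := by
  unfold Cr Sr
  rw [sq, sq, Finset.sum_mul_sum, Finset.sum_mul_sum, ← Finset.sum_add_distrib]
  apply Finset.sum_congr rfl; intro k _
  rw [← Finset.sum_add_distrib]
  apply Finset.sum_congr rfl; intro l _
  rw [ph_sub, Real.cos_sub]

lemma sum_Wt (x : Fin N → E3) :
    (∑ p : Fin N × Fin N, if p.1 < p.2 then Wt L T d c (x p.1 - x p.2) else 0) =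
      Vt L T d c x := by
  rw [sum_pairs (fun k l => Wt L T d c (x k - x l))]
  · unfold Vt
    congr 1
    have h1 : ∑ k, ∑ l, Wt L T d c (x k - x l) =
        ∑ r ∈ T, c r * (Cr L (d r) x ^ 2 + Sr L (d r) x ^ 2) := by
      unfold Wt
      simp_rw [← cos_sub_sum, Finset.mul_sum]
      rw [Finset.sum_comm' (t' := Finset.univ) (s' := fun _ => Finset.univ) (by simp)]
      rw [Finset.sum_congr rfl (fun l _ => Finset.sum_comm), Finset.sum_comm]
      apply Finset.sum_congr rfl; intro r _
      rw [Finset.sum_comm]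
    have h2 : ∑ k, Wt L T d c (x k - x k) = N * ∑ r ∈ T, c r := by
      have : ∀ k, Wt L T d c (x k - x k) = ∑ r ∈ T, c r := by
        intro k
        unfold Wt
        apply Finset.sum_congr rfl; intro r _
        rw [sub_self]
        simp [ph]
      rw [Finset.sum_congr rfl (fun k _ => this k)]
      simp
    rw [h1, h2]
  · intro k l
    unfold Wt
    apply Finset.sum_congr rfl; intro r _
    rw [← neg_sub, ph_neg, Real.cos_neg]

lemma hasDerivAt_ph (p : Fin 3 → ℤ) (i k : Fin N) (a : Fin 3) (x : Fin N → E3) (t : ℝ) :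
    HasDerivAt (fun t : ℝ => ph L p ((x + t • dirE i a) k)) (if k = i then alp L p a else 0) t := by
  have h : (fun t : ℝ => ph L p ((x + t • dirE i a) k)) =
      fun t => ph L p (x k) + t * (if k = i then alp L p a else 0) := by
    ext t
    rw [Pi.add_apply, ph_add]
    congr 1
    rw [Pi.smul_apply]
    unfold dirE
    by_cases hk : k = i
    · subst hk
      rw [Pi.single_eq_same, if_pos rfl]
      unfold ph alp
      simp only [PiLp.smul_apply, smul_eq_mul]
      rw [Finset.sum_eq_single a]
      · simp; ring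
      · intro b _ hb; simp [hb]
      · simp
    · rw [Pi.single_eq_of_ne hk, if_neg hk]
      simp [ph]
  rw [h]
  simpa using ((hasDerivAt_id t).mul_const (if k = i then alp L p a else 0)).const_add (ph L p (x k))

lemma hasDerivAt_Cr (p : Fin 3 → ℤ) (i : Fin N) (a : Fin 3) (x : Fin N → E3) (t : ℝ) :
    HasDerivAt (fun t : ℝ => Cr L p (x + t • dirE i a))
      (- Real.sin (ph L p ((x + t • dirE i a) i)) * alp L p a) t := by
  unfold Cr
  have h := HasDerivAt.fun_sum (u := Finset.univ)
    (A := fun (k : Fin N) (t : ℝ) => Real.cos (ph L p ((x + t • dirE i a) k)))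
    (A' := fun k => - Real.sin (ph L p ((x + t • dirE i a) k)) * (if k = i then alp L p a else 0))
    (x := t) (fun k _ => (hasDerivAt_ph p i k a x t).cos)
  have e : ∑ k, (- Real.sin (ph L p ((x + t • dirE i a) k)) * (if k = i then alp L p a else 0)) =
      - Real.sin (ph L p ((x + t • dirE i a) i)) * alp L p a := by
    rw [Finset.sum_eq_single i]
    · simp
    · intro b _ hb; simp [hb]
    · simp
  rw [e] at h
  exact h

lemma hasDerivAt_Sr (p : Fin 3 → ℤ) (i : Fin N) (a : Fin 3) (x : Fin N → E3) (t : ℝ) :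
    HasDerivAt (fun t : ℝ => Sr L p (x + t • dirE i a))
      (Real.cos (ph L p ((x + t • dirE i a) i)) * alp L p a) t := by
  unfold Sr
  have h := HasDerivAt.fun_sum (u := Finset.univ)
    (A := fun (k : Fin N) (t : ℝ) => Real.sin (ph L p ((x + t • dirE i a) k)))
    (A' := fun k => Real.cos (ph L p ((x + t • dirE i a) k)) * (if k = i then alp L p a else 0))
    (x := t) (fun k _ => (hasDerivAt_ph p i k a x t).sin)
  have e : ∑ k, (Real.cos (ph L p ((x + t • dirE i a) k)) * (if k = i then alp L p a else 0)) =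
      Real.cos (ph L p ((x + t • dirE i a) i)) * alp L p a := by
    rw [Finset.sum_eq_single i]
    · simp
    · intro b _ hb; simp [hb]
    · simp
  rw [e] at h
  exact h

lemma hasDerivAt_Vt (i : Fin N) (a : Fin 3) (x : Fin N → E3) (t : ℝ) :
    HasDerivAt (fun t : ℝ => Vt L T d c (x + t • dirE i a))
      (DV L T d c i a (x + t • dirE i a)) t := by
  unfold Vt
  have h := HasDerivAt.fun_sum (u := T)
    (A := fun (r : τ) (t : ℝ) => c r * (Cr L (d r) (x + t • dirE i a) ^ 2 +
      Sr L (d r) (x + t • dirE i a) ^ 2))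
    (x := t) (fun r _ => (((hasDerivAt_Cr (d r) i a x t).pow 2).add
      ((hasDerivAt_Sr (d r) i a x t).pow 2)).const_mul (c r))
  have h2 := (h.sub_const ((N : ℝ) * ∑ r ∈ T, c r)).const_mul (1 / 2 : ℝ)
  refine h2.congr_deriv ?_
  unfold DV
  rw [Finset.mul_sum]
  apply Finset.sum_congr rfl; intro r _
  push_cast
  ring

lemma hasDerivAt_DV (i : Fin N) (a : Fin 3) (x : Fin N → E3) (t : ℝ) :
    HasDerivAt (fun t : ℝ => DV L T d c i a (x + t • dirE i a))
      (D2V L T d c i a (x + t • dirE i a)) t := by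
  unfold DV
  have hph : ∀ r, HasDerivAt (fun t : ℝ => ph L (d r) ((x + t • dirE i a) i))
      (alp L (d r) a) t := by
    intro r
    have := hasDerivAt_ph (L := L) (d r) i i a x t
    rwa [if_pos rfl] at this
  have h := HasDerivAt.fun_sum (u := T)
    (A := fun (r : τ) (t : ℝ) => c r * (alp L (d r) a * (Sr L (d r) (x + t • dirE i a) *
      Real.cos (ph L (d r) ((x + t • dirE i a) i)) -
    Cr L (d r) (x + t • dirE i a) * Real.sin (ph L (d r) ((x + t • dirE i a) i)))))
    (x := t) (fun r _ => ((((hasDerivAt_Sr (d r) i a x t).mul (hph r).cos).sub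
      ((hasDerivAt_Cr (d r) i a x t).mul (hph r).sin)).const_mul (alp L (d r) a)).const_mul (c r))
  refine h.congr_deriv ?_
  unfold D2V
  apply Finset.sum_congr rfl; intro r _
  have := Real.sin_sq_add_cos_sq (ph L (d r) ((x + t • dirE i a) i))
  linear_combination (c r * alp L (d r) a ^ 2) * this

lemma sum_D2V_le (hc : ∀ r ∈ T, 0 ≤ c r) (x : Fin N → E3) :
    ∑ i, ∑ a, D2V L T d c i a x ≤ N * Dt L T d c := by
  have h1 : ∑ i, ∑ a, D2V L T d c i a x =
      ∑ a, ∑ r ∈ T, c r * (alp L (d r) a ^ 2 * (N - Sr L (d r) x ^ 2 - Cr L (d r) x ^ 2)) := by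
    rw [Finset.sum_comm]
    apply Finset.sum_congr rfl; intro a _
    unfold D2V
    rw [Finset.sum_comm]
    apply Finset.sum_congr rfl; intro r _
    rw [← Finset.mul_sum, ← Finset.mul_sum, Finset.sum_sub_distrib, Finset.sum_sub_distrib,
      ← Finset.mul_sum, ← Finset.mul_sum]
    congr 2
    rw [sq (Sr L (d r) x), sq (Cr L (d r) x)]
    simp [Sr, Cr]
  rw [h1, Dt, Finset.mul_sum]
  apply Finset.sum_le_sum; intro a _
  rw [Finset.mul_sum]
  apply Finset.sum_le_sum; intro r hr
  have := hc r hr
  have h2 : 0 ≤ c r * alp L (d r) a ^ 2 := by positivity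
  have h3 : (N : ℝ) - Sr L (d r) x ^ 2 - Cr L (d r) x ^ 2 ≤ N := by
    nlinarith [sq_nonneg (Sr L (d r) x), sq_nonneg (Cr L (d r) x)]
  calc c r * (alp L (d r) a ^ 2 * (N - Sr L (d r) x ^ 2 - Cr L (d r) x ^ 2))
      = c r * alp L (d r) a ^ 2 * (N - Sr L (d r) x ^ 2 - Cr L (d r) x ^ 2) := by ring
    _ ≤ c r * alp L (d r) a ^ 2 * N := mul_le_mul_of_nonneg_left h3 h2
    _ = N * (c r * alp L (d r) a ^ 2) := by ring

lemma contDiff_ph (p : Fin 3 → ℤ) (k : Fin N) :
    ContDiff ℝ (⊤ : ℕ∞) (fun x : Fin N → E3 => ph L p (x k)) := by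
  unfold ph
  apply ContDiff.div_const
  apply ContDiff.mul contDiff_const
  apply ContDiff.sum
  intro a _
  apply ContDiff.mul contDiff_const
  exact (EuclideanSpace.proj (𝕜 := ℝ) a).contDiff.comp (contDiff_apply ℝ E3 k)

lemma contDiff_Cr (p : Fin 3 → ℤ) : ContDiff ℝ (⊤ : ℕ∞) (Cr (N := N) L p) := by
  unfold Cr
  exact ContDiff.sum fun k _ => Real.contDiff_cos.comp (contDiff_ph p k)

lemma contDiff_Sr (p : Fin 3 → ℤ) : ContDiff ℝ (⊤ : ℕ∞) (Sr (N := N) L p) := by
  unfold Sr
  exact ContDiff.sum fun k _ => Real.contDiff_sin.comp (contDiff_ph p k)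

lemma contDiff_Vt : ContDiff ℝ (⊤ : ℕ∞) (Vt (N := N) L T d c) := by
  unfold Vt
  apply ContDiff.mul contDiff_const
  apply ContDiff.sub _ contDiff_const
  exact ContDiff.sum fun r _ => contDiff_const.mul
    (((contDiff_Cr _).pow 2).add ((contDiff_Sr _).pow 2))

lemma continuous_DV (i : Fin N) (a : Fin 3) : Continuous (DV L T d c i a) := by
  unfold DV
  apply continuous_finsetSum; intro r _
  have h1 := (contDiff_Cr (N := N) (L := L) (d r)).continuous
  have h2 := (contDiff_Sr (N := N) (L := L) (d r)).continuous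
  have h3 := (contDiff_ph (L := L) (d r) i).continuous
  fun_prop

lemma continuous_D2V (i : Fin N) (a : Fin 3) : Continuous (D2V L T d c i a) := by
  unfold D2V
  apply continuous_finsetSum; intro r _
  have h1 := (contDiff_Cr (N := N) (L := L) (d r)).continuous
  have h2 := (contDiff_Sr (N := N) (L := L) (d r)).continuous
  have h3 := (contDiff_ph (L := L) (d r) i).continuous
  fun_prop

lemma cos_periodic [hL : Fact (0 < L)] (p : Fin 3 → ℤ) (x : E3) (n : Fin 3 → ℤ) :
    Real.cos (ph L p (x + latt L n)) = Real.cos (ph L p x) := by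
  have h := congrArg Complex.re (ch_periodic (L := L) p x n)
  simpa [ch, Complex.exp_ofReal_mul_I_re] using h

lemma sin_periodic [hL : Fact (0 < L)] (p : Fin 3 → ℤ) (x : E3) (n : Fin 3 → ℤ) :
    Real.sin (ph L p (x + latt L n)) = Real.sin (ph L p x) := by
  have h := congrArg Complex.im (ch_periodic (L := L) p x n)
  simpa [ch, Complex.exp_ofReal_mul_I_im] using h

lemma Cr_periodic [hL : Fact (0 < L)] (p : Fin 3 → ℤ) : PeriodicN L (Cr (N := N) L p) := by
  intro x n
  unfold Cr
  simp_rw [cos_periodic]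

lemma Sr_periodic [hL : Fact (0 < L)] (p : Fin 3 → ℤ) : PeriodicN L (Sr (N := N) L p) := by
  intro x n
  unfold Sr
  simp_rw [sin_periodic]

lemma Vt_periodic [hL : Fact (0 < L)] : PeriodicN L (Vt (N := N) L T d c) := by
  intro x n
  unfold Vt
  simp_rw [Cr_periodic _ x n, Sr_periodic _ x n]

lemma DV_periodic [hL : Fact (0 < L)] (i : Fin N) (a : Fin 3) :
    PeriodicN L (DV L T d c i a) := by
  intro x n
  unfold DV
  simp_rw [Cr_periodic _ x n, Sr_periodic _ x n, cos_periodic, sin_periodic]

lemma D2V_periodic [hL : Fact (0 < L)] (i : Fin N) (a : Fin 3) :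
    PeriodicN L (D2V L T d c i a) := by
  intro x n
  unfold D2V
  simp_rw [Cr_periodic _ x n, Sr_periodic _ x n, cos_periodic, sin_periodic]

/-- the Gibbs type upper bound of the ground state energy -/
theorem gibbs_bound [hL : Fact (0 < L)] {m : ℝ} (hm : 0 < m) {w : E3 → ℝ}
    (hw : ∀ x, 0 ≤ w x) (hwm : Measurable w) (hwp : ∀ x n, w (x + latt L n) = w x)
    (hwi : Integrable w (unif L)) (μ : Measure E3) [IsProbabilityMeasure μ]
    (hsm : ∀ s, smear w μ s = Wt L T d c s) (hc : ∀ r ∈ T, 0 ≤ c r) {lam : ℝ} (hlam : 0 < lam) :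
    groundEnergy m w N L ≤ lam / (8 * m) * (N * Dt L T d c) -
      1 / lam * Real.log (∫ x, Real.exp (-lam * Vt L T d c x) ∂(unifN (Fin N) L)) := by
  set P := unifN (Fin N) L with hP
  set V : (Fin N → E3) → ℝ := Vt L T d c with hV
  have hVc : Continuous V := contDiff_Vt.continuous
  set f : (Fin N → E3) → ℝ := fun x => -lam * V x with hf
  have hfs : ContDiff ℝ (⊤ : ℕ∞) f := contDiff_const.mul contDiff_Vt
  have hfp : PeriodicN L f := by
    intro x n; simp only [hf, hV]; rw [Vt_periodic x n]
  have hec : Continuous (fun x => Real.exp (f x)) := Real.continuous_exp.comp hfs.continuous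
  have hep : PeriodicN L (fun x => Real.exp (f x)) := by
    intro x n; simp only; rw [hfp x n]
  have hei : Integrable (fun x => Real.exp (f x)) P := integrable_unifN_periodic _ hec hep
  set Z := ∫ x, Real.exp (f x) ∂P with hZ
  have hZpos : 0 < Z := integral_exp_pos hei
  have hpd : ∀ i a x, pd i a f x = -lam * DV L T d c i a x := by
    intro i a x
    apply pd_eq_of_hasDerivAt hfs
    have := (hasDerivAt_Vt (L := L) (T := T) (d := d) (c := c) i a x 0).const_mul (-lam)
    rw [zero_smul, add_zero] at this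
    exact this
  have hDVc : ∀ i a, Continuous (DV (N := N) L T d c i a) := fun i a => continuous_DV i a
  have hD2c : ∀ i a, Continuous (D2V (N := N) L T d c i a) := fun i a => continuous_D2V i a
  -- integration by parts
  have hibp : ∀ i a, lam * ∫ x, (DV L T d c i a x) ^ 2 * Real.exp (f x) ∂P =
      ∫ x, D2V L T d c i a x * Real.exp (f x) ∂P := by
    intro i a
    have h := integral_deriv_zero (L := L) (G := fun x => DV L T d c i a x * Real.exp (f x))
      (G' := fun x => D2V L T d c i a x * Real.exp (f x) -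
        lam * ((DV L T d c i a x) ^ 2 * Real.exp (f x)))
      ((hDVc i a).mul hec) (((hD2c i a).mul hec).sub
        (continuous_const.mul (((hDVc i a).pow 2).mul hec)))
      (by intro x n; simp only; rw [DV_periodic i a x n, hfp x n])
      (by intro x n; simp only; rw [DV_periodic i a x n, D2V_periodic i a x n, hfp x n])
      (dirE i a)
      (by
        intro x t
        have h1 := hasDerivAt_DV (L := L) (T := T) (d := d) (c := c) i a x t
        have h2 := ((hasDerivAt_Vt (L := L) (T := T) (d := d) (c := c) i a x t).const_mul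
          (-lam)).exp
        refine (h1.mul h2).congr_deriv ?_
        simp only [hf, hV]
        ring)
    rw [integral_sub, integral_const_mul] at h
    · linarith
    · exact integrable_unifN_periodic _ ((hD2c i a).mul hec)
        (by intro x n; simp only; rw [D2V_periodic i a x n, hfp x n])
    · have h9 : Integrable (fun x => (DV L T d c i a x) ^ 2 * Real.exp (f x)) P :=
        integrable_unifN_periodic _ (((hDVc i a).pow 2).mul hec)
          (by intro x n; simp only; rw [DV_periodic i a x n, hfp x n])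
      exact h9.const_mul lam
  have hD2i : ∀ i a, Integrable (fun x => D2V L T d c i a x * Real.exp (f x)) P := by
    intro i a
    exact integrable_unifN_periodic _ ((hD2c i a).mul hec)
        (by intro x n; simp only; rw [D2V_periodic i a x n, hfp x n])
  have hkin : ∑ i, ∑ a, ∫ x, (pd i a f x) ^ 2 * Real.exp (f x) ∂P ≤
      lam * (N * Dt L T d c * Z) := by
    have h1 : ∀ i a, ∫ x, (pd i a f x) ^ 2 * Real.exp (f x) ∂P =
        lam * ∫ x, D2V L T d c i a x * Real.exp (f x) ∂P := by
      intro i a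
      rw [← hibp, ← mul_assoc, ← integral_const_mul]
      congr 1; ext x
      rw [hpd]; ring
    simp_rw [h1, ← Finset.mul_sum]
    apply mul_le_mul_of_nonneg_left _ hlam.le
    have h2 : ∑ i : Fin N, ∑ a : Fin 3, ∫ x, D2V L T d c i a x * Real.exp (f x) ∂P =
        ∫ x, (∑ i : Fin N, ∑ a : Fin 3, D2V L T d c i a x) * Real.exp (f x) ∂P := by
      simp_rw [Finset.sum_mul]
      rw [integral_finsetSum _ (fun i _ => integrable_finsetSum _ (fun a _ => hD2i i a))]
      apply Finset.sum_congr rfl; intro i _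
      rw [integral_finsetSum _ (fun a _ => hD2i i a)]
    rw [h2, hZ, ← integral_const_mul]
    apply integral_mono
    · simp_rw [Finset.sum_mul]
      exact integrable_finsetSum _ (fun i _ => integrable_finsetSum _ (fun a _ => hD2i i a))
    · exact hei.const_mul _
    · intro x
      simp only
      exact mul_le_mul_of_nonneg_right (sum_D2V_le hc x) (Real.exp_pos _).le
  -- the interaction
  have hVei : Integrable (fun x => V x * Real.exp (f x)) P :=
    integrable_unifN_periodic _ (hVc.mul hec)
      (by intro x n; simp only [hV]; rw [Vt_periodic x n, hfp x n])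
  have hint : (∑ p : Fin N × Fin N, if p.1 < p.2 then
        ∫ x, smear w μ (x p.1 - x p.2) * Real.exp (f x) ∂P else 0) =
      ∫ x, V x * Real.exp (f x) ∂P := by
    have hWc : ∀ p : Fin N × Fin N, Continuous (fun x : Fin N → E3 =>
        Wt L T d c (x p.1 - x p.2)) := by
      intro p
      unfold Wt
      apply continuous_finsetSum; intro r _
      have h3 := continuous_ph (L := L) (d r)
      fun_prop
    have hWp : ∀ p : Fin N × Fin N, PeriodicN L (fun x : Fin N → E3 =>
        Wt L T d c (x p.1 - x p.2)) := by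
      intro p
      apply periodic_diff (w := Wt L T d c)
      intro x n
      unfold Wt
      simp_rw [cos_periodic]
    have h1 : ∀ p : Fin N × Fin N, Integrable (fun x : Fin N → E3 =>
        (if p.1 < p.2 then Wt L T d c (x p.1 - x p.2) else 0) * Real.exp (f x)) P := by
      intro p
      split_ifs
      · exact integrable_unifN_periodic _ ((hWc p).mul hec)
          (by intro x n; have := hWp p x n; simp only at this ⊢; rw [this, hfp x n])
      · simp
    have h2 : ∀ x, V x * Real.exp (f x) = ∑ p : Fin N × Fin N,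
        (if p.1 < p.2 then Wt L T d c (x p.1 - x p.2) else 0) * Real.exp (f x) := by
      intro x
      rw [hV, ← sum_Wt, Finset.sum_mul]
    simp_rw [h2]
    rw [integral_finsetSum _ (fun p _ => h1 p)]
    apply Finset.sum_congr rfl; intro p _
    split_ifs
    · simp_rw [hsm]
    · simp
  -- entropy
  have hent : lam * ∫ x, V x * Real.exp (f x) ∂P + Real.log Z * Z ≤ 0 := by
    have h1 : ∀ x, lam * (V x * Real.exp (f x)) + Real.log Z * Real.exp (f x) ≤
        Z - Real.exp (f x) := by
      intro x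
      have hexp : Real.exp (f x) * Real.exp (lam * V x) = 1 := by
        rw [← Real.exp_add]; simp [hf]
      have h2 : lam * V x + Real.log Z ≤ Real.exp (lam * V x) * Z - 1 := by
        have h3 : Real.log (Real.exp (lam * V x) * Z) = lam * V x + Real.log Z := by
          rw [Real.log_mul (Real.exp_pos _).ne' hZpos.ne', Real.log_exp]
        rw [← h3]
        exact Real.log_le_sub_one_of_pos (by positivity)
      have h4 := mul_le_mul_of_nonneg_right h2 (Real.exp_pos (f x)).le
      calc lam * (V x * Real.exp (f x)) + Real.log Z * Real.exp (f x)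
          = (lam * V x + Real.log Z) * Real.exp (f x) := by ring
        _ ≤ (Real.exp (lam * V x) * Z - 1) * Real.exp (f x) := h4
        _ = (Real.exp (f x) * Real.exp (lam * V x)) * Z - Real.exp (f x) := by ring
        _ = Z - Real.exp (f x) := by rw [hexp, one_mul]
    have h5 : ∫ x, (lam * (V x * Real.exp (f x)) + Real.log Z * Real.exp (f x)) ∂P ≤
        ∫ x, (Z - Real.exp (f x)) ∂P :=
      integral_mono (μ := P) ((hVei.const_mul lam).add (hei.const_mul (Real.log Z)))
        ((integrable_const Z).sub hei) h1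
    rw [integral_sub (integrable_const Z) hei] at h5
    have h6 : ∫ x, (lam * (V x * Real.exp (f x)) + Real.log Z * Real.exp (f x)) ∂P =
        lam * ∫ x, V x * Real.exp (f x) ∂P + Real.log Z * Z := by
      have := integral_add (hVei.const_mul lam) (hei.const_mul (Real.log Z))
      rw [integral_const_mul, integral_const_mul] at this
      exact this
    rw [h6] at h5
    simp only [integral_const, probReal_univ, one_smul] at h5
    rw [← hZ] at h5
    linarith
  have hav := groundEnergy_average (N := N) hm hw hwm hwp hwi μ hfs hfp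
  rw [← hP, ← hZ, hint] at hav
  have h8m : 0 < 1 / (8 * m) := by positivity
  have hfin : groundEnergy m w N L * Z ≤ (lam / (8 * m) * (N * Dt L T d c) -
      1 / lam * Real.log Z) * Z := by
    have h1 : 1 / (8 * m) * (∑ i, ∑ a, ∫ x, (pd i a f x) ^ 2 * Real.exp (f x) ∂P) ≤
        1 / (8 * m) * (lam * (N * Dt L T d c * Z)) := mul_le_mul_of_nonneg_left hkin h8m.le
    have h2 : ∫ x, V x * Real.exp (f x) ∂P ≤ - (1 / lam * Real.log Z * Z) := by
      have : lam * ∫ x, V x * Real.exp (f x) ∂P ≤ lam * (- (1 / lam * Real.log Z * Z)) := by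
        have e : lam * (- (1 / lam * Real.log Z * Z)) = - (Real.log Z * Z) := by
          field_simp
        rw [e]; linarith
      exact le_of_mul_le_mul_left this hlam
    calc groundEnergy m w N L * Z ≤ _ := hav
      _ ≤ 1 / (8 * m) * (lam * (N * Dt L T d c * Z)) + - (1 / lam * Real.log Z * Z) :=
        add_le_add h1 h2
      _ = _ := by ring
  exact le_of_mul_le_mul_right hfin hZpos

end gibbs

end H47.SE
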