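import Pool.Agent.H47.SE.Defs

/-! `L¹ ∩ L^p ⊂ L²` for `p ≥ 2`. -/

open MeasureTheory
open scoped ENNReal NNReal Real

noncomputable section

namespace H47.SE

lemma memLp_two_of_memLp {v : E3 → ℝ} (hv : Integrable v) {p : ℝ≥0∞} (hp : 2 ≤ p)
    (hvp : MemLp v p) : MemLp v 2 := by
  rw [memLp_two_iff_integrable_sq hv.1]
  by_cases htop : p = ∞
  · subst htop
    have h1 := hvp.2
    rw [eLpNorm_exponent_top] at h1
    set C := (eLpNormEssSup v volume).toReal with hC
    have h2 : ∀ᵐ x, ‖v x‖ ≤ C := by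
      have := enorm_ae_le_eLpNormEssSup v volume
      filter_upwards [this] with x hx
      rw [hC, ← toReal_enorm]
      exact ENNReal.toReal_mono h1.ne hx
    refine Integrable.mono' (hv.norm.const_mul C) (hv.1.pow 2) ?_
    filter_upwards [h2] with x hx
    rw [norm_pow, sq]
    exact mul_le_mul_of_nonneg_right hx (norm_nonneg _)
  · have h1 := hvp.integrable_norm_rpow (by
      intro h; rw [h] at hp; simp at hp) htop
    have h2 : 2 ≤ p.toReal := by
      have := ENNReal.toReal_mono htop hp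
      simpa using this
    refine Integrable.mono' (hv.norm.add h1) (hv.1.pow 2) ?_
    filter_upwards with x
    rw [norm_pow]
    simp only [Pi.add_apply]
    rcases le_total ‖v x‖ 1 with h | h
    · have h3 : ‖v x‖ ^ 2 ≤ ‖v x‖ := by nlinarith [norm_nonneg (v x)]
      have h4 : 0 ≤ ‖v x‖ ^ p.toReal := Real.rpow_nonneg (norm_nonneg _) _
      linarith
    · have h3 : ‖v x‖ ^ (2 : ℝ) ≤ ‖v x‖ ^ p.toReal :=
        Real.rpow_le_rpow_of_exponent_le h h2
      rw [Real.rpow_two] at h3
      linarith [norm_nonneg (v x)]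

lemma integral_pos_of_ne {v : E3 → ℝ} (hv0 : ∀ x, 0 ≤ v x) (hv : Integrable v)
    (hvne : ¬ v =ᵐ[volume] 0) : 0 < ∫ x, v x := by
  have h0 : 0 ≤ ∫ x, v x := integral_nonneg fun x => hv0 x
  rcases h0.lt_or_eq with h | h
  · exact h
  · exfalso
    exact hvne ((integral_eq_zero_iff_of_nonneg hv0 hv).mp h.symm)

end H47.SE
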