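import Pool.Agent.H47.SE.PosType

/-! The thermodynamic limit of the finite volume bound. -/

open MeasureTheory ProbabilityTheory FourierTransform Filter
open scoped ENNReal NNReal Real ComplexConjugate Topology

noncomputable section

namespace H47.SE

lemma side_pow {ρ : ℝ} (hρ : 0 < ρ) (N : ℕ) : side ρ N ^ 3 = N / ρ := by
  unfold side
  rw [← Real.rpow_natCast, ← Real.rpow_mul (by positivity)]
  norm_num

lemma side_pos {ρ : ℝ} (hρ : 0 < ρ) {N : ℕ} (hN : 0 < N) : 0 < side ρ N := by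
  unfold side
  have : (0 : ℝ) < N := by exact_mod_cast hN
  positivity

lemma side_mul {ρ : ℝ} (hρ : 0 < ρ) (n q : ℕ) : side ρ (n * q ^ 3) = q * side ρ n := by
  have h0 : 0 ≤ side ρ (n * q ^ 3) := by unfold side; positivity
  have h1 : 0 ≤ (q : ℝ) * side ρ n := by unfold side; positivity
  apply (pow_left_inj₀ h0 h1 (n := 3) (by norm_num)).mp
  rw [side_pow hρ, mul_pow, side_pow hρ]
  push_cast
  ring

variable {v : E3 → ℝ}

/-- thermodynamic bound for potentials of positive type -/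
theorem limit_postype {m : ℝ} (hm : 0 < m) (hv0 : ∀ x, 0 ≤ v x) (hvm : Measurable v)
    (hv : Integrable v) (him : ∀ ξ, (vhat v ξ).im = 0) (hre : ∀ ξ, 0 ≤ (vhat v ξ).re)
    {ρ : ℝ} (hρ : 0 < ρ) {n : ℕ} (hn : 1 ≤ n) {k K : ℝ} (hk : 0 < k) (hkK : k ≤ K)
    (hθ : 0 ≤ 1 - (6 * π * k * side ρ n) ^ 2 / 2) {lam : ℝ} (hlam : 0 < lam) {e0 : ℝ}
    {E : ℕ → ℝ} (hEle : ∀ N, 0 < N → E N ≤ groundEnergy m (perPot v (side ρ N)) N (side ρ N))
    (he0 : Tendsto (fun N : ℕ => E N / N) atTop (𝓝 e0)) :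
    e0 ≤ lam / (8 * m) * (3 * (2 * π * K) ^ 2 * ((∫ x, v x) * K ^ 3)) +
      1 / 2 * (ρ * (∫ x, v x) - ((K - k) / K) ^ 6 *
        (1 - (6 * π * k * side ρ n) ^ 2 / 2) ^ 2 * ∫ x in ocube k, (vhat v x).re) +
      (1 + Real.log n) / (lam * n) := by
  set r := side ρ n with hr
  have hr0 : 0 < r := side_pos hρ (by omega)
  have hr3 : r ^ 3 = n / ρ := side_pow hρ n
  have hn0 : (0 : ℝ) < n := by exact_mod_cast (by omega : 0 < n)
  have hK : 0 < K := lt_of_lt_of_le hk hkK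
  set I := ∫ x, v x with hI
  -- the sequence of sides
  have hLt : Tendsto (fun q : ℕ => (q : ℝ) * r) atTop atTop :=
    Tendsto.atTop_mul_const hr0 tendsto_natCast_atTop_atTop
  have hNt : Tendsto (fun q : ℕ => n * q ^ 3) atTop atTop := by
    apply tendsto_atTop_mono (f := fun q : ℕ => q)
    · intro q
      calc q ≤ q ^ 3 := Nat.le_self_pow (by norm_num) q
        _ ≤ n * q ^ 3 := Nat.le_mul_of_pos_left _ (by omega)
    · exact tendsto_id
  have hE := he0.comp hNt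
  -- limits of the ingredients
  have tJ : Tendsto (fun q : ℕ => (⌊K * (q * r)⌋₊ : ℝ) / (q * r)) atTop (𝓝 K) :=
    (tendsto_nat_floor_mul_div_atTop hK.le).comp hLt
  have tP : Tendsto (fun q : ℕ => (⌊k * (q * r)⌋₊ : ℝ) / (q * r)) atTop (𝓝 k) :=
    (tendsto_nat_floor_mul_div_atTop hk.le).comp hLt
  have t1 : Tendsto (fun q : ℕ => 1 / ((q : ℝ) * r)) atTop (𝓝 0) :=
    (tendsto_inv_atTop_zero.comp hLt).congr (fun q => (one_div _).symm)
  have tJ1 : Tendsto (fun q : ℕ => (⌊K * (q * r)⌋₊ : ℝ) / (q * r) + 1 / ((q : ℝ) * r)) atTop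
      (𝓝 (K + 0)) := tJ.add t1
  rw [add_zero] at tJ1
  have tR : Tendsto (fun q : ℕ => (((q : ℝ) * r) ^ 3)⁻¹ * ∑ p ∈ cubeP ⌊k * ((q : ℝ) * r)⌋₊,
      (vhat v (frq (q * r) p)).re) atTop (𝓝 (∫ x in ocube k, (vhat v x).re)) := by
    have hcont : Continuous (fun x => (vhat v x).re) :=
      Complex.continuous_re.comp (continuous_fourier _ hv.ofReal)
    have := tendsto_riemann (fun x => (vhat v x).re) hcont (∫ x, v x)
      (fun x => by rw [abs_of_nonneg (hre x)]; exact re_vhat_le hv0 x) k hk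
    exact this.comp hLt
  have tall : Tendsto (fun q : ℕ =>
      lam / (8 * m) * (3 * (2 * π * ((⌊K * (q * r)⌋₊ : ℝ) / (q * r))) ^ 2 *
        (I * ((⌊K * (q * r)⌋₊ : ℝ) / (q * r) + 1 / ((q : ℝ) * r)) ^ 3)) +
      1 / 2 * (ρ * I -
        ((((⌊K * (q * r)⌋₊ : ℝ) / (q * r) + 1 / ((q : ℝ) * r)) - (⌊k * (q * r)⌋₊ : ℝ) / (q * r)) /
        ((⌊K * (q * r)⌋₊ : ℝ) / (q * r) + 1 / ((q : ℝ) * r))) ^ 6 *
        (1 - (6 * π * ((⌊k * (q * r)⌋₊ : ℝ) / (q * r)) * r) ^ 2 / 2) ^ 2 *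
        ((((q : ℝ) * r) ^ 3)⁻¹ * ∑ p ∈ cubeP ⌊k * ((q : ℝ) * r)⌋₊,
      (vhat v (frq (q * r) p)).re)) +
      (1 + Real.log n) / (lam * n)) atTop
      (𝓝 (lam / (8 * m) * (3 * (2 * π * K) ^ 2 * (I * K ^ 3)) +
      1 / 2 * (ρ * I - ((K - k) / K) ^ 6 *
        (1 - (6 * π * k * r) ^ 2 / 2) ^ 2 * ∫ x in ocube k, (vhat v x).re) +
      (1 + Real.log n) / (lam * n))) := by
    apply Tendsto.add _ tendsto_const_nhds
    apply Tendsto.add
    · apply Tendsto.const_mul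
      apply Tendsto.mul
      · exact ((tJ.const_mul (2 * π)).pow 2).const_mul 3
      · exact (tJ1.pow 3).const_mul I
    · apply Tendsto.const_mul
      apply Tendsto.sub tendsto_const_nhds
      apply Tendsto.mul _ tR
      apply Tendsto.mul
      · exact ((tJ1.sub tP).div tJ1 hK.ne').pow 6
      · exact ((((tP.const_mul (6 * π)).mul_const r).pow 2).div_const 2).const_sub 1 |>.pow 2
  refine le_of_tendsto_of_tendsto hE tall ?_
  filter_upwards [eventually_gt_atTop 0] with q hq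
  have hq0 : (0 : ℝ) < q := by exact_mod_cast hq
  have hLpos : 0 < (q : ℝ) * r := by positivity
  have fr : Fact (0 < r) := ⟨hr0⟩
  have fL : Fact (0 < (q : ℝ) * r) := ⟨hLpos⟩
  simp only [Function.comp]
  have hN0 : (0 : ℝ) < ((n * q ^ 3 : ℕ) : ℝ) := by push_cast; positivity
  rw [div_le_iff₀ hN0]
  refine (hEle (n * q ^ 3) (by positivity)).trans ?_
  rw [side_mul hρ]
  rw [← hr]
  set L : ℝ := (q : ℝ) * r with hL
  set J := ⌊K * L⌋₊ with hJ
  set P := ⌊k * L⌋₊ with hP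
  have hPJ : P ≤ J + 1 := by
    have : P ≤ J := Nat.floor_le_floor (mul_le_mul_of_nonneg_right hkK hLpos.le)
    omega
  have hPL : (P : ℝ) / L ≤ k := by
    rw [div_le_iff₀ hLpos]; exact Nat.floor_le (by positivity)
  have hθ' : 0 ≤ 1 - (6 * π * P * r / L) ^ 2 / 2 := by
    have h1 : (6 * π * P * r / L) ^ 2 ≤ (6 * π * k * r) ^ 2 := by
      apply pow_le_pow_left₀ (by positivity)
      calc 6 * π * P * r / L = 6 * π * (P / L) * r := by ring
        _ ≤ 6 * π * k * r := by gcongr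
    linarith
  have hbound := postype_energy (J := J) (P := P) hm hq hn rfl hv0 hvm hv him hre hPJ hθ' hlam
    (N := n * q ^ 3)
  rw [← hL, ← hI] at hbound
  refine hbound.trans (le_of_eq ?_)
  have hNL : ((n * q ^ 3 : ℕ) : ℝ) = ρ * L ^ 3 := by
    rw [hL, mul_pow, hr3]; push_cast; field_simp
  have hnq : (q : ℝ) ^ 3 = ((n * q ^ 3 : ℕ) : ℝ) / n := by
    push_cast; field_simp
  have e1 : (J : ℝ) / L + 1 / L = ((J : ℝ) + 1) / L := by ring
  have e2 : (((J : ℝ) + 1) / L - (P : ℝ) / L) / (((J : ℝ) + 1) / L) = ((J : ℝ) + 1 - P) / (J + 1) := by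
    field_simp
  have e3 : 6 * π * ((P : ℝ) / L) * r = 6 * π * P * r / L := by ring
  rw [e1, e2, e3, hnq, hNL]
  field_simp

end H47.SE
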