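import Pool.Agent.H47.SE.TwoPhase

/-! High density comparison for potentials which are not of positive type. -/

open MeasureTheory ProbabilityTheory FourierTransform Filter
open scoped ENNReal NNReal Real ComplexConjugate Topology

noncomputable section

namespace H47.SE

variable {N : ℕ} {L : ℝ}

/-- the exponent of the product trial state -/
def fpr (L : ℝ) (p : Fin 3 → ℤ) (θ : Fin N → ℝ) (x : Fin N → E3) : ℝ :=
  ∑ i, Real.log (gm L p (θ i) (x i))

lemma exp_fpr (p : Fin 3 → ℤ) (θ : Fin N → ℝ) (x : Fin N → E3) :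
    Real.exp (fpr L p θ x) = ∏ i, gm L p (θ i) (x i) := by
  unfold fpr
  rw [Real.exp_sum]
  apply Finset.prod_congr rfl
  intro i _
  rw [Real.exp_log]
  linarith [gm_pos (L := L) p (θ i) (x i)]

lemma contDiff_gm (p : Fin 3 → ℤ) (θ : ℝ) (k : Fin N) :
    ContDiff ℝ (⊤ : ℕ∞) (fun x : Fin N → E3 => gm L p θ (x k)) := by
  unfold gm
  exact contDiff_const.add (contDiff_const.mul
    (Real.contDiff_cos.comp ((contDiff_ph p k).add contDiff_const)))

lemma contDiff_fpr (p : Fin 3 → ℤ) (θ : Fin N → ℝ) :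
    ContDiff ℝ (⊤ : ℕ∞) (fpr L p θ) := by
  unfold fpr
  apply ContDiff.sum
  intro i _
  apply (contDiff_gm p (θ i) i).log
  intro x
  have := gm_pos (L := L) p (θ i) (x i)
  exact (by linarith : 0 < gm L p (θ i) (x i)).ne'

lemma gm_periodic [hL : Fact (0 < L)] (p : Fin 3 → ℤ) (θ : ℝ) (x : E3) (n : Fin 3 → ℤ) :
    gm L p θ (x + latt L n) = gm L p θ x := by
  unfold gm
  rw [Real.cos_add, Real.cos_add, cos_periodic, sin_periodic]

lemma fpr_periodic [hL : Fact (0 < L)] (p : Fin 3 → ℤ) (θ : Fin N → ℝ) :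
    PeriodicN L (fpr L p θ) := by
  intro x n
  unfold fpr
  simp_rw [gm_periodic]

lemma pd_fpr_sq_le (p : Fin 3 → ℤ) (θ : Fin N → ℝ) (i : Fin N) (a : Fin 3) (x : Fin N → E3) :
    (pd i a (fpr L p θ) x) ^ 2 ≤ alp L p a ^ 2 := by
  have h1 : HasDerivAt (fun t : ℝ => fpr L p θ (x + t • dirE i a))
      ((1 / 2 * (- Real.sin (ph L p (x i) + θ i) * alp L p a)) / gm L p (θ i) (x i)) 0 := by
    unfold fpr
    have h := HasDerivAt.fun_sum (u := Finset.univ)
      (A := fun (k : Fin N) (t : ℝ) => Real.log (gm L p (θ k) ((x + t • dirE i a) k)))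
      (A' := fun k => (1 / 2 * (- Real.sin (ph L p ((x + (0 : ℝ) • dirE i a) k) + θ k) *
        (if k = i then alp L p a else 0))) / gm L p (θ k) ((x + (0 : ℝ) • dirE i a) k))
      (x := (0 : ℝ)) (fun k _ => by
        have hne : gm L p (θ k) ((x + (0 : ℝ) • dirE i a) k) ≠ 0 := by
          have := gm_pos (L := L) p (θ k) ((x + (0 : ℝ) • dirE i a) k)
          exact (by linarith : 0 < gm L p (θ k) ((x + (0 : ℝ) • dirE i a) k)).ne'
        exact (((((hasDerivAt_ph (L := L) p i k a x 0).add_const (θ k)).cos).const_mul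
          (1 / 2 : ℝ)).const_add 1).log hne)
    refine h.congr_deriv ?_
    rw [Finset.sum_eq_single i]
    · simp
    · intro b _ hb; simp [hb]
    · simp
  rw [pd_eq_of_hasDerivAt (contDiff_fpr p θ) i a x h1]
  set s := Real.sin (ph L p (x i) + θ i) with hs
  set c := Real.cos (ph L p (x i) + θ i) with hc
  have hg : gm L p (θ i) (x i) = 1 + 1 / 2 * c := rfl
  have hs2 : s ^ 2 ≤ 1 := by
    have := Real.sin_sq_add_cos_sq (ph L p (x i) + θ i)
    nlinarith [sq_nonneg c]
  have hc1 : -1 ≤ c := Real.neg_one_le_cos _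
  rw [div_pow, hg, div_le_iff₀ (by nlinarith)]
  have h2 : (1 / 2 * (-s * alp L p a)) ^ 2 = (1 / 4 * s ^ 2) * alp L p a ^ 2 := by ring
  rw [h2, mul_comm (alp L p a ^ 2)]
  apply mul_le_mul_of_nonneg_right _ (sq_nonneg _)
  nlinarith

lemma integral_exp_fpr [hL : Fact (0 < L)] {p : Fin 3 → ℤ} (hp : p ≠ 0) (θ : Fin N → ℝ) :
    ∫ x, Real.exp (fpr L p θ x) ∂(unifN (Fin N) L) = 1 := by
  simp_rw [exp_fpr]
  unfold unifN
  rw [integral_fintype_prod_eq_prod (𝕜 := ℝ) (fun i y => gm L p (θ i) y)]
  simp_rw [integral_gm hp]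
  simp

lemma integral_pair_fpr [hL : Fact (0 < L)] {v : E3 → ℝ} (hv0 : ∀ x, 0 ≤ v x)
    (hvm : Measurable v) (hv : Integrable v) {p : Fin 3 → ℤ} (hp : p ≠ 0) (θ : Fin N → ℝ)
    {k l : Fin N} (hkl : k ≠ l) :
    ∫ x, perPot v L (x k - x l) * Real.exp (fpr L p θ x) ∂(unifN (Fin N) L) =
      (L ^ 3)⁻¹ * ((∫ x, v x) + 1 / 8 * (Complex.exp ((θ k - θ l : ℝ) * Complex.I) *
        conj (vhat v (frq L p))).re) := by
  rw [← integral_pair_gm hv0 hvm hv hp]
  set g : Fin N → E3 → ℝ≥0∞ := fun i y => ENNReal.ofReal (gm L p (θ i) y) with hg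
  have hgm : ∀ i, Measurable (g i) := fun i => (continuous_gm p (θ i)).measurable.ennreal_ofReal
  have hg1 : ∀ i, ∫⁻ y, g i y ∂(unif L) = 1 := fun i => lintegral_gm hp (θ i)
  have hpi := pi_withDensity (unif L) g hgm hg1
  have hprob : ∀ i, IsProbabilityMeasure ((unif L).withDensity (g i)) := by
    intro i
    constructor
    rw [withDensity_apply _ MeasurableSet.univ, Measure.restrict_univ, hg1]
  have hwm := measurable_perPot hv0 hvm L
  have hgpos : ∀ i y, 0 ≤ gm L p (θ i) y := fun i y => by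
    linarith [gm_pos (L := L) p (θ i) y]
  have h1 : ∫ x, perPot v L (x k - x l) * Real.exp (fpr L p θ x) ∂(unifN (Fin N) L) =
      ∫ x, perPot v L (x k - x l) ∂(Measure.pi (fun i => (unif L).withDensity (g i))) := by
    rw [hpi, integral_withDensity_eq_integral_toReal_smul]
    · unfold unifN
      congr 1; ext x
      rw [exp_fpr, ENNReal.toReal_prod, smul_eq_mul, mul_comm]
      congr 1
      apply Finset.prod_congr rfl
      intro i _
      rw [hg]
      exact (ENNReal.toReal_ofReal (hgpos i _)).symm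
    · exact Finset.measurable_fun_prod _ (fun i _ => (hgm i).comp (measurable_pi_apply i))
    · filter_upwards with x
      exact ENNReal.prod_lt_top (fun i _ => ENNReal.ofReal_lt_top)
  have mp := mp_pair (fun i => (unif L).withDensity (g i)) hkl
  have h2 : ∫ x, perPot v L (x k - x l) ∂(Measure.pi (fun i => (unif L).withDensity (g i))) =
      ∫ z : E3 × E3, perPot v L (z.1 - z.2)
        ∂(((unif L).withDensity (g k)).prod ((unif L).withDensity (g l))) := by
    rw [← mp.map_eq, integral_map mp.measurable.aemeasurable]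
    exact (hwm.comp (by fun_prop)).aestronglyMeasurable
  rw [h1, h2, prod_withDensity (hgm k) (hgm l), integral_withDensity_eq_integral_toReal_smul]
  · congr 1; ext z
    rw [ENNReal.toReal_mul, smul_eq_mul, mul_comm]
    congr 1
    rw [hg]
    simp only
    rw [ENNReal.toReal_ofReal (hgpos k _), ENNReal.toReal_ofReal (hgpos l _)]
  · exact ((hgm k).comp measurable_fst).mul ((hgm l).comp measurable_snd)
  · filter_upwards with z
    exact ENNReal.mul_lt_top ENNReal.ofReal_lt_top ENNReal.ofReal_lt_top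

lemma sum_fin_lt (n : ℕ) :
    (∑ k : Fin (2 * n), if (k : ℕ) < n then (1 : ℝ) else 0) = n ∧
    (∑ k : Fin (2 * n), if n ≤ (k : ℕ) then (1 : ℝ) else 0) = n := by
  have h1 : (∑ k : Fin (2 * n), if (k : ℕ) < n then (1 : ℝ) else 0) = n := by
    rw [Fin.sum_univ_eq_sum_range (fun i => if i < n then (1 : ℝ) else 0) (2 * n)]
    rw [Finset.sum_ite, Finset.sum_const_zero, add_zero, Finset.sum_const, nsmul_eq_mul, mul_one]
    have : (Finset.range (2 * n)).filter (fun i => i < n) = Finset.range n := by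
      ext i; simp only [Finset.mem_filter, Finset.mem_range]; omega
    rw [this, Finset.card_range]
  refine ⟨h1, ?_⟩
  have h2 : (∑ k : Fin (2 * n), if n ≤ (k : ℕ) then (1 : ℝ) else 0) =
      ∑ k : Fin (2 * n), (1 - if (k : ℕ) < n then (1 : ℝ) else 0) := by
    apply Finset.sum_congr rfl
    intro k _
    by_cases h : (k : ℕ) < n
    · rw [if_pos h, if_neg (by omega)]; ring
    · rw [if_neg h, if_pos (by omega)]; ring
  rw [h2, Finset.sum_sub_distrib, h1]
  simp
  ring

/-- the energy of the two phase state -/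
theorem twophase_energy [hL : Fact (0 < L)] {m : ℝ} (hm : 0 < m) {v : E3 → ℝ}
    (hv0 : ∀ x, 0 ≤ v x) (hvm : Measurable v) (hv : Integrable v) {p : Fin 3 → ℤ} (hp : p ≠ 0)
    (n : ℕ) :
    groundEnergy m (perPot v L) (2 * n) L ≤
      1 / (8 * m) * (2 * n * ∑ a, alp L p a ^ 2) +
      (L ^ 3)⁻¹ * (((∫ x, v x) + 1 / 8 * (vhat v (frq L p)).re) * (n * (2 * n - 1)) -
        1 / 8 * (n ^ 2 * (‖vhat v (frq L p)‖ + (vhat v (frq L p)).re))) := by
  set z := vhat v (frq L p) with hz
  set θ0 : ℝ := π - Complex.arg z with hθ0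
  have hθz : Complex.exp (θ0 * Complex.I) * z = -(‖z‖ : ℂ) := by
    have h1 := Complex.norm_mul_exp_arg_mul_I z
    calc Complex.exp (θ0 * Complex.I) * z =
        Complex.exp (θ0 * Complex.I) * (‖z‖ * Complex.exp (Complex.arg z * Complex.I)) := by
          rw [h1]
      _ = ‖z‖ * (Complex.exp (θ0 * Complex.I) * Complex.exp (Complex.arg z * Complex.I)) := by
          ring
      _ = ‖z‖ * Complex.exp (π * Complex.I) := by
          rw [← Complex.exp_add]
          congr 2
          rw [hθ0]; push_cast; ring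
      _ = -(‖z‖ : ℂ) := by rw [Complex.exp_pi_mul_I]; ring
  set θ : Fin (2 * n) → ℝ := fun k => if (k : ℕ) < n then 0 else θ0 with hθ
  set P := unifN (Fin (2 * n)) L with hP
  have hav := groundEnergy_average (N := 2 * n) hm (perPot_nonneg hv0 L)
    (measurable_perPot hv0 hvm L) (perPot_periodic v L) (integrable_perPot hv0 hvm hv)
    (Measure.dirac (0 : E3)) (contDiff_fpr (L := L) p θ) (fpr_periodic p θ)
  rw [integral_exp_fpr hp, mul_one] at hav
  refine hav.trans (add_le_add ?_ (le_of_eq ?_))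
  · apply mul_le_mul_of_nonneg_left _ (by positivity)
    have hec : Continuous (fun x => Real.exp (fpr L p θ x)) :=
      Real.continuous_exp.comp (contDiff_fpr (L := L) p θ).continuous
    have hep : PeriodicN L (fun x => Real.exp (fpr L p θ x)) := by
      intro x k; simp only; rw [fpr_periodic p θ x k]
    have hei : Integrable (fun x => Real.exp (fpr L p θ x)) P :=
      integrable_unifN_periodic _ hec hep
    have h1 : ∀ i a, ∫ x, (pd i a (fpr L p θ) x) ^ 2 * Real.exp (fpr L p θ x) ∂P ≤
        alp L p a ^ 2 := by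
      intro i a
      have h2 : ∫ x, alp L p a ^ 2 * Real.exp (fpr L p θ x) ∂P = alp L p a ^ 2 := by
        rw [integral_const_mul, integral_exp_fpr hp, mul_one]
      rw [← h2]
      have hpc : Continuous (fun x => pd i a (fpr L p θ) x) := by
        unfold pd
        exact ((contDiff_fpr (L := L) p θ).continuous_fderiv (by simp)).clm_apply continuous_const
      have hpp : PeriodicN L (fun x => (pd i a (fpr L p θ) x) ^ 2 * Real.exp (fpr L p θ x)) := by
        intro x k
        simp only
        rw [fpr_periodic p θ x k]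
        have := fderiv_periodic (fpr_periodic (L := L) p θ) (dirE i a) x k
        simp only at this
        unfold pd
        rw [this]
      apply integral_mono (integrable_unifN_periodic _ ((hpc.pow 2).mul hec) hpp)
        (hei.const_mul _)
      intro x
      simp only
      exact mul_le_mul_of_nonneg_right (pd_fpr_sq_le p θ i a x) (Real.exp_pos _).le
    calc ∑ i : Fin (2 * n), ∑ a, ∫ x, (pd i a (fpr L p θ) x) ^ 2 * Real.exp (fpr L p θ x) ∂P
        ≤ ∑ _i : Fin (2 * n), ∑ a, alp L p a ^ 2 :=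
          Finset.sum_le_sum fun i _ => Finset.sum_le_sum fun a _ => h1 i a
      _ = 2 * n * ∑ a, alp L p a ^ 2 := by
          rw [Finset.sum_const, Finset.card_univ, Fintype.card_fin, nsmul_eq_mul]
          push_cast; ring
  · -- the interaction
    have h3 : ∀ q : Fin (2 * n) × Fin (2 * n), (if q.1 < q.2 then
        ∫ x, smear (perPot v L) (Measure.dirac 0) (x q.1 - x q.2) *
          Real.exp (fpr L p θ x) ∂P else 0) =
        (L ^ 3)⁻¹ * ((∫ x, v x) + 1 / 8 * z.re) * (if q.1 < q.2 then 1 else 0) -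
        (L ^ 3)⁻¹ * (1 / 8 * (‖z‖ + z.re)) *
          ((if (q.1 : ℕ) < n then 1 else 0) * (if n ≤ (q.2 : ℕ) then 1 else 0)) := by
      intro q
      by_cases hlt : q.1 < q.2
      · rw [if_pos hlt, if_pos hlt]
        simp_rw [smear_dirac]
        rw [integral_pair_fpr hv0 hvm hv hp θ hlt.ne]
        have hlt' : (q.1 : ℕ) < (q.2 : ℕ) := hlt
        by_cases ha : (q.1 : ℕ) < n
        · by_cases hb : n ≤ (q.2 : ℕ)
          · have e1 : θ q.1 = 0 := by rw [hθ]; simp only; rw [if_pos ha]
            have e2 : θ q.2 = θ0 := by rw [hθ]; simp only; rw [if_neg (by omega)]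
            rw [e1, e2, if_pos ha, if_pos hb]
            have e3 : (Complex.exp ((0 - θ0 : ℝ) * Complex.I) * conj z).re = - ‖z‖ := by
              have e4 : Complex.exp ((0 - θ0 : ℝ) * Complex.I) * conj z =
                  conj (Complex.exp (θ0 * Complex.I) * z) := by
                rw [map_mul, ← Complex.exp_conj, map_mul, Complex.conj_ofReal, Complex.conj_I]
                congr 2
                push_cast; ring
              rw [e4, hθz, Complex.conj_re, Complex.neg_re, Complex.ofReal_re]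
            rw [e3]; ring
          · have e1 : θ q.1 = 0 := by rw [hθ]; simp only; rw [if_pos ha]
            have e2 : θ q.2 = 0 := by rw [hθ]; simp only; rw [if_pos (by omega)]
            rw [e1, e2, if_neg hb, ← hz]
            simp
        · have e1 : θ q.1 = θ0 := by rw [hθ]; simp only; rw [if_neg ha]
          have e2 : θ q.2 = θ0 := by rw [hθ]; simp only; rw [if_neg (by omega)]
          rw [e1, e2, if_neg ha, ← hz]
          simp
      · rw [if_neg hlt, if_neg hlt]
        have hlt' : ¬ (q.1 : ℕ) < (q.2 : ℕ) := hlt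
        by_cases ha : (q.1 : ℕ) < n
        · rw [if_neg (by omega : ¬ n ≤ (q.2 : ℕ))]; ring
        · rw [if_neg ha]; ring
    rw [Finset.sum_congr rfl (fun q _ => h3 q), Finset.sum_sub_distrib, ← Finset.mul_sum,
      ← Finset.mul_sum]
    have h4 : (∑ q : Fin (2 * n) × Fin (2 * n), if q.1 < q.2 then (1 : ℝ) else 0) =
        n * (2 * n - 1) := by
      have := sum_pairs (N := 2 * n) (fun _ _ => (1 : ℝ)) (fun _ _ => rfl)
      rw [this]
      simp
      ring
    have h5 : (∑ q : Fin (2 * n) × Fin (2 * n),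
        (if (q.1 : ℕ) < n then (1 : ℝ) else 0) * (if n ≤ (q.2 : ℕ) then 1 else 0)) = n ^ 2 := by
      rw [Fintype.sum_prod_type]
      simp only
      have h6 := Finset.sum_mul_sum (Finset.univ : Finset (Fin (2 * n)))
        (Finset.univ : Finset (Fin (2 * n))) (fun k => if (k : ℕ) < n then (1 : ℝ) else 0)
        (fun l => if n ≤ (l : ℕ) then (1 : ℝ) else 0)
      rw [← h6, (sum_fin_lt n).1, (sum_fin_lt n).2]
      ring
    rw [h4, h5]
    ring

end H47.SE
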