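import Pool.Agent.H47.SE.Energy

/-! Pair marginals of product probability measures and the uniform measure on the box. -/

open MeasureTheory ProbabilityTheory
open scoped ENNReal NNReal Real

noncomputable section

namespace H47.SE

variable {ι : Type*} [Fintype ι] [DecidableEq ι]

/-- pair marginal of a product probability measure -/
lemma mp_pair {Y : ι → Type*} [∀ i, MeasurableSpace (Y i)]
    (ν : ∀ i, Measure (Y i)) [∀ i, IsProbabilityMeasure (ν i)] {i j : ι} (hij : i ≠ j) :
    MeasurePreserving (fun x : (∀ i, Y i) => (x i, x j)) (Measure.pi ν) ((ν i).prod (ν j)) := by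
  refine ⟨(measurable_pi_apply i).prodMk (measurable_pi_apply j), ?_⟩
  have h1 : iIndepFun (fun i (x : ∀ i, Y i) => x i) (Measure.pi ν) :=
    iIndepFun_pi (X := fun i (y : Y i) => y) (fun i => aemeasurable_id)
  have h2 := h1.indepFun hij
  rw [indepFun_iff_map_prod_eq_prod_map_map (measurable_pi_apply i).aemeasurable
    (measurable_pi_apply j).aemeasurable] at h2
  rw [h2, (measurePreserving_eval ν i).map_eq, (measurePreserving_eval ν j).map_eq]

lemma volume_cell {L : ℝ} (hL : 0 < L) : volume (cell L) = ENNReal.ofReal (L ^ 3) := by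
  have h1 := EuclideanSpace.volume_preserving_symm_measurableEquiv_toLp (Fin 3)
  have hs : MeasurableSet (Set.pi Set.univ (fun _ : Fin 3 => Set.Ioc (0 : ℝ) L)) :=
    MeasurableSet.univ_pi fun _ => measurableSet_Ioc
  have h3 : (⇑(MeasurableEquiv.toLp 2 (Fin 3 → ℝ)).symm) ⁻¹'
      (Set.pi Set.univ (fun _ : Fin 3 => Set.Ioc (0 : ℝ) L)) = cell L := by
    ext x; simp [cell]
  rw [← h3, h1.measure_preimage hs.nullMeasurableSet, volume_pi_pi]
  simp only [Real.volume_Ioc, sub_zero, Finset.prod_const, Finset.card_univ, Fintype.card_fin]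
  rw [ENNReal.ofReal_pow hL.le]

/-- the uniform probability measure on the cell -/
def unif (L : ℝ) : Measure E3 := (ENNReal.ofReal (L ^ 3))⁻¹ • volume.restrict (cell L)

instance isProb_unif (L : ℝ) [hL : Fact (0 < L)] : IsProbabilityMeasure (unif L) := by
  constructor
  rw [unif, Measure.smul_apply, Measure.restrict_apply MeasurableSet.univ, Set.univ_inter,
    volume_cell hL.out, smul_eq_mul]
  apply ENNReal.inv_mul_cancel
  · simp only [ne_eq, ENNReal.ofReal_eq_zero, not_le]
    have := hL.out; positivity
  · exact ENNReal.ofReal_ne_top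

/-- the uniform probability measure on the box -/
def unifN (ι : Type*) [Fintype ι] (L : ℝ) : Measure (ι → E3) := Measure.pi (fun _ => unif L)

instance isProb_unifN (L : ℝ) [hL : Fact (0 < L)] : IsProbabilityMeasure (unifN ι L) := by
  unfold unifN; infer_instance

lemma pi_smul_measure {Y : Type*} [MeasurableSpace Y] (ν : Measure Y) [SigmaFinite ν]
    (c : ℝ≥0∞) (hc : c ≠ ∞) :
    Measure.pi (fun _ : ι => c • ν) = c ^ Fintype.card ι • Measure.pi (fun _ : ι => ν) := by
  haveI : SigmaFinite (c • ν) := by
    lift c to ℝ≥0 using hc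
    exact inferInstanceAs (SigmaFinite (c • ν))
  apply Measure.pi_eq
  intro s hs
  rw [Measure.smul_apply, Measure.pi_pi]
  simp only [Measure.smul_apply, smul_eq_mul, Finset.prod_mul_distrib, Finset.prod_const,
    Finset.card_univ]

lemma unifN_eq (L : ℝ) [hL : Fact (0 < L)] :
    unifN ι L = ((ENNReal.ofReal (L ^ 3))⁻¹) ^ Fintype.card ι • volume.restrict (box ι L) := by
  have h4 : (volume : Measure (ι → E3)).restrict (box ι L) =
      Measure.pi (fun _ => volume.restrict (cell L)) := by
    rw [volume_pi, box_eq, Measure.restrict_pi_pi]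
  rw [h4, unifN]
  unfold unif
  apply pi_smul_measure
  simp only [ne_eq, ENNReal.inv_eq_top, ENNReal.ofReal_eq_zero, not_le]
  have := hL.out; positivity

lemma integral_unifN (L : ℝ) [hL : Fact (0 < L)] (F : (ι → E3) → ℝ) :
    ∫ x in box ι L, F x = (L ^ 3) ^ Fintype.card ι * ∫ x, F x ∂(unifN ι L) := by
  rw [unifN_eq, integral_smul_measure]
  have h3 : 0 < L ^ 3 := by have := hL.out; positivity
  have : (((ENNReal.ofReal (L ^ 3))⁻¹) ^ Fintype.card ι).toReal = ((L ^ 3) ^ Fintype.card ι)⁻¹ := by
    rw [ENNReal.toReal_pow, ENNReal.toReal_inv, ENNReal.toReal_ofReal h3.le, inv_pow]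
  rw [this, smul_eq_mul, ← mul_assoc, mul_inv_cancel₀ (by positivity), one_mul]

lemma integrable_unifN (L : ℝ) [hL : Fact (0 < L)] (F : (ι → E3) → ℝ) :
    IntegrableOn F (box ι L) ↔ Integrable F (unifN ι L) := by
  rw [unifN_eq]
  have h3 : 0 < L ^ 3 := by have := hL.out; positivity
  rw [integrable_smul_measure]
  · rfl
  · apply pow_ne_zero
    simp
  · apply ENNReal.pow_ne_top
    simp only [ne_eq, ENNReal.inv_eq_top, ENNReal.ofReal_eq_zero, not_le]
    exact h3

lemma integral_unif (L : ℝ) [hL : Fact (0 < L)] {α : Type*} [NormedAddCommGroup α]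
    [NormedSpace ℝ α] (F : E3 → α) :
    ∫ x, F x ∂(unif L) = (L ^ 3)⁻¹ • ∫ x in cell L, F x := by
  have h3 : 0 < L ^ 3 := by have := hL.out; positivity
  rw [unif, integral_smul_measure, ENNReal.toReal_inv, ENNReal.toReal_ofReal h3.le]

lemma integrable_unif (L : ℝ) [hL : Fact (0 < L)] {α : Type*} [NormedAddCommGroup α] (F : E3 → α) :
    IntegrableOn F (cell L) ↔ Integrable F (unif L) := by
  have h3 : 0 < L ^ 3 := by have := hL.out; positivity
  rw [unif, integrable_smul_measure]
  · rfl
  · simp
  · simp only [ne_eq, ENNReal.inv_eq_top, ENNReal.ofReal_eq_zero, not_le]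
    exact h3

/-- translation invariance of the uniform measure for periodic functions -/
lemma unif_shift {L : ℝ} [hL : Fact (0 < L)] {α : Type*} [NormedAddCommGroup α]
    [NormedSpace ℝ α] {F : E3 → α}
    (hF : ∀ x n, F (x + latt L n) = F x) (hm : StronglyMeasurable F) (s : E3) :
    ∫ x, F (x + s) ∂(unif L) = ∫ x, F x ∂(unif L) := by
  rw [integral_unif, integral_unif]
  congr 1
  have h := mp1 L
  have hm2 : StronglyMeasurable (fun t : Fin 3 → AddCircle L => F (sec L t)) :=
    hm.comp_measurable (measurable_sec L)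
  have e : ∀ x, F (sec L (toT L x)) = F x := by
    intro x
    obtain ⟨n, hn⟩ := exists_latt L x
    rw [hn, hF]
  have h1 : ∀ x, F (x + s) = F (sec L (toT L s + toT L x)) := by
    intro x
    rw [← toT_add, e, add_comm]
  have h2 : ∫ x in cell L, F x = ∫ t : Fin 3 → AddCircle L, F (sec L t) := by
    rw [← h.map_eq, integral_map h.measurable.aemeasurable hm2.aestronglyMeasurable]
    apply integral_congr_ae
    filter_upwards with x
    rw [e]
  rw [h2]
  simp_rw [h1]
  rw [← integral_add_left_eq_self (fun t : Fin 3 → AddCircle L => F (sec L t)) (toT L s)]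
  have hm3 : StronglyMeasurable
      (fun t : Fin 3 → AddCircle L => F (sec L (toT L s + t))) :=
    hm2.comp_measurable (measurable_id.const_add _)
  rw [← h.map_eq, integral_map h.measurable.aemeasurable hm3.aestronglyMeasurable]

lemma unif_integrable_shift {L : ℝ} [hL : Fact (0 < L)] {α : Type*} [NormedAddCommGroup α]
    {F : E3 → α}
    (hF : ∀ x n, F (x + latt L n) = F x) (hm : StronglyMeasurable F) (s : E3)
    (hi : Integrable F (unif L)) :
    Integrable (fun x => F (x + s)) (unif L) := by
  rw [← integrable_unif] at hi ⊢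
  have h := mp1 L
  have hm2 : StronglyMeasurable (fun t : Fin 3 → AddCircle L => F (sec L t)) :=
    hm.comp_measurable (measurable_sec L)
  have e : ∀ x, F (sec L (toT L x)) = F x := by
    intro x
    obtain ⟨n, hn⟩ := exists_latt L x
    rw [hn, hF]
  have e1 : F = (fun t : Fin 3 → AddCircle L => F (sec L t)) ∘ toT L := by
    ext x; simp [e]
  have i1 : Integrable (fun t : Fin 3 → AddCircle L => F (sec L t)) volume := by
    rw [← h.integrable_comp hm2.aestronglyMeasurable, ← e1]; exact hi
  have i2 := i1.comp_add_left (toT L s)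
  have e2 : (fun x => F (x + s)) =
      (fun t : Fin 3 → AddCircle L => F (sec L (toT L s + t))) ∘ toT L := by
    ext x
    simp only [Function.comp]
    rw [← toT_add, e, add_comm]
  unfold IntegrableOn
  rw [e2]
  exact (h.integrable_comp i2.1).mpr i2

end H47.SE
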