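import Pool.Agent.H47.SE.Char

/-! Periodization of a potential and unfolding. -/

open MeasureTheory ProbabilityTheory FourierTransform
open scoped ENNReal NNReal Real ComplexConjugate

noncomputable section

namespace H47.SE

variable {v : E3 → ℝ} {L : ℝ}

lemma perPot_eq (hv0 : ∀ x, 0 ≤ v x) (L : ℝ) (x : E3) :
    perPot v L x = (∑' n : Fin 3 → ℤ, ENNReal.ofReal (v (x + latt L n))).toReal := by
  unfold perPot
  rw [ENNReal.tsum_toReal_eq (fun _ => ENNReal.ofReal_ne_top)]
  congr 1; ext n; rw [ENNReal.toReal_ofReal (hv0 _)]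

lemma measurable_perPot (hv0 : ∀ x, 0 ≤ v x) (hvm : Measurable v) (L : ℝ) :
    Measurable (perPot v L) := by
  have : perPot v L =
      fun x => (∑' n : Fin 3 → ℤ, ENNReal.ofReal (v (x + latt L n))).toReal :=
    funext (perPot_eq hv0 L)
  rw [this]
  apply Measurable.ennreal_toReal
  apply Measurable.tsum
  intro n
  exact (hvm.comp (by fun_prop)).ennreal_ofReal

lemma perPot_nonneg (hv0 : ∀ x, 0 ≤ v x) (L : ℝ) (x : E3) : 0 ≤ perPot v L x :=
  tsum_nonneg fun _ => hv0 _

lemma perPot_periodic (v : E3 → ℝ) (L : ℝ) (x : E3) (n : Fin 3 → ℤ) :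
    perPot v L (x + latt L n) = perPot v L x := by
  unfold perPot
  rw [← (Equiv.addLeft n).tsum_eq (fun k => v (x + latt L k))]
  congr 1; ext k
  rw [Equiv.coe_addLeft, ← latt_add, add_assoc]

/-- the cell translated by a lattice vector -/
def cellAt (L : ℝ) (n : Fin 3 → ℤ) : Set E3 := {y | y - latt L n ∈ cell L}

lemma measurableSet_cellAt (L : ℝ) (n : Fin 3 → ℤ) : MeasurableSet (cellAt L n) :=
  (measurableSet_cell L).preimage (by fun_prop)

lemma sec_mem_cell (L : ℝ) [hL : Fact (0 < L)] (t : Fin 3 → AddCircle L) : sec L t ∈ cell L := by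
  intro a
  have h := (AddCircle.equivIoc L 0 (t a)).2
  exact ⟨h.1, h.2.trans (le_of_eq (zero_add L))⟩

lemma latt_neg (L : ℝ) (n : Fin 3 → ℤ) : latt L (-n) = - latt L n := by
  ext a; simp

lemma iUnion_cellAt (L : ℝ) [hL : Fact (0 < L)] : ⋃ n, cellAt L n = Set.univ := by
  rw [Set.eq_univ_iff_forall]
  intro y
  obtain ⟨n, hn⟩ := exists_latt L y
  rw [Set.mem_iUnion]
  refine ⟨-n, ?_⟩
  show y - latt L (-n) ∈ cell L
  rw [latt_neg, sub_neg_eq_add, ← hn]
  exact sec_mem_cell L _

lemma disjoint_cellAt (L : ℝ) [hL : Fact (0 < L)] :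
    Pairwise (Function.onFun Disjoint (cellAt L)) := by
  intro n k hnk
  rw [Function.onFun, Set.disjoint_left]
  intro y h1 h2
  apply hnk
  ext a
  have a1 := h1 a
  have a2 := h2 a
  simp only [PiLp.sub_apply, latt_apply, Set.mem_Ioc] at a1 a2
  have hL0 := hL.out
  have b1 : ((n a : ℝ) - k a) < 1 := by
    by_contra hcon
    push Not at hcon
    nlinarith [a1.1, a2.2]
  have b2 : ((k a : ℝ) - n a) < 1 := by
    by_contra hcon
    push Not at hcon
    nlinarith [a1.2, a2.1]
  have c1 : n a - k a < 1 := by exact_mod_cast b1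
  have c2 : k a - n a < 1 := by exact_mod_cast b2
  omega

lemma preimage_cellAt (L : ℝ) (n : Fin 3 → ℤ) :
    (fun x : E3 => x + latt L n) ⁻¹' (cellAt L n) = cell L := by
  ext x; simp [cellAt]

lemma setIntegral_shift (n : Fin 3 → ℤ) {α : Type*} [NormedAddCommGroup α] [NormedSpace ℝ α]
    (F : E3 → α) : ∫ x in cell L, F (x + latt L n) = ∫ x in cellAt L n, F x := by
  have := (measurePreserving_add_right (volume : Measure E3) (latt L n)).setIntegral_preimage_emb
    (measurableEmbedding_addRight _) F (cellAt L n)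
  rw [preimage_cellAt] at this
  exact this

lemma setLIntegral_shift (n : Fin 3 → ℤ)
    (F : E3 → ℝ≥0∞) : ∫⁻ x in cell L, F (x + latt L n) = ∫⁻ x in cellAt L n, F x := by
  have := (measurePreserving_add_right (volume : Measure E3)
    (latt L n)).setLIntegral_comp_preimage_emb
    (measurableEmbedding_addRight _) F (cellAt L n)
  rw [preimage_cellAt] at this
  exact this

lemma integrableOn_perPot [hL : Fact (0 < L)] (hv0 : ∀ x, 0 ≤ v x) (hvm : Measurable v)
    (hv : Integrable v) : IntegrableOn (perPot v L) (cell L) := by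
  refine ⟨(measurable_perPot hv0 hvm L).aestronglyMeasurable, ?_⟩
  have h1 : ∫⁻ x in cell L, ∑' n : Fin 3 → ℤ, ENNReal.ofReal (v (x + latt L n)) =
      ∫⁻ x, ENNReal.ofReal (v x) := by
    rw [lintegral_tsum]
    · simp_rw [setLIntegral_shift (L := L) _ (fun x => ENNReal.ofReal (v x))]
      rw [← lintegral_iUnion (measurableSet_cellAt L) (disjoint_cellAt L), iUnion_cellAt,
        Measure.restrict_univ]
    · intro n
      exact (hvm.comp (by fun_prop)).ennreal_ofReal.aemeasurable
  have h2 : ∫⁻ x, ENNReal.ofReal (v x) < ∞ := by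
    have := hv.2
    rw [hasFiniteIntegral_iff_ofReal (Filter.Eventually.of_forall hv0)] at this
    exact this
  calc ∫⁻ x in cell L, ‖perPot v L x‖ₑ
      ≤ ∫⁻ x in cell L, ∑' n : Fin 3 → ℤ, ENNReal.ofReal (v (x + latt L n)) := by
        apply lintegral_mono
        intro x
        simp only
        rw [Real.enorm_eq_ofReal (perPot_nonneg hv0 L x), perPot_eq hv0]
        exact ENNReal.ofReal_toReal_le
    _ < ∞ := by rw [h1]; exact h2

lemma integrable_perPot [hL : Fact (0 < L)] (hv0 : ∀ x, 0 ≤ v x) (hvm : Measurable v)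
    (hv : Integrable v) : Integrable (perPot v L) (unif L) := by
  rw [← integrable_unif]; exact integrableOn_perPot hv0 hvm hv

/-- unfolding -/
theorem unfold_integral [hL : Fact (0 < L)] (hv : Integrable v) (g : E3 → ℂ) (hg : Continuous g)
    (hgn : ∀ x, ‖g x‖ = 1) (hgp : ∀ x n, g (x + latt L n) = g x) :
    ∫ x in cell L, (perPot v L x : ℂ) * g x = ∫ x, (v x : ℂ) * g x := by
  have hvi : ∀ n : Fin 3 → ℤ, Integrable (fun x => v (x + latt L n)) (volume.restrict (cell L)) :=
    fun n => (hv.comp_add_right (latt L n)).integrableOn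
  have hF : ∀ n : Fin 3 → ℤ, Integrable (fun x => (v (x + latt L n) : ℂ) * g x)
      (volume.restrict (cell L)) :=
    fun n => integrable_ch_mul (hvi n) g hg.aestronglyMeasurable hgn
  have hS : Summable fun n : Fin 3 → ℤ =>
      ∫ x in cell L, ‖(v (x + latt L n) : ℂ) * g x‖ := by
    have h1 := (hasSum_integral_iUnion (f := fun x => ‖v x‖) (μ := volume)
      (measurableSet_cellAt L) (disjoint_cellAt L) hv.norm.integrableOn).summable
    refine h1.congr ?_
    intro n
    rw [← setIntegral_shift (L := L) n (fun x => ‖v x‖)]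
    apply integral_congr_ae
    filter_upwards with x
    rw [norm_mul, hgn, mul_one, Complex.norm_real]
  have h2 := integral_tsum_of_summable_integral_norm hF hS
  have h3 : ∀ x, ∑' n : Fin 3 → ℤ, (v (x + latt L n) : ℂ) * g x = (perPot v L x : ℂ) * g x := by
    intro x
    rw [tsum_mul_right, perPot, Complex.ofReal_tsum]
  simp_rw [h3] at h2
  rw [← h2]
  have h4 : ∀ n : Fin 3 → ℤ, ∫ x in cell L, (v (x + latt L n) : ℂ) * g x =
      ∫ x in cellAt L n, (v x : ℂ) * g x := by
    intro n
    rw [← setIntegral_shift (L := L) n (fun x => (v x : ℂ) * g x)]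
    simp_rw [hgp]
  simp_rw [h4]
  have hvg : Integrable (fun x => (v x : ℂ) * g x) :=
    integrable_ch_mul hv g hg.aestronglyMeasurable hgn
  rw [← integral_iUnion (measurableSet_cellAt L) (disjoint_cellAt L) hvg.integrableOn,
    iUnion_cellAt, Measure.restrict_univ]

/-- Fourier coefficient of the periodized potential -/
def coef (v : E3 → ℝ) (L : ℝ) (p : Fin 3 → ℤ) : ℂ := ∫ x, (perPot v L x : ℂ) * ch L p x ∂(unif L)

/-- the frequency `p / L` -/
def frq (L : ℝ) (p : Fin 3 → ℤ) : E3 := WithLp.toLp 2 (fun a => (p a : ℝ) / L)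

@[simp] lemma frq_apply (L : ℝ) (p : Fin 3 → ℤ) (a : Fin 3) : frq L p a = (p a : ℝ) / L := rfl

/-- the Fourier transform of `v` -/
abbrev vhat (v : E3 → ℝ) : E3 → ℂ := 𝓕 (fun x => (v x : ℂ))

theorem coef_eq [hL : Fact (0 < L)] (hv : Integrable v) (p : Fin 3 → ℤ) :
    coef v L p = ((L ^ 3)⁻¹ : ℝ) * conj (vhat v (frq L p)) := by
  rw [coef, integral_unif, unfold_integral hv _ (continuous_ch p) (norm_ch p) (ch_periodic p),
    Complex.real_smul]
  congr 1
  rw [vhat, Real.fourier_eq', ← integral_conj]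
  apply integral_congr_ae
  filter_upwards with x
  rw [smul_eq_mul, map_mul, Complex.conj_ofReal, ← Complex.exp_conj, map_mul, Complex.conj_ofReal,
    Complex.conj_I, mul_comm]
  congr 1
  unfold ch ph
  congr 1
  have : inner ℝ x (frq L p) = (∑ a, (p a : ℝ) * x a) / L := by
    rw [PiLp.inner_apply, Finset.sum_div]
    apply Finset.sum_congr rfl
    intro a _
    simp only [RCLike.inner_apply, conj_trivial, frq_apply]
    ring
  rw [this]
  push_cast
  ring

end H47.SE
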