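import Pool.Agent.H47.SE.Limit
import Pool.Agent.H47.SE.L2Bound

/-! High density comparison for square integrable potentials of positive type. -/

open MeasureTheory ProbabilityTheory FourierTransform Filter
open scoped ENNReal NNReal Real ComplexConjugate Topology

noncomputable section

namespace H47.SE

variable {v : E3 → ℝ}

lemma ocube_mono {a b : ℝ} (h : a ≤ b) : ocube a ⊆ ocube b := by
  intro x hx c
  have := hx c
  constructor <;> linarith [this.1, this.2]

lemma mem_ocube_of_norm {x : E3} {k : ℝ} (h : ‖x‖ < k) : x ∈ ocube k := by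
  intro a
  have h1 : |x a| ≤ ‖x‖ := by
    have := PiLp.norm_apply_le x a
    rwa [Real.norm_eq_abs] at this
  rw [abs_le] at h1
  constructor <;> linarith [h1.1, h1.2]

/-- strict inequality of the second order coefficients -/
theorem exists_cube (hv0 : ∀ x, 0 ≤ v x) (hv : Integrable v) (hv2 : MemLp v 2)
    (him : ∀ ξ, (vhat v ξ).im = 0) (hre : ∀ ξ, 0 ≤ (vhat v ξ).re) (hI : 0 < ∫ x, v x) :
    ∃ k > 0, (∫ x, v x ^ 2) < (∫ x, v x) * ∫ x in ocube k, (vhat v x).re := by
  set I := ∫ x, v x with hIdef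
  set S := ∫ x, v x ^ 2 with hS
  set V : E3 → ℝ := fun x => (vhat v x).re with hV
  have hVc : Continuous V := Complex.continuous_re.comp (continuous_fourier _ hv.ofReal)
  have hVle : ∀ x, V x ≤ I := fun x => re_vhat_le hv0 x
  obtain ⟨i1, i2⟩ := plancherel_real v hv hv2
  have hsq : ∀ x, ‖vhat v x‖ ^ 2 = V x ^ 2 := by
    intro x
    rw [← Complex.normSq_eq_norm_sq, Complex.normSq_apply, him]
    simp only [hV]; ring
  have i1' : Integrable (fun x => V x ^ 2) := by
    refine i1.congr ?_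
    filter_upwards with x using hsq x
  have i2' : ∫ x, V x ^ 2 = S := by
    rw [hS, ← i2]
    congr 1; ext x; rw [← hsq x]
  -- a point with value `I / 2`
  obtain ⟨ξ1, h1⟩ : ∃ ξ, V ξ = I / 2 := by
    have ha : ∃ a, V a ≤ I / 2 := by
      by_contra hcon
      push Not at hcon
      have hc : Integrable (fun _ : E3 => (I / 2) ^ 2) := by
        refine Integrable.mono' i1' aestronglyMeasurable_const ?_
        filter_upwards with x
        rw [Real.norm_eq_abs, abs_of_nonneg (by positivity)]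
        exact pow_le_pow_left₀ (by positivity) (hcon x).le 2
      rw [integrable_const_iff] at hc
      rcases hc with hc | hc
      · have : (I / 2) ^ 2 ≠ 0 := by positivity
        exact this hc
      · have h2 := hc.measure_univ_lt_top
        simp at h2
    have hb : ∃ b, I / 2 ≤ V b := by
      refine ⟨0, ?_⟩
      simp only [hV]
      rw [vhat_zero, Complex.ofReal_re]
      linarith
    exact mem_range_of_exists_le_of_exists_ge hVc ha hb
  -- the function `h = (I - V) V`
  set h : E3 → ℝ := fun x => (I - V x) * V x with hh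
  have hhc : Continuous h := (continuous_const.sub hVc).mul hVc
  have hh0 : ∀ x, 0 ≤ h x := fun x => mul_nonneg (by linarith [hVle x]) (hre x)
  have hh1 : h ξ1 = I ^ 2 / 4 := by simp only [hh, h1]; ring
  set k0 := ‖ξ1‖ + 1 with hk0
  have hk0pos : 0 < k0 := by positivity
  have hloc : ∀ (g : E3 → ℝ), Continuous g → ∀ k, IntegrableOn g (ocube k) := by
    intro g hg k
    have : ocube k ⊆ Metric.closedBall (0 : E3) (|k| * 3) := by
      intro x hx
      rw [mem_closedBall_zero_iff, EuclideanSpace.norm_eq]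
      have h1 : ∀ a, ‖x a‖ ^ 2 ≤ |k| ^ 2 := by
        intro a
        have h2 : |x a| ≤ |k| := by
          rw [abs_le]
          have := hx a
          constructor
          · linarith [le_abs_self k, this.1]
          · linarith [le_abs_self k, this.2]
        rw [Real.norm_eq_abs]
        exact pow_le_pow_left₀ (abs_nonneg _) h2 2
      calc √(∑ a, ‖x a‖ ^ 2) ≤ √((|k| * 3) ^ 2) := by
            apply Real.sqrt_le_sqrt
            calc ∑ a, ‖x a‖ ^ 2 ≤ ∑ _a : Fin 3, |k| ^ 2 := Finset.sum_le_sum fun a _ => h1 a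
              _ = 3 * |k| ^ 2 := by simp
              _ ≤ (|k| * 3) ^ 2 := by nlinarith [sq_nonneg |k|]
        _ = |k| * 3 := Real.sqrt_sq (by positivity)
    exact (hg.continuousOn.integrableOn_compact (isCompact_closedBall _ _)).mono_set this
  have hcpos : 0 < ∫ x in ocube k0, h x := by
    rw [setIntegral_pos_iff_support_of_nonneg_ae (Eventually.of_forall hh0) (hloc h hhc k0)]
    have hopen : IsOpen (Function.support h ∩ Metric.ball (0 : E3) k0) :=
      (hhc.isOpen_support).inter Metric.isOpen_ball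
    have hne : (Function.support h ∩ Metric.ball (0 : E3) k0).Nonempty := by
      refine ⟨ξ1, ?_, ?_⟩
      · rw [Function.mem_support, hh1]; positivity
      · rw [mem_ball_zero_iff, hk0]; linarith
    refine lt_of_lt_of_le (hopen.measure_pos volume hne) (measure_mono ?_)
    rintro x ⟨hx1, hx2⟩
    rw [mem_ball_zero_iff] at hx2
    exact ⟨hx1, mem_ocube_of_norm hx2⟩
  set c := ∫ x in ocube k0, h x with hc
  -- convergence of `∫ V²` over cubes
  have hconv : Tendsto (fun n : ℕ => ∫ x in ocube (n : ℝ), V x ^ 2) atTop (𝓝 S) := by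
    rw [← i2']
    have hU : ⋃ n : ℕ, ocube (n : ℝ) = Set.univ := by
      rw [Set.eq_univ_iff_forall]
      intro x
      obtain ⟨n, hn⟩ := exists_nat_gt ‖x‖
      exact Set.mem_iUnion.mpr ⟨n, mem_ocube_of_norm hn⟩
    have := tendsto_setIntegral_of_monotone (f := fun x => V x ^ 2) (μ := volume)
      (s := fun n : ℕ => ocube (n : ℝ)) (fun n => measurableSet_ocube _)
      (fun a b hab => ocube_mono (by exact_mod_cast hab)) (by rw [hU]; exact i1'.integrableOn)
    rw [hU, Measure.restrict_univ] at this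
    exact this
  have h5 : ∀ᶠ n : ℕ in atTop, S - c / 2 < ∫ x in ocube (n : ℝ), V x ^ 2 :=
    hconv.eventually (lt_mem_nhds (by linarith))
  obtain ⟨n, hn1, hn2⟩ := (h5.and (eventually_ge_atTop ⌈k0⌉₊)).exists
  have hkn : k0 ≤ n := (Nat.le_ceil k0).trans (by exact_mod_cast hn2)
  refine ⟨n, by linarith, ?_⟩
  have h6 : c ≤ ∫ x in ocube (n : ℝ), h x :=
    setIntegral_mono_set (hloc h hhc n) (Eventually.of_forall hh0)
      (Eventually.of_forall (ocube_mono hkn))
  have h7 : I * ∫ x in ocube (n : ℝ), V x = (∫ x in ocube (n : ℝ), h x) +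
      ∫ x in ocube (n : ℝ), V x ^ 2 := by
    have j1 : IntegrableOn (fun x => V x ^ 2) (ocube (n : ℝ)) := hloc _ (hVc.pow 2) n
    have j2 := integral_add (hloc h hhc n) j1
    rw [← integral_const_mul, ← j2]
    congr 1; ext x; simp only [hh]; ring
  rw [h7]
  linarith

/-- elementary choice of the parameters -/
lemma tendsto_const_div (k Y : ℝ) :
    Tendsto (fun K : ℝ => ((K - k) / K) ^ 6 * Y) atTop (𝓝 Y) := by
  have h1 : Tendsto (fun K : ℝ => 1 - k * K⁻¹) atTop (𝓝 (1 - k * 0)) :=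
    (tendsto_inv_atTop_zero.const_mul k).const_sub 1
  have h2 : Tendsto (fun K : ℝ => (K - k) / K) atTop (𝓝 (1 - k * 0)) := by
    apply h1.congr'
    filter_upwards [eventually_gt_atTop 0] with K hK
    field_simp
  have h3 := (h2.pow 6).mul_const Y
  simpa using h3

lemma tendsto_log_div (lam : ℝ) :
    Tendsto (fun n : ℕ => (1 + Real.log n) / (lam * n)) atTop (𝓝 0) := by
  have h1 : Tendsto (fun x : ℝ => Real.log x / x) atTop (𝓝 0) := by
    have := Real.tendsto_pow_log_div_mul_add_atTop 1 0 1 (by norm_num)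
    simpa using this
  have h2 : Tendsto (fun x : ℝ => lam⁻¹ * (x⁻¹ + Real.log x / x)) atTop (𝓝 (lam⁻¹ * (0 + 0))) :=
    (tendsto_inv_atTop_zero.add h1).const_mul _
  rw [add_zero, mul_zero] at h2
  refine (h2.comp tendsto_natCast_atTop_atTop).congr ?_
  intro n
  simp only [Function.comp]
  by_cases hn : (n : ℝ) = 0
  · simp [hn]
  by_cases hl : lam = 0
  · simp [hl]
  field_simp

/-- high density comparison for square integrable potentials of positive type -/
theorem main_postype {m0 : ℝ} (hm0 : 0 < m0) (hv0 : ∀ x, 0 ≤ v x) (hvm : Measurable v)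
    (hv : Integrable v) (hv2 : MemLp v 2) (hI : 0 < ∫ x, v x)
    (him : ∀ ξ, (vhat v ξ).im = 0) (hre : ∀ ξ, 0 ≤ (vhat v ξ).re) :
    ∃ ρ0 > 0, ∃ c > 0, ∀ m ≥ m0, ∀ ρ ≥ ρ0, ∀ u e, IsSimpleSolution m v ρ u e →
      ∀ (E : ℕ → ℝ) (e0 : ℝ),
      (∀ N, 0 < N → E N ≤ groundEnergy m (perPot v (side ρ N)) N (side ρ N)) →
      Tendsto (fun N : ℕ => E N / N) atTop (𝓝 e0) → e0 + c ≤ e := by
  obtain ⟨k, hk, hkI⟩ := exists_cube hv0 hv hv2 him hre hI
  set I := ∫ x, v x with hIdef
  set S := ∫ x, v x ^ 2 with hS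
  set Y := ∫ x in ocube k, (vhat v x).re with hY
  have hS0 : 0 ≤ S := integral_nonneg fun x => by positivity
  set B := S / I with hB
  have hBY : B < Y := by
    rw [hB, div_lt_iff₀ hI]; linarith [mul_comm I Y]
  have hB0 : 0 ≤ B := by positivity
  have hY0 : 0 < Y := by linarith
  set ε := (Y - B) / 8 with hε
  have hε0 : 0 < ε := by rw [hε]; linarith
  -- `K`
  have hK1 : ∀ᶠ K : ℝ in atTop, Y - ε < ((K - k) / K) ^ 6 * Y :=
    (tendsto_const_div k Y).eventually (lt_mem_nhds (by linarith))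
  obtain ⟨K, hKY, hkK⟩ := (hK1.and (eventually_ge_atTop k)).exists
  have hK0 : 0 < K := lt_of_lt_of_le hk hkK
  set Y1 := ((K - k) / K) ^ 6 * Y with hY1
  have hY10 : 0 ≤ Y1 := by
    have : 0 ≤ (K - k) / K := div_nonneg (by linarith) hK0.le
    positivity
  -- `r0`
  have hr1 : Tendsto (fun s : ℝ => (1 - (6 * π * k * s) ^ 2 / 2) ^ 2 * Y1) (𝓝 0)
      (𝓝 ((1 - (6 * π * k * 0) ^ 2 / 2) ^ 2 * Y1)) := by
    apply Continuous.tendsto
    fun_prop
  have hr2 : Tendsto (fun s : ℝ => 1 - (6 * π * k * s) ^ 2 / 2) (𝓝 0)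
      (𝓝 (1 - (6 * π * k * 0) ^ 2 / 2)) := by
    apply Continuous.tendsto
    fun_prop
  have hr3 : ∀ᶠ s : ℝ in 𝓝 0, Y1 - ε < (1 - (6 * π * k * s) ^ 2 / 2) ^ 2 * Y1 :=
    hr1.eventually (lt_mem_nhds (by simp; linarith))
  have hr4 : ∀ᶠ s : ℝ in 𝓝 0, 0 < 1 - (6 * π * k * s) ^ 2 / 2 :=
    hr2.eventually (lt_mem_nhds (by simp))
  obtain ⟨r0, hr0, hr5⟩ := Metric.eventually_nhds_iff.mp (hr3.and hr4)
  -- `lam`
  set D := 3 * (2 * π * K) ^ 2 * (I * K ^ 3) with hD
  have hD0 : 0 < D := by positivity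
  set lam := ε / 2 * (8 * m0) / D with hlam
  have hlam0 : 0 < lam := by positivity
  have hlamD : lam / (8 * m0) * D = ε / 2 := by
    rw [hlam]; field_simp
  -- `n`
  have hn1 : ∀ᶠ n : ℕ in atTop, (1 + Real.log n) / (lam * n) < ε / 2 :=
    (tendsto_log_div lam).eventually (gt_mem_nhds (by linarith))
  obtain ⟨n1, hn1⟩ := eventually_atTop.mp hn1
  -- `δ`
  have hd1 : Tendsto (fun δ : ℝ => S / (I - δ)) (𝓝 0) (𝓝 (S / (I - 0))) := by
    apply Tendsto.div tendsto_const_nhds (tendsto_const_nhds.sub tendsto_id)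
    rw [sub_zero]; exact hI.ne'
  have hd2 : ∀ᶠ δ : ℝ in 𝓝 0, S / (I - δ) < B + ε :=
    hd1.eventually (gt_mem_nhds (by rw [sub_zero]; linarith))
  obtain ⟨δ0, hδ0, hδ1⟩ := Metric.eventually_nhds_iff.mp hd2
  set δ := min (δ0 / 2) (I / 2) with hδ
  have hδpos : 0 < δ := lt_min (by linarith) (by linarith)
  have hδI : δ < I := lt_of_le_of_lt (min_le_right _ _) (by linarith)
  have hδS : S / (I - δ) < B + ε := by
    apply hδ1
    rw [Real.dist_eq, sub_zero, abs_of_pos hδpos]
    exact lt_of_le_of_lt (min_le_left _ _) (by linarith)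
  obtain ⟨ρ1, hρ1, hsmall⟩ := integral_uv_small hv hv0 hI δ hδpos
  set r1 := r0 / 2 with hr1def
  have hr1pos : 0 < r1 := by rw [hr1def]; linarith
  refine ⟨max ρ1 (((n1 : ℝ) + 1) / r1 ^ 3), lt_max_of_lt_left hρ1, ε, hε0, ?_⟩
  intro m hmm ρ hρ u e hu E e0 hE he0
  have hm : 0 < m := lt_of_lt_of_le hm0 hmm
  have hρ1' : ρ1 ≤ ρ := (le_max_left _ _).trans hρ
  have hρ2' : ((n1 : ℝ) + 1) / r1 ^ 3 ≤ ρ := (le_max_right _ _).trans hρ
  have hρ0 : 0 < ρ := lt_of_lt_of_le hρ1 hρ1'
  -- lower bound of `e`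
  have huv := hsmall m hm ρ hρ1' u e hu
  have he_eq := energy_eq hu hv
  have he_pos := e_pos hu hm hρ0 hv hv0 hI
  have he1 : ρ / 2 * (I - δ) ≤ e := by
    rw [he_eq]
    apply mul_le_mul_of_nonneg_left _ (by positivity)
    linarith
  have he2 := integral_uv_le hu hm hρ0 hv hv0 hI hv2
  have hIδ : 0 < I - δ := by linarith
  have he3 : ∫ x, u x * v x ≤ S / (ρ * (I - δ)) := by
    refine he2.trans ?_
    apply div_le_div_of_nonneg_left hS0 (by positivity)
    linarith
  have he4 : ρ / 2 * I - S / (I - δ) / 2 ≤ e := by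
    rw [he_eq]
    have h1 : ρ / 2 * (I - S / (ρ * (I - δ))) ≤ ρ / 2 * (I - ∫ x, u x * v x) := by
      apply mul_le_mul_of_nonneg_left _ (by positivity)
      linarith
    have h2 : ρ / 2 * (I - S / (ρ * (I - δ))) = ρ / 2 * I - S / (I - δ) / 2 := by
      field_simp
    linarith
  -- upper bound of `e0`
  set n := ⌊ρ * r1 ^ 3⌋₊ with hn
  have hn2 : n1 + 1 ≤ n := by
    apply Nat.le_floor
    push_cast
    rwa [div_le_iff₀ (by positivity)] at hρ2'
  have hn3 : (n : ℝ) ≤ ρ * r1 ^ 3 := Nat.floor_le (by positivity)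
  have hside : side ρ n ≤ r1 := by
    have h1 : side ρ n ^ 3 ≤ r1 ^ 3 := by
      rw [side_pow hρ0, div_le_iff₀ hρ0]; linarith [mul_comm ρ (r1 ^ 3)]
    exact le_of_pow_le_pow_left₀ (by norm_num) hr1pos.le h1
  have hside0 : 0 < side ρ n := side_pos hρ0 (by omega)
  obtain ⟨hr6, hr7⟩ := hr5 (y := side ρ n) (by
    rw [Real.dist_eq, sub_zero, abs_of_pos hside0]; linarith)
  have hup := limit_postype (n := n) hm hv0 hvm hv him hre hρ0 (by omega) hk hkK hr7.le hlam0 hE he0
  rw [← hIdef, ← hD, ← hY] at hup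
  have hlamm : lam / (8 * m) * D ≤ ε / 2 := by
    rw [← hlamD]
    apply mul_le_mul_of_nonneg_right _ hD0.le
    apply div_le_div_of_nonneg_left hlam0.le (by positivity)
    linarith
  have hn4 := hn1 n (by omega)
  have h8 : ((K - k) / K) ^ 6 * (1 - (6 * π * k * side ρ n) ^ 2 / 2) ^ 2 * Y =
      (1 - (6 * π * k * side ρ n) ^ 2 / 2) ^ 2 * Y1 := by rw [hY1]; ring
  rw [h8] at hup
  have h9 : Y = B + 8 * ε := by rw [hε]; ring
  nlinarith

end H47.SE
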