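import Pool.Agent.H47.SE.PerPot

/-! Riemann sums over the lattice `(1/L) ℤ³`. -/

open MeasureTheory Filter
open scoped ENNReal NNReal Real Topology

noncomputable section

namespace H47.SE

/-- integer part of `L x` -/
def nfl (L : ℝ) (x : E3) : Fin 3 → ℤ := fun a => ⌊L * x a⌋

lemma volume_nfl {L : ℝ} (hL : 0 < L) (p : Fin 3 → ℤ) :
    MeasurableSet {x : E3 | nfl L x = p} ∧
      volume.real {x : E3 | nfl L x = p} = (L ^ 3)⁻¹ := by
  have h1 := EuclideanSpace.volume_preserving_symm_measurableEquiv_toLp (Fin 3)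
  set S : Set (Fin 3 → ℝ) := Set.pi Set.univ (fun a : Fin 3 =>
    Set.Ico ((p a : ℝ) / L) (((p a : ℝ) + 1) / L)) with hS
  have hs : MeasurableSet S := MeasurableSet.univ_pi fun _ => measurableSet_Ico
  have h3 : (⇑(MeasurableEquiv.toLp 2 (Fin 3 → ℝ)).symm) ⁻¹' S = {x : E3 | nfl L x = p} := by
    ext x
    simp only [hS, Set.mem_preimage, Set.mem_pi, Set.mem_univ, true_imp_iff, Set.mem_Ico,
      Set.mem_ofPred_eq]
    constructor
    · intro h
      ext a
      change ⌊L * x a⌋ = p a
      rw [Int.floor_eq_iff]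
      have : (p a : ℝ) / L ≤ x a ∧ x a < ((p a : ℝ) + 1) / L := h a
      rw [div_le_iff₀ hL, lt_div_iff₀ hL] at this
      constructor
      · linarith [this.1, mul_comm L (x a)]
      · linarith [this.2, mul_comm L (x a)]
    · intro h a
      have : ⌊L * x a⌋ = p a := congrFun h a
      rw [Int.floor_eq_iff] at this
      change (p a : ℝ) / L ≤ x a ∧ x a < ((p a : ℝ) + 1) / L
      rw [div_le_iff₀ hL, lt_div_iff₀ hL]
      constructor
      · have := this.1
        calc (p a : ℝ) ≤ L * x a := this
          _ = _ := mul_comm _ _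
      · have := this.2
        calc _ = L * x a := mul_comm _ _
          _ < _ := this
  constructor
  · rw [← h3]; exact h1.measurable hs
  · rw [← h3, Measure.real, h1.measure_preimage hs.nullMeasurableSet, hS, volume_pi_pi]
    simp only [Real.volume_Ico]
    rw [ENNReal.toReal_prod]
    have : ∀ a : Fin 3, (ENNReal.ofReal (((p a : ℝ) + 1) / L - (p a : ℝ) / L)).toReal = L⁻¹ := by
      intro a
      have : ((p a : ℝ) + 1) / L - (p a : ℝ) / L = L⁻¹ := by field_simp; ring
      rw [this, ENNReal.toReal_ofReal (by positivity)]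
    rw [Finset.prod_congr rfl (fun a _ => this a)]
    simp

/-- frequencies in a cube -/
def cubeP (P : ℕ) : Finset (Fin 3 → ℤ) :=
  Fintype.piFinset (fun _ => Finset.Ioo (-(P : ℤ)) (P : ℤ))

lemma mem_cubeP {P : ℕ} {p : Fin 3 → ℤ} : p ∈ cubeP P ↔ ∀ a, -(P : ℤ) < p a ∧ p a < (P : ℤ) := by
  simp [cubeP, Fintype.mem_piFinset]

/-- the open cube -/
def ocube (k : ℝ) : Set E3 := {x | ∀ a, -k < x a ∧ x a < k}

lemma measurableSet_ocube (k : ℝ) : MeasurableSet (ocube k) := by
  have : ocube k = ⋂ a, (fun x : E3 => x a) ⁻¹' (Set.Ioo (-k) k) := by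
    ext x; simp [ocube]
  rw [this]
  exact MeasurableSet.iInter fun a => (measurableSet_Ioo).preimage (by fun_prop)

lemma volume_ocube_lt_top (k : ℝ) : volume (ocube k) < ∞ := by
  have : ocube k ⊆ Metric.closedBall (0 : E3) (|k| * 3) := by
    intro x hx
    rw [mem_closedBall_zero_iff, EuclideanSpace.norm_eq]
    have h1 : ∀ a, ‖x a‖ ^ 2 ≤ |k| ^ 2 := by
      intro a
      have h2 : |x a| ≤ |k| := by
        rw [abs_le]
        have := hx a
        constructor
        · linarith [le_abs_self k, this.1]
        · linarith [le_abs_self k, this.2]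
      rw [Real.norm_eq_abs]
      exact pow_le_pow_left₀ (abs_nonneg _) h2 2
    calc √(∑ a, ‖x a‖ ^ 2) ≤ √((|k| * 3) ^ 2) := by
          apply Real.sqrt_le_sqrt
          calc ∑ a, ‖x a‖ ^ 2 ≤ ∑ _a : Fin 3, |k| ^ 2 := Finset.sum_le_sum fun a _ => h1 a
            _ = 3 * |k| ^ 2 := by simp
            _ ≤ (|k| * 3) ^ 2 := by nlinarith [sq_nonneg |k|]
      _ = |k| * 3 := Real.sqrt_sq (by positivity)
  exact (measure_mono this).trans_lt (Metric.isBounded_closedBall.measure_lt_top)

lemma tendsto_floor_div (b : ℝ) : Tendsto (fun L : ℝ => (⌊L * b⌋ : ℝ) / L) atTop (𝓝 b) := by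
  have h1 : Tendsto (fun L : ℝ => b - 1 / L) atTop (𝓝 (b - 0)) := by
    apply Tendsto.sub tendsto_const_nhds
    exact tendsto_inv_atTop_zero.congr (fun L => (one_div L).symm)
  rw [sub_zero] at h1
  apply tendsto_of_tendsto_of_tendsto_of_le_of_le' h1 tendsto_const_nhds
  · filter_upwards [eventually_gt_atTop 0] with L hL
    have := Int.sub_one_lt_floor (L * b)
    rw [le_div_iff₀ hL, sub_mul, one_div, inv_mul_cancel₀ hL.ne']
    linarith [mul_comm L b]
  · filter_upwards [eventually_gt_atTop 0] with L hL
    have := Int.floor_le (L * b)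
    rw [div_le_iff₀ hL]
    linarith [mul_comm L b]

lemma tendsto_frq_nfl (x : E3) : Tendsto (fun L : ℝ => frq L (nfl L x)) atTop (𝓝 x) := by
  have h1 : Tendsto (fun L : ℝ => (fun a => ((nfl L x a : ℤ) : ℝ) / L)) atTop
      (𝓝 (fun a => x a)) := by
    rw [tendsto_pi_nhds]
    intro a
    exact tendsto_floor_div (x a)
  have h2 := ((PiLp.continuous_toLp 2 (fun _ : Fin 3 => ℝ)).tendsto (fun a => x a)).comp h1
  exact h2

/-- convergence of Riemann sums -/
theorem tendsto_riemann (g : E3 → ℝ) (hg : Continuous g) (C : ℝ) (hC : ∀ x, |g x| ≤ C) (k : ℝ)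
    (hk : 0 < k) :
    Tendsto (fun L : ℝ => (L ^ 3)⁻¹ * ∑ p ∈ cubeP ⌊k * L⌋₊, g (frq L p)) atTop
      (𝓝 (∫ x in ocube k, g x)) := by
  have hC0 : 0 ≤ C := (abs_nonneg _).trans (hC 0)
  -- the sum as an integral
  set F : ℝ → E3 → ℝ := fun L x => ∑ p ∈ cubeP ⌊k * L⌋₊,
    Set.indicator {x : E3 | nfl L x = p} (fun _ => g (frq L p)) x with hF
  have h1 : ∀ L > 0, (L ^ 3)⁻¹ * ∑ p ∈ cubeP ⌊k * L⌋₊, g (frq L p) = ∫ x, F L x := by
    intro L hL
    rw [hF]
    simp only
    rw [integral_finsetSum]
    · rw [Finset.mul_sum]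
      apply Finset.sum_congr rfl; intro p _
      obtain ⟨a1, a2⟩ := volume_nfl hL p
      rw [integral_indicator_const _ a1, a2, smul_eq_mul]
    · intro p _
      obtain ⟨a1, a2⟩ := volume_nfl hL p
      rw [integrable_indicator_iff a1]
      refine integrableOn_const (fun hcon => ?_) (by simp)
      rw [Measure.real, hcon] at a2
      simp only [ENNReal.toReal_top] at a2
      have : 0 < (L ^ 3)⁻¹ := by positivity
      linarith
  have hval : ∀ L x, F L x = if nfl L x ∈ cubeP ⌊k * L⌋₊ then g (frq L (nfl L x)) else 0 := by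
    intro L x
    rw [hF]
    simp only [Set.indicator_apply, Set.mem_ofPred_eq]
    rw [Finset.sum_ite_eq]
  have h2 : Tendsto (fun L : ℝ => ∫ x, F L x) atTop (𝓝 (∫ x, (ocube k).indicator g x)) := by
    apply tendsto_integral_filter_of_dominated_convergence ((ocube k).indicator (fun _ => C))
    · filter_upwards [eventually_gt_atTop 0] with L hL
      rw [hF]
      apply Measurable.aestronglyMeasurable
      apply Finset.measurable_fun_sum
      intro p _
      exact measurable_const.indicator (volume_nfl hL p).1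
    · filter_upwards [eventually_gt_atTop 0] with L hL
      filter_upwards with x
      rw [hval, Real.norm_eq_abs]
      by_cases hx : x ∈ ocube k
      · rw [Set.indicator_of_mem hx]
        split_ifs
        · exact hC _
        · rw [abs_zero]; exact hC0
      · rw [Set.indicator_of_notMem hx, if_neg, abs_zero]
        intro hmem
        apply hx
        rw [mem_cubeP] at hmem
        intro a
        obtain ⟨b1, b2⟩ := hmem a
        have b3 : (⌊k * L⌋₊ : ℝ) ≤ k * L := Nat.floor_le (by positivity)
        simp only [nfl] at b1 b2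
        constructor
        · have b4 : ((-(⌊k * L⌋₊ : ℤ) : ℤ) : ℝ) < ⌊L * x a⌋ := by exact_mod_cast b1
          push_cast at b4
          have b5 := Int.floor_le (L * x a)
          have b6 : -(k * L) < L * x a := by linarith
          nlinarith
        · have b4 : ⌊L * x a⌋ < (⌊k * L⌋₊ : ℤ) := b2
          rw [Int.floor_lt] at b4
          push_cast at b4
          have b6 : L * x a < k * L := by linarith
          nlinarith
    · rw [integrable_indicator_iff (measurableSet_ocube k)]
      exact integrableOn_const (volume_ocube_lt_top k).ne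
    · filter_upwards with x
      by_cases hx : x ∈ ocube k
      · rw [Set.indicator_of_mem hx]
        have h3 : ∀ᶠ L : ℝ in atTop, nfl L x ∈ cubeP ⌊k * L⌋₊ := by
          have h4 : ∀ a : Fin 3, ∀ᶠ L : ℝ in atTop,
              -((⌊k * L⌋₊ : ℕ) : ℤ) < nfl L x a ∧ nfl L x a < ((⌊k * L⌋₊ : ℕ) : ℤ) := by
            intro a
            have c1 := hx a
            have d1 : 0 < k + x a := by linarith [c1.1]
            have d2 : 0 < k - x a := by linarith [c1.2]
            filter_upwards [eventually_gt_atTop 0, eventually_ge_atTop (3 / (k + x a)),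
              eventually_ge_atTop (3 / (k - x a))] with L hL e1 e2
            rw [div_le_iff₀ d1] at e1
            rw [div_le_iff₀ d2] at e2
            have f1 : k * L < (⌊k * L⌋₊ : ℝ) + 1 := Nat.lt_floor_add_one _
            have f2 := Int.sub_one_lt_floor (L * x a)
            have f3 := Int.floor_le (L * x a)
            change -((⌊k * L⌋₊ : ℕ) : ℤ) < ⌊L * x a⌋ ∧ ⌊L * x a⌋ < ((⌊k * L⌋₊ : ℕ) : ℤ)
            constructor
            · have : ((-((⌊k * L⌋₊ : ℕ) : ℤ) : ℤ) : ℝ) < (⌊L * x a⌋ : ℝ) := by
                push_cast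
                nlinarith
              exact_mod_cast this
            · have : ((⌊L * x a⌋ : ℤ) : ℝ) < (((⌊k * L⌋₊ : ℕ) : ℤ) : ℝ) := by
                push_cast
                nlinarith
              exact_mod_cast this
          have h5 : ∀ᶠ L : ℝ in atTop, ∀ a : Fin 3,
              -((⌊k * L⌋₊ : ℕ) : ℤ) < nfl L x a ∧ nfl L x a < ((⌊k * L⌋₊ : ℕ) : ℤ) :=
            eventually_all.mpr h4
          filter_upwards [h5] with L hL
          rw [mem_cubeP]; exact hL
        have h6 : Tendsto (fun L : ℝ => g (frq L (nfl L x))) atTop (𝓝 (g x)) :=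
          (hg.tendsto x).comp (tendsto_frq_nfl x)
        apply h6.congr'
        filter_upwards [h3] with L hL
        rw [hval, if_pos hL]
      · rw [Set.indicator_of_notMem hx]
        apply tendsto_const_nhds.congr'
        filter_upwards [eventually_gt_atTop 0] with L hL
        rw [hval, if_neg]
        intro hmem
        apply hx
        rw [mem_cubeP] at hmem
        intro a
        obtain ⟨b1, b2⟩ := hmem a
        have b3 : (⌊k * L⌋₊ : ℝ) ≤ k * L := Nat.floor_le (by positivity)
        simp only [nfl] at b1 b2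
        constructor
        · have b4 : ((-(⌊k * L⌋₊ : ℤ) : ℤ) : ℝ) < ⌊L * x a⌋ := by exact_mod_cast b1
          push_cast at b4
          have b5 := Int.floor_le (L * x a)
          have b6 : -(k * L) < L * x a := by linarith
          nlinarith
        · have b4 : ⌊L * x a⌋ < (⌊k * L⌋₊ : ℤ) := b2
          rw [Int.floor_lt] at b4
          push_cast at b4
          have b6 : L * x a < k * L := by linarith
          nlinarith
  rw [integral_indicator (measurableSet_ocube k)] at h2
  apply h2.congr'
  filter_upwards [eventually_gt_atTop 0] with L hL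
  exact (h1 L hL).symm

end H47.SE
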