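import Pool.Agent.H47.SE.Simple

/-! Bounds for solutions of the Simple equation. -/

open MeasureTheory SchwartzMap FourierTransform Laplacian
open scoped ENNReal Real

noncomputable section

namespace H47.SE

variable {m : ℝ} {v : E3 → ℝ} {ρ : ℝ} {u : E3 → ℝ} {e : ℝ}

lemma fourier_zero_eq (f : E3 → ℝ) : 𝓕 (fun x => (f x : ℂ)) (0 : E3) = ((∫ x, f x : ℝ) : ℂ) := by
  rw [Real.fourier_eq]
  simp
  exact integral_complex_ofReal

lemma g_nonneg (h : IsSimpleSolution m v ρ u e) (hv0 : ∀ x, 0 ≤ v x) :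
    ∀ᵐ x, 0 ≤ (1 - u x) * v x := by
  filter_upwards [h.bounds] with x hx
  exact mul_nonneg (by linarith [hx.2]) (hv0 x)

lemma e_nonneg (h : IsSimpleSolution m v ρ u e) (hρ : 0 < ρ) (hv0 : ∀ x, 0 ≤ v x) : 0 ≤ e := by
  rw [h.energy]
  have : 0 ≤ ∫ x, (1 - u x) * v x := integral_nonneg_of_ae (g_nonneg h hv0)
  positivity

lemma e_pos (h : IsSimpleSolution m v ρ u e) (hm : 0 < m) (hρ : 0 < ρ) (hv : Integrable v)
    (hv0 : ∀ x, 0 ≤ v x) (hpos : 0 < ∫ x, v x) : 0 < e := by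
  rcases (e_nonneg h hρ hv0).lt_or_eq with h1 | h1
  · exact h1
  exfalso
  have hg0 : ∫ x, (1 - u x) * v x = 0 := by
    have := h.energy
    rw [← h1] at this
    have h2 := mul_eq_zero.mp this.symm
    rcases h2 with h2 | h2
    · linarith
    · exact h2
  have hgae : (fun x => (1 - u x) * v x) =ᵐ[volume] 0 :=
    (integral_eq_zero_iff_of_nonneg_ae (g_nonneg h hv0) (h.int_g hv)).mp hg0
  set uc : E3 → ℂ := fun x => (u x : ℂ) with huc
  have hu : Integrable uc := h.integrable.ofReal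
  have hFg : ∀ ξ, 𝓕 (fun x => (((1 - u x) * v x : ℝ) : ℂ)) ξ = 0 := by
    intro ξ
    rw [Real.fourier_congr_ae (f₂ := fun _ => (0 : ℂ))]
    · rw [Real.fourier_eq]; simp
    · filter_upwards [hgae] with x hx
      simp only [Pi.zero_apply] at hx
      simp [hx]
  have hz : ∀ ξ : E3, ξ ≠ 0 → 𝓕 uc ξ = 0 := by
    intro ξ hξ
    have := h.fourier_identity hv ξ
    rw [hFg, ← h1] at this
    simp only [Complex.ofReal_zero, mul_zero, zero_mul, sub_zero, add_zero] at this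
    rcases mul_eq_zero.mp this with h3 | h3
    · exfalso
      have h4 : 4 * π ^ 2 * ‖ξ‖ ^ 2 / m = 0 := by exact_mod_cast h3
      have h5 : 0 < ‖ξ‖ := norm_pos_iff.mpr hξ
      have : 0 < 4 * π ^ 2 * ‖ξ‖ ^ 2 / m := by positivity
      linarith
    · exact h3
  have hc := continuous_fourier uc hu
  have h0 : 𝓕 uc 0 = 0 := by
    have hfun : 𝓕 uc = fun _ => 0 := by
      apply Continuous.ae_eq_iff_eq volume hc continuous_const |>.mp
      have : ∀ᵐ ξ : E3, ξ ≠ 0 := by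
        exact Measure.ae_ne volume 0
      filter_upwards [this] with ξ hξ using hz ξ hξ
    rw [hfun]
  rw [huc, fourier_zero_eq] at h0
  have hu0 : ∫ x, u x = 0 := by exact_mod_cast h0
  have huae : u =ᵐ[volume] 0 := by
    refine (integral_eq_zero_iff_of_nonneg_ae ?_ h.integrable).mp hu0
    filter_upwards [h.bounds] with x hx using hx.1
  have : ∫ x, v x = 0 := by
    rw [← hg0]
    apply integral_congr_ae
    filter_upwards [huae] with x hx
    simp only [Pi.zero_apply] at hx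
    simp [hx]
  linarith

lemma integral_u (h : IsSimpleSolution m v ρ u e) (hm : 0 < m) (hρ : 0 < ρ) (hv : Integrable v)
    (hv0 : ∀ x, 0 ≤ v x) (hpos : 0 < ∫ x, v x) : ∫ x, u x = 1 / ρ := by
  have he := e_pos h hm hρ hv hv0 hpos
  have := h.fourier_identity hv 0
  rw [fourier_zero_eq, fourier_zero_eq] at this
  simp only [norm_zero] at this
  have h2 : ∫ x, (1 - u x) * v x = 2 * e / ρ := by
    rw [h.energy]; field_simp
  rw [h2] at this
  have h3 : (4 * π ^ 2 * 0 ^ 2 / m) * (∫ x, u x) =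
      2 * e / ρ - 4 * e * (∫ x, u x) + 2 * e * ρ * (∫ x, u x) ^ 2 := by exact_mod_cast this
  have h4 : 2 * e * ρ * ((∫ x, u x) - 1 / ρ) ^ 2 = 0 := by
    have : 2 * e * ρ * ((∫ x, u x) - 1 / ρ) ^ 2 =
      2 * e / ρ - 4 * e * (∫ x, u x) + 2 * e * ρ * (∫ x, u x) ^ 2 := by field_simp; ring
    rw [this, ← h3]; ring
  have h5 : ((∫ x, u x) - 1 / ρ) ^ 2 = 0 := by
    rcases mul_eq_zero.mp h4 with h6 | h6
    · exfalso
      have : 0 < 2 * e * ρ := by positivity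
      linarith
    · exact h6
  have := pow_eq_zero_iff (two_ne_zero) |>.mp h5
  linarith

/-- the key pointwise bound `|û| ≤ |ĝ| / (2e)` -/
lemma fourier_u_le (h : IsSimpleSolution m v ρ u e) (hm : 0 < m) (hρ : 0 < ρ) (hv : Integrable v)
    (hv0 : ∀ x, 0 ≤ v x) (hpos : 0 < ∫ x, v x) (ξ : E3) :
    2 * e * ‖𝓕 (fun x => (u x : ℂ)) ξ‖ ≤ ‖𝓕 (fun x => (((1 - u x) * v x : ℝ) : ℂ)) ξ‖ := by
  have he := e_pos h hm hρ hv hv0 hpos
  have hid := h.fourier_identity hv ξ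
  set U := 𝓕 (fun x => (u x : ℂ)) ξ with hU
  set G := 𝓕 (fun x => (((1 - u x) * v x : ℝ) : ℂ)) ξ with hG
  have hUn : ‖U‖ ≤ 1 / ρ := by
    rw [← integral_u h hm hρ hv hv0 hpos]
    refine (norm_fourier_le _ ξ).trans (le_of_eq ?_)
    apply integral_congr_ae
    filter_upwards [h.bounds] with x hx
    rw [Complex.norm_real, Real.norm_eq_abs, abs_of_nonneg hx.1]
  set c : ℝ := 4 * π ^ 2 * ‖ξ‖ ^ 2 / m with hc
  have hc0 : 0 ≤ c := by positivity
  have h1 : ((c : ℂ) + 4 * e - 2 * e * ρ * U) * U = G := by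
    linear_combination hid
  rw [← h1, norm_mul]
  apply mul_le_mul_of_nonneg_right _ (norm_nonneg _)
  have h2 : 2 * e ≤ c + 4 * e - 2 * e * ρ * ‖U‖ := by
    have : 2 * e * ρ * ‖U‖ ≤ 2 * e * ρ * (1 / ρ) := by gcongr
    have h3 : 2 * e * ρ * (1 / ρ) = 2 * e := by field_simp
    linarith
  refine h2.trans ?_
  have h4 : ‖(c : ℂ) + 4 * e‖ = c + 4 * e := by
    have : (c : ℂ) + 4 * e = ((c + 4 * e : ℝ) : ℂ) := by push_cast; ring
    rw [this, Complex.norm_real, Real.norm_eq_abs, abs_of_nonneg (by positivity)]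
  have h5 : ‖2 * e * ρ * U‖ = 2 * e * ρ * ‖U‖ := by
    have : (2 * e * ρ : ℂ) = ((2 * e * ρ : ℝ) : ℂ) := by push_cast; ring
    rw [this, norm_mul, Complex.norm_real, Real.norm_eq_abs, abs_of_nonneg (by positivity)]
  calc c + 4 * e - 2 * e * ρ * ‖U‖ = ‖(c : ℂ) + 4 * e‖ - ‖2 * e * ρ * U‖ := by rw [h4, h5]
    _ ≤ ‖(c : ℂ) + 4 * e - 2 * e * ρ * U‖ := norm_sub_norm_le _ _

end H47.SE
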