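import Pool.Agent.H47.SE.CellEnergy
import Pool.Agent.H47.SE.Riemann
import Pool.Agent.H47.SE.SimpleBound

/-! The finite volume energy bound for potentials of positive type. -/

open MeasureTheory ProbabilityTheory FourierTransform
open scoped ENNReal NNReal Real ComplexConjugate

noncomputable section

namespace H47.SE

/-! ### The frequency set -/

/-- the frequency box -/
def QJ (J : ℕ) : Finset (Fin 3 → ℤ) := Fintype.piFinset (fun _ => Finset.Icc (0 : ℤ) (J : ℤ))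

lemma mem_QJ {J : ℕ} {p : Fin 3 → ℤ} : p ∈ QJ J ↔ ∀ a, 0 ≤ p a ∧ p a ≤ J := by
  simp [QJ, Fintype.mem_piFinset]

lemma card_QJ (J : ℕ) : (QJ J).card = (J + 1) ^ 3 := by
  simp [QJ, Fintype.card_piFinset]

lemma QJ_nonempty (J : ℕ) : (QJ J).Nonempty := ⟨0, by rw [mem_QJ]; simp⟩

lemma mult_le (Q : Finset (Fin 3 → ℤ)) (d : Fin 3 → ℤ) : mult Q d ≤ Q.card := by
  unfold mult
  apply Finset.card_le_card_of_injOn (fun r => r.1)
  · intro r hr
    simp only [Finset.coe_filter, Finset.mem_product, Set.mem_ofPred_eq] at hr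
    exact hr.1.1
  · intro r hr s hs h
    simp only [Finset.coe_filter, Finset.mem_product, Set.mem_ofPred_eq] at hr hs
    simp only at h
    have h1 := hr.2
    have h2 := hs.2
    rw [h] at h1
    have : r.2 = s.2 := by
      have := h1.trans h2.symm
      simpa using this
    exact Prod.ext h this

lemma mult_zero (Q : Finset (Fin 3 → ℤ)) : mult Q 0 = Q.card := by
  unfold mult
  have h2 : (Q ×ˢ Q).filter (fun r : (Fin 3 → ℤ) × (Fin 3 → ℤ) => 0 + (r.1 - r.2) = 0) =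
      Q.image (fun q => (q, q)) := by
    ext ⟨a, b⟩
    simp only [Finset.mem_filter, Finset.mem_product, Finset.mem_image, Prod.mk.injEq, zero_add]
    constructor
    · rintro ⟨⟨h1, h2⟩, h3⟩; exact ⟨a, h1, rfl, sub_eq_zero.mp h3⟩
    · rintro ⟨c, hc, rfl, rfl⟩; exact ⟨⟨hc, hc⟩, sub_self _⟩
  rw [h2, Finset.card_image_of_injective _ (fun a b h => (Prod.mk.inj h).1)]

lemma card_diff_eq (Q : Finset (Fin 3 → ℤ)) (p : Fin 3 → ℤ) :
    ((Q ×ˢ Q).filter (fun r => r.1 - r.2 = p)).card = mult Q p := by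
  unfold mult
  apply Finset.card_bij (fun r _ => (r.2, r.1))
  · intro r hr
    simp only [Finset.mem_filter, Finset.mem_product] at hr ⊢
    refine ⟨⟨hr.1.2, hr.1.1⟩, ?_⟩
    rw [← hr.2]; abel
  · intro a _ b _ h
    simp only [Prod.mk.injEq] at h
    exact Prod.ext h.2 h.1
  · intro r hr
    refine ⟨(r.2, r.1), ?_, rfl⟩
    simp only [Finset.mem_filter, Finset.mem_product] at hr ⊢
    refine ⟨⟨hr.1.2, hr.1.1⟩, ?_⟩
    have := hr.2
    have h2 : p = -(r.1 - r.2) := by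
      rw [eq_neg_iff_add_eq_zero]; exact this
    rw [h2]; abel

lemma mult_ge {J P : ℕ} {p : Fin 3 → ℤ} (hp : p ∈ cubeP P) :
    (J + 1 - P) ^ 3 ≤ mult (QJ J) p := by
  rw [mem_cubeP] at hp
  have h1 : (Fintype.piFinset (fun _ : Fin 3 => Finset.Ico (0 : ℤ) ((J + 1 - P : ℕ) : ℤ))).card =
      (J + 1 - P) ^ 3 := by
    simp [Fintype.card_piFinset]
  rw [← h1]
  unfold mult
  apply Finset.card_le_card_of_injOn
    (fun k => ((fun a => k a + max 0 (-p a)), (fun a => k a + max 0 (p a))))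
  · intro k hk
    simp only [Finset.mem_coe, Fintype.mem_piFinset, Finset.mem_Ico] at hk
    simp only [Finset.coe_filter, Finset.mem_product, Set.mem_ofPred_eq, mem_QJ]
    refine ⟨⟨?_, ?_⟩, ?_⟩
    · intro a
      have h2 := hk a
      have h3 := hp a
      omega
    · intro a
      have h2 := hk a
      have h3 := hp a
      omega
    · ext a
      simp only [Pi.add_apply, Pi.sub_apply, Pi.zero_apply]
      omega
  · intro k _ k' _ h
    simp only [Prod.mk.injEq] at h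
    ext a
    have := congrFun h.1 a
    simpa using this

/-! ### The smeared potential -/

/-- coefficients of the smeared potential -/
def cf (v : E3 → ℝ) (L : ℝ) (Q : Finset (Fin 3 → ℤ)) (t : (Fin 3 → ℤ) × (Fin 3 → ℤ)) : ℝ :=
  (mult Q (t.1 - t.2) : ℝ) / (Q.card : ℝ) ^ 2 * ((L ^ 3)⁻¹ * (vhat v (frq L (t.1 - t.2))).re)

variable {v : E3 → ℝ}

lemma frq_zero (L : ℝ) : frq L 0 = 0 := by
  ext a; simp

lemma vhat_zero (v : E3 → ℝ) : vhat v 0 = ((∫ x, v x : ℝ) : ℂ) := fourier_zero_eq v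

lemma re_vhat_le (hv0 : ∀ x, 0 ≤ v x) (ξ : E3) : (vhat v ξ).re ≤ ∫ x, v x := by
  calc (vhat v ξ).re ≤ ‖vhat v ξ‖ := Complex.re_le_norm _
    _ ≤ ∫ x, ‖(v x : ℂ)‖ := norm_fourier_le _ ξ
    _ = ∫ x, v x := by
      congr 1; ext x
      rw [Complex.norm_real, Real.norm_eq_abs, abs_of_nonneg (hv0 x)]

lemma smear_perPot {L : ℝ} [hL : Fact (0 < L)] (hv0 : ∀ x, 0 ≤ v x) (hvm : Measurable v)
    (hv : Integrable v) (him : ∀ ξ, (vhat v ξ).im = 0) (Q : Finset (Fin 3 → ℤ))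
    (hQ : Q.Nonempty) (s : E3) :
    smear (perPot v L) (fejM L Q) s = Wt L (Q ×ˢ Q) (fun t => t.1 - t.2) (cf v L Q) s := by
  have h := congrArg Complex.re (smear_eq (L := L) (perPot_nonneg hv0 L) (measurable_perPot hv0 hvm L)
    (perPot_periodic v L) (integrable_perPot hv0 hvm hv) Q hQ s)
  rw [Complex.ofReal_re, Complex.re_sum] at h
  rw [h, Wt]
  apply Finset.sum_congr rfl
  intro t _
  have h1 : ∫ x, (perPot v L x : ℂ) * ch L (t.1 - t.2) x ∂(unif L) =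
      (((L ^ 3)⁻¹ * (vhat v (frq L (t.1 - t.2))).re : ℝ) : ℂ) := by
    have := coef_eq (L := L) hv (t.1 - t.2)
    rw [coef] at this
    rw [this, Complex.ofReal_mul]
    congr 1
    apply Complex.ext
    · simp
    · simp [him]
  rw [h1]
  have h2 : ((mult Q (t.1 - t.2) : ℂ) / (Q.card : ℂ) ^ 2) =
      (((mult Q (t.1 - t.2) : ℝ) / (Q.card : ℝ) ^ 2 : ℝ) : ℂ) := by push_cast; rfl
  rw [h2, Complex.re_ofReal_mul, Complex.re_ofReal_mul, Complex.conj_re, ch,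
    Complex.exp_ofReal_mul_I_re, cf]
  ring

lemma cf_nonneg {L : ℝ} [hL : Fact (0 < L)] (hre : ∀ ξ, 0 ≤ (vhat v ξ).re)
    (Q : Finset (Fin 3 → ℤ)) (t : (Fin 3 → ℤ) × (Fin 3 → ℤ)) : 0 ≤ cf v L Q t := by
  unfold cf
  have := hL.out
  have := hre (frq L (t.1 - t.2))
  positivity

lemma cf_zero_sum {L : ℝ} (Q : Finset (Fin 3 → ℤ)) (hQ : Q.Nonempty) :
    (∑ t ∈ Q ×ˢ Q, if t.1 - t.2 = 0 then cf v L Q t else 0) = (L ^ 3)⁻¹ * ∫ x, v x := by
  have hc : (0 : ℝ) < Q.card := by exact_mod_cast Finset.card_pos.mpr hQ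
  have h1 : ∀ t ∈ Q ×ˢ Q, (if t.1 - t.2 = 0 then cf v L Q t else 0) =
      if t.1 - t.2 = 0 then (Q.card : ℝ)⁻¹ * ((L ^ 3)⁻¹ * ∫ x, v x) else 0 := by
    intro t _
    split_ifs with h
    · unfold cf
      rw [h, mult_zero, frq_zero, vhat_zero, Complex.ofReal_re]
      field_simp
    · rfl
  rw [Finset.sum_congr rfl h1, Finset.sum_ite, Finset.sum_const_zero, add_zero, Finset.sum_const,
    card_diff_eq, mult_zero, nsmul_eq_mul]
  field_simp

lemma sum_cf_le {L : ℝ} [hL : Fact (0 < L)] (hv0 : ∀ x, 0 ≤ v x)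
    (hre : ∀ ξ, 0 ≤ (vhat v ξ).re) (Q : Finset (Fin 3 → ℤ)) (hQ : Q.Nonempty) :
    ∑ t ∈ Q ×ˢ Q, cf v L Q t ≤ (L ^ 3)⁻¹ * (∫ x, v x) * Q.card := by
  have hc : (0 : ℝ) < Q.card := by exact_mod_cast Finset.card_pos.mpr hQ
  have hL0 := hL.out
  have h1 : ∀ t ∈ Q ×ˢ Q, cf v L Q t ≤ (Q.card : ℝ)⁻¹ * ((L ^ 3)⁻¹ * ∫ x, v x) := by
    intro t _
    unfold cf
    have a1 : (mult Q (t.1 - t.2) : ℝ) / (Q.card : ℝ) ^ 2 ≤ (Q.card : ℝ)⁻¹ := by
      rw [div_le_iff₀ (by positivity)]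
      have : (mult Q (t.1 - t.2) : ℝ) ≤ Q.card := by exact_mod_cast mult_le Q _
      calc (mult Q (t.1 - t.2) : ℝ) ≤ Q.card := this
        _ = (Q.card : ℝ)⁻¹ * (Q.card : ℝ) ^ 2 := by field_simp
    have a2 : (L ^ 3)⁻¹ * (vhat v (frq L (t.1 - t.2))).re ≤ (L ^ 3)⁻¹ * ∫ x, v x :=
      mul_le_mul_of_nonneg_left (re_vhat_le hv0 _) (by positivity)
    have a3 : 0 ≤ (L ^ 3)⁻¹ * (vhat v (frq L (t.1 - t.2))).re :=
      mul_nonneg (by positivity) (hre _)
    exact mul_le_mul a1 a2 a3 (by positivity)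
  calc ∑ t ∈ Q ×ˢ Q, cf v L Q t ≤ ∑ _t ∈ Q ×ˢ Q, (Q.card : ℝ)⁻¹ * ((L ^ 3)⁻¹ * ∫ x, v x) :=
        Finset.sum_le_sum h1
    _ = _ := by
      rw [Finset.sum_const, Finset.card_product, nsmul_eq_mul]
      push_cast
      field_simp

lemma Dt_le {L : ℝ} [hL : Fact (0 < L)] (hv0 : ∀ x, 0 ≤ v x)
    (hre : ∀ ξ, 0 ≤ (vhat v ξ).re) (J : ℕ) :
    Dt L (QJ J ×ˢ QJ J) (fun t => t.1 - t.2) (cf v L (QJ J)) ≤
      3 * (2 * π * J / L) ^ 2 * ((L ^ 3)⁻¹ * (∫ x, v x) * ((J : ℝ) + 1) ^ 3) := by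
  have hL0 := hL.out
  have hs := sum_cf_le (L := L) hv0 hre (QJ J) (QJ_nonempty J)
  rw [card_QJ] at hs
  push_cast at hs
  unfold Dt
  have h1 : ∀ a : Fin 3, ∑ t ∈ QJ J ×ˢ QJ J, cf v L (QJ J) t * alp L (t.1 - t.2) a ^ 2 ≤
      (2 * π * J / L) ^ 2 * ((L ^ 3)⁻¹ * (∫ x, v x) * ((J : ℝ) + 1) ^ 3) := by
    intro a
    calc ∑ t ∈ QJ J ×ˢ QJ J, cf v L (QJ J) t * alp L (t.1 - t.2) a ^ 2
        ≤ ∑ t ∈ QJ J ×ˢ QJ J, cf v L (QJ J) t * (2 * π * J / L) ^ 2 := by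
          apply Finset.sum_le_sum
          intro t ht
          apply mul_le_mul_of_nonneg_left _ (cf_nonneg hre _ _)
          rw [Finset.mem_product, mem_QJ, mem_QJ] at ht
          have b1 := ht.1 a
          have b2 := ht.2 a
          have b3 : |(((t.1 - t.2) a : ℤ) : ℝ)| ≤ J := by
            rw [← Int.cast_abs]
            have : |(t.1 - t.2) a| ≤ (J : ℤ) := by
              rw [abs_le]; simp only [Pi.sub_apply]; omega
            exact_mod_cast this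
          have b4 : |alp L (t.1 - t.2) a| ≤ 2 * π * J / L := by
            unfold alp
            rw [abs_div, abs_of_pos hL0, abs_mul, abs_of_pos (by positivity : 0 < 2 * π)]
            apply div_le_div_of_nonneg_right _ hL0.le
            exact mul_le_mul_of_nonneg_left b3 (by positivity)
          rw [← sq_abs (alp L (t.1 - t.2) a)]
          exact pow_le_pow_left₀ (abs_nonneg _) b4 2
      _ = (2 * π * J / L) ^ 2 * ∑ t ∈ QJ J ×ˢ QJ J, cf v L (QJ J) t := by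
          rw [← Finset.sum_mul, mul_comm]
      _ ≤ _ := mul_le_mul_of_nonneg_left hs (by positivity)
  calc ∑ a : Fin 3, ∑ t ∈ QJ J ×ˢ QJ J, cf v L (QJ J) t * alp L (t.1 - t.2) a ^ 2
      ≤ ∑ _a : Fin 3, (2 * π * J / L) ^ 2 * ((L ^ 3)⁻¹ * (∫ x, v x) * ((J : ℝ) + 1) ^ 3) :=
        Finset.sum_le_sum fun a _ => h1 a
    _ = _ := by rw [Finset.sum_const, Finset.card_univ, Fintype.card_fin, nsmul_eq_mul]
                push_cast; ring

/-! ### Characters on small cells -/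

lemma ae_mem_cellAt (r : ℝ) (n : Fin 3 → ℤ) : ∀ᵐ x ∂(eta r n), x ∈ cellAt r n := by
  unfold eta
  apply Measure.ae_smul_measure
  exact ae_restrict_mem (measurableSet_cellAt r n)

lemma eta_char_ge {L r : ℝ} [hL : Fact (0 < L)] [hr : Fact (0 < r)] {P : ℕ} {p : Fin 3 → ℤ}
    (hp : p ∈ cubeP P) (n : Fin 3 → ℤ) (hθ : 0 ≤ 1 - (6 * π * P * r / L) ^ 2 / 2) :
    (1 - (6 * π * P * r / L) ^ 2 / 2) ^ 2 ≤
      (∫ x, Real.cos (ph L p x) ∂(eta r n)) ^ 2 + (∫ x, Real.sin (ph L p x) ∂(eta r n)) ^ 2 := by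
  have hL0 := hL.out
  have hr0 := hr.out
  set A := ∫ x, Real.cos (ph L p x) ∂(eta r n) with hA
  set B := ∫ x, Real.sin (ph L p x) ∂(eta r n) with hB
  set φ := ph L p (latt r n) with hφ
  obtain ⟨i1, i2⟩ := abs_cos_int (eta r n) (continuous_ph (L := L) p).measurable
  have h1 : ∫ x, Real.cos (ph L p x - φ) ∂(eta r n) = Real.cos φ * A + Real.sin φ * B := by
    simp_rw [Real.cos_sub]
    rw [integral_add (i1.mul_const _) (i2.mul_const _), integral_mul_const, integral_mul_const]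
    ring
  have h2 : 1 - (6 * π * P * r / L) ^ 2 / 2 ≤ ∫ x, Real.cos (ph L p x - φ) ∂(eta r n) := by
    have h3 : ∫ _x : E3, (1 - (6 * π * P * r / L) ^ 2 / 2) ∂(eta r n) =
        1 - (6 * π * P * r / L) ^ 2 / 2 := by simp
    rw [← h3]
    apply integral_mono_ae (integrable_const _)
    · exact (abs_cos_int (eta r n) ((continuous_ph (L := L) p).sub continuous_const).measurable).1
    · filter_upwards [ae_mem_cellAt r n] with x hx
      have h4 : ph L p x - φ = ph L p (x - latt r n) := by rw [ph_sub]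
      have h5 : |ph L p x - φ| ≤ 6 * π * P * r / L := by
        rw [h4]
        unfold ph
        rw [abs_div, abs_of_pos hL0]
        apply div_le_div_of_nonneg_right _ hL0.le
        rw [abs_mul, abs_of_pos (by positivity : 0 < 2 * π)]
        have h6 : |∑ a, (p a : ℝ) * (x - latt r n) a| ≤ 3 * (P * r) := by
          calc |∑ a, (p a : ℝ) * (x - latt r n) a| ≤ ∑ a, |(p a : ℝ) * (x - latt r n) a| :=
                Finset.abs_sum_le_sum_abs _ _
            _ ≤ ∑ _a : Fin 3, (P * r : ℝ) := by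
                apply Finset.sum_le_sum
                intro a _
                rw [abs_mul]
                have c1 : |((p a : ℤ) : ℝ)| ≤ P := by
                  rw [← Int.cast_abs]
                  rw [mem_cubeP] at hp
                  have := hp a
                  have : |p a| ≤ (P : ℤ) := by rw [abs_le]; omega
                  exact_mod_cast this
                have c2 := hx a
                rw [Set.mem_Ioc] at c2
                rw [abs_of_pos c2.1]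
                exact mul_le_mul c1 c2.2 c2.1.le (by positivity)
            _ = 3 * (P * r) := by simp
        calc 2 * π * |∑ a, (p a : ℝ) * (x - latt r n) a| ≤ 2 * π * (3 * (P * r)) :=
              mul_le_mul_of_nonneg_left h6 (by positivity)
          _ = 6 * π * P * r := by ring
      have h7 : (ph L p x - φ) ^ 2 ≤ (6 * π * P * r / L) ^ 2 := by
        rw [← sq_abs]
        exact pow_le_pow_left₀ (abs_nonneg _) h5 2
      have h8 := Real.one_sub_sq_div_two_le_cos (x := ph L p x - φ)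
      linarith
  rw [h1] at h2
  have h9 := pow_le_pow_left₀ hθ h2 2
  have h10 := Real.sin_sq_add_cos_sq φ
  calc (1 - (6 * π * P * r / L) ^ 2 / 2) ^ 2 ≤ (Real.cos φ * A + Real.sin φ * B) ^ 2 := h9
    _ ≤ (Real.cos φ * A + Real.sin φ * B) ^ 2 + (Real.sin φ * A - Real.cos φ * B) ^ 2 := by
        linarith [sq_nonneg (Real.sin φ * A - Real.cos φ * B)]
    _ = A ^ 2 + B ^ 2 := by linear_combination (A ^ 2 + B ^ 2) * h10

lemma sum_cf_ge {L : ℝ} [hL : Fact (0 < L)] (hre : ∀ ξ, 0 ≤ (vhat v ξ).re) {J P : ℕ}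
    (hPJ : P ≤ J + 1) (h : (Fin 3 → ℤ) → ℝ) (hh : ∀ p, 0 ≤ h p) {κ : ℝ} (hκ : 0 ≤ κ)
    (hhκ : ∀ p ∈ cubeP P, κ ≤ h p) :
    ((((J : ℝ) + 1 - P) / (J + 1)) ^ 6) * κ *
      ((L ^ 3)⁻¹ * ∑ p ∈ cubeP P, (vhat v (frq L p)).re) ≤
      ∑ t ∈ QJ J ×ˢ QJ J, cf v L (QJ J) t * h (t.1 - t.2) := by
  have hL0 := hL.out
  set F : (Fin 3 → ℤ) → ℝ := fun p => (mult (QJ J) p : ℝ) / ((QJ J).card : ℝ) ^ 2 *
    ((L ^ 3)⁻¹ * (vhat v (frq L p)).re) * h p with hF
  have hF0 : ∀ p, 0 ≤ F p := by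
    intro p
    have := hre (frq L p)
    have := hh p
    simp only [hF]; positivity
  have h1 : ∑ t ∈ QJ J ×ˢ QJ J, cf v L (QJ J) t * h (t.1 - t.2) =
      ∑ t ∈ QJ J ×ˢ QJ J, F (t.1 - t.2) := rfl
  rw [h1]
  have h2 : ∑ t ∈ (QJ J ×ˢ QJ J).filter (fun t => t.1 - t.2 ∈ cubeP P), F (t.1 - t.2) ≤
      ∑ t ∈ QJ J ×ˢ QJ J, F (t.1 - t.2) :=
    Finset.sum_le_sum_of_subset_of_nonneg (Finset.filter_subset _ _) (fun t _ _ => hF0 _)
  refine le_trans ?_ h2
  have h22 := Finset.sum_fiberwise_of_maps_to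
    (s := (QJ J ×ˢ QJ J).filter (fun t => t.1 - t.2 ∈ cubeP P)) (t := cubeP P)
    (g := fun t : (Fin 3 → ℤ) × (Fin 3 → ℤ) => t.1 - t.2)
    (fun t ht => (Finset.mem_filter.mp ht).2) (fun t => F (t.1 - t.2))
  rw [← h22, Finset.mul_sum, Finset.mul_sum]
  apply Finset.sum_le_sum
  intro p hp
  have h3 : ∑ t ∈ ((QJ J ×ˢ QJ J).filter (fun t => t.1 - t.2 ∈ cubeP P)).filter
      (fun t => t.1 - t.2 = p), F (t.1 - t.2) = mult (QJ J) p * F p := by
    have h4 : ((QJ J ×ˢ QJ J).filter (fun t => t.1 - t.2 ∈ cubeP P)).filter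
      (fun t => t.1 - t.2 = p) = (QJ J ×ˢ QJ J).filter (fun t => t.1 - t.2 = p) := by
      ext t
      simp only [Finset.mem_filter]
      constructor
      · rintro ⟨⟨a, _⟩, c⟩; exact ⟨a, c⟩
      · rintro ⟨a, c⟩; exact ⟨⟨a, by rw [c]; exact hp⟩, c⟩
    rw [h4, ← card_diff_eq]
    rw [Finset.sum_congr rfl (g := fun _ => F p)
      (fun t ht => by rw [(Finset.mem_filter.mp ht).2]), Finset.sum_const, nsmul_eq_mul]
  rw [h3, hF]
  simp only
  have hJ : (0 : ℝ) < (J : ℝ) + 1 := by positivity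
  have hPJ' : (P : ℝ) ≤ (J : ℝ) + 1 := by exact_mod_cast hPJ
  have hm : (((J : ℝ) + 1 - P) ^ 3) ≤ mult (QJ J) p := by
    have := mult_ge (J := J) hp
    have h5 : (((J + 1 - P : ℕ) : ℝ)) = (J : ℝ) + 1 - P := by
      rw [Nat.cast_sub hPJ]; push_cast; ring
    rw [← h5]
    exact_mod_cast this
  have hcard : ((QJ J).card : ℝ) = ((J : ℝ) + 1) ^ 3 := by rw [card_QJ]; push_cast; ring
  rw [hcard]
  have h6 : ((((J : ℝ) + 1 - P) / (J + 1)) ^ 6) ≤
      (mult (QJ J) p : ℝ) * ((mult (QJ J) p : ℝ) / (((J : ℝ) + 1) ^ 3) ^ 2) := by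
    have h7 : 0 ≤ ((J : ℝ) + 1 - P) ^ 3 := pow_nonneg (by linarith) 3
    have h8 := mul_le_mul hm hm h7 (h7.trans hm)
    rw [div_pow, ← mul_div_assoc]
    have e1 : (((J : ℝ) + 1) ^ 3) ^ 2 = ((J : ℝ) + 1) ^ 6 := by ring
    rw [e1]
    apply div_le_div_of_nonneg_right _ (by positivity)
    calc ((J : ℝ) + 1 - P) ^ 6 = ((J : ℝ) + 1 - P) ^ 3 * ((J : ℝ) + 1 - P) ^ 3 := by ring
      _ ≤ _ := h8
  have h9 : 0 ≤ (L ^ 3)⁻¹ * (vhat v (frq L p)).re := mul_nonneg (by positivity) (hre _)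
  have h10 := hhκ p hp
  calc (((J : ℝ) + 1 - P) / (J + 1)) ^ 6 * κ * ((L ^ 3)⁻¹ * (vhat v (frq L p)).re)
      ≤ ((mult (QJ J) p : ℝ) * ((mult (QJ J) p : ℝ) / (((J : ℝ) + 1) ^ 3) ^ 2)) * h p *
        ((L ^ 3)⁻¹ * (vhat v (frq L p)).re) := by
        apply mul_le_mul_of_nonneg_right _ h9
        apply mul_le_mul h6 h10 hκ
        positivity
    _ = _ := by ring

/-- the finite volume bound for potentials of positive type -/
theorem postype_energy {m : ℝ} (hm : 0 < m) {r : ℝ} [hr : Fact (0 < r)] {q n N J P : ℕ}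
    (hq : 0 < q) (hn : 1 ≤ n) [hL : Fact (0 < (q : ℝ) * r)] (hN : N = n * q ^ 3)
    (hv0 : ∀ x, 0 ≤ v x) (hvm : Measurable v) (hv : Integrable v)
    (him : ∀ ξ, (vhat v ξ).im = 0) (hre : ∀ ξ, 0 ≤ (vhat v ξ).re) (hPJ : P ≤ J + 1)
    (hθ : 0 ≤ 1 - (6 * π * P * r / (q * r)) ^ 2 / 2) {lam : ℝ} (hlam : 0 < lam) :
    groundEnergy m (perPot v (q * r)) N (q * r) ≤
      lam / (8 * m) * (N * (3 * (2 * π * J / (q * r)) ^ 2 *
        ((((q : ℝ) * r) ^ 3)⁻¹ * (∫ x, v x) * ((J : ℝ) + 1) ^ 3))) +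
      1 / 2 * ((N : ℝ) ^ 2 * ((((q : ℝ) * r) ^ 3)⁻¹ * ∫ x, v x) -
        N * (((((J : ℝ) + 1 - P) / (J + 1)) ^ 6) * (1 - (6 * π * P * r / (q * r)) ^ 2 / 2) ^ 2 *
          ((((q : ℝ) * r) ^ 3)⁻¹ * ∑ p ∈ cubeP P, (vhat v (frq (q * r) p)).re))) +
      (q : ℝ) ^ 3 * (1 + Real.log n) / lam := by
  set L : ℝ := (q : ℝ) * r with hLdef
  have := isProb_fejM (L := L) (QJ J) (QJ_nonempty J)
  have h1 := cell_energy (T := QJ J ×ˢ QJ J) (d := fun t => t.1 - t.2) (c := cf v L (QJ J))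
    hm hq hn hN (perPot_nonneg hv0 L) (measurable_perPot hv0 hvm L) (perPot_periodic v L)
    (integrable_perPot hv0 hvm hv) (fejM L (QJ J))
    (smear_perPot hv0 hvm hv him (QJ J) (QJ_nonempty J)) (fun t _ => cf_nonneg hre _ t)
    (((((J : ℝ) + 1 - P) / (J + 1)) ^ 6) * (1 - (6 * π * P * r / L) ^ 2 / 2) ^ 2 *
          ((L ^ 3)⁻¹ * ∑ p ∈ cubeP P, (vhat v (frq L p)).re))
    (by
      intro c'
      exact sum_cf_ge (L := L) hre hPJ
        (fun p => (∫ x, Real.cos (ph L p x) ∂(eta r (emb c'))) ^ 2 +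
          (∫ x, Real.sin (ph L p x) ∂(eta r (emb c'))) ^ 2)
        (fun p => by positivity) (by positivity)
        (fun p hp => eta_char_ge hp (emb c') hθ))
    hlam
  refine h1.trans ?_
  rw [cf_zero_sum (QJ J) (QJ_nonempty J)]
  have h2 := Dt_le (L := L) hv0 hre J
  have h3 : lam / (8 * m) * (N * Dt L (QJ J ×ˢ QJ J) (fun t => t.1 - t.2) (cf v L (QJ J))) ≤
      lam / (8 * m) * (N * (3 * (2 * π * J / L) ^ 2 *
        ((L ^ 3)⁻¹ * (∫ x, v x) * ((J : ℝ) + 1) ^ 3))) := by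
    apply mul_le_mul_of_nonneg_left _ (by positivity)
    exact mul_le_mul_of_nonneg_left h2 (by positivity)
  linarith

end H47.SE
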