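import Pool.Agent.H47.SE.Fourier

/-! The Simple equation: Fourier side identity and the lower bound of the energy. -/

open MeasureTheory SchwartzMap FourierTransform Laplacian
open scoped ENNReal Real

noncomputable section

namespace H47.SE

/-- flip lemma for the inverse Fourier transform -/
lemma flip_fourierInv (f : E3 → ℂ) (hf : Integrable f) (χ : E3 → ℂ) (hχ : Integrable χ) :
    ∫ x, f x * 𝓕⁻ χ x = ∫ x, 𝓕⁻ f x * χ x := by
  have := VectorFourier.integral_fourierIntegral_smul_eq_flip (L := -innerₗ E3)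
    (μ := volume) (ν := volume) (f := f) (g := χ) Real.continuous_fourierChar
    (by simpa using! continuous_inner.neg) hf hχ
  simp only [smul_eq_mul] at this
  have h2 : (-innerₗ E3 : E3 →ₗ[ℝ] E3 →ₗ[ℝ] ℝ).flip = -innerₗ E3 := by
    ext x y; simp [real_inner_comm]
  rw [h2] at this
  exact this.symm

lemma laplacian_fourierInv (ψ : 𝓢(E3, ℂ)) :
    Δ (𝓕⁻ ψ : 𝓢(E3, ℂ)) = -(2 * π) ^ 2 • (𝓕⁻ (smulLeftCLM ℂ (fun x : E3 => ‖x‖ ^ 2) ψ)) := by
  rw [laplacian_eq_fourierMultiplierCLM, fourierMultiplierCLM_apply]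
  simp

variable {m : ℝ} {v : E3 → ℝ} {ρ : ℝ} {u : E3 → ℝ} {e : ℝ}

lemma IsSimpleSolution.int_g (h : IsSimpleSolution m v ρ u e) (hv : Integrable v) :
    Integrable (fun x => (1 - u x) * v x) := by
  refine Integrable.mono' hv.norm ?_ ?_
  · exact ((aestronglyMeasurable_const.sub h.integrable.1).mul hv.1)
  · filter_upwards [h.bounds] with x hx
    rw [norm_mul]
    have : ‖1 - u x‖ ≤ 1 := by
      rw [Real.norm_eq_abs, abs_le]; constructor <;> linarith [hx.1, hx.2]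
    calc ‖1 - u x‖ * ‖v x‖ ≤ 1 * ‖v x‖ := by gcongr
      _ = ‖v x‖ := one_mul _

lemma conv_ofReal (u : E3 → ℝ) (x : E3) :
    (((∫ y, u y * u (x - y) : ℝ)) : ℂ) =
      MeasureTheory.convolution (fun x => (u x : ℂ)) (fun x => (u x : ℂ))
        (ContinuousLinearMap.mul ℂ ℂ) volume x := by
  rw [MeasureTheory.convolution]
  rw [← integral_complex_ofReal]
  simp

lemma lin3 (A B C : E3 → ℂ) (c d : ℂ) (hA : Integrable A) (hB : Integrable B)
    (hC : Integrable C) :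
    ∫ x, (A x - c * B x + d * C x) = (∫ x, A x) - c * (∫ x, B x) + d * (∫ x, C x) := by
  have h1 : Integrable (fun x => A x - c * B x) := hA.sub (hB.const_mul c)
  rw [integral_add h1 (hC.const_mul d), integral_sub hA (hB.const_mul c), integral_const_mul,
    integral_const_mul]

/-- the Fourier side of the Simple equation -/
theorem IsSimpleSolution.fourier_identity (h : IsSimpleSolution m v ρ u e) (hv : Integrable v)
    (ξ : E3) :
    ((4 * π ^ 2 * ‖ξ‖ ^ 2 / m : ℝ) : ℂ) * 𝓕 (fun x => (u x : ℂ)) ξ =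
      𝓕 (fun x => (((1 - u x) * v x : ℝ) : ℂ)) ξ - 4 * e * 𝓕 (fun x => (u x : ℂ)) ξ
        + 2 * e * ρ * (𝓕 (fun x => (u x : ℂ)) ξ) ^ 2 := by
  set uc : E3 → ℂ := fun x => (u x : ℂ) with huc
  set gc : E3 → ℂ := fun x => (((1 - u x) * v x : ℝ) : ℂ) with hgc
  set cc : E3 → ℂ := MeasureTheory.convolution uc uc (ContinuousLinearMap.mul ℂ ℂ) volume with hcc
  have hu : Integrable uc := h.integrable.ofReal
  have hg : Integrable gc := (h.int_g hv).ofReal
  have hc : Integrable cc := by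
    exact hu.integrable_convolution (ContinuousLinearMap.mul ℂ ℂ) hu
  have hcF : ∀ ξ, 𝓕 cc ξ = 𝓕 uc ξ * 𝓕 uc ξ := fun ξ =>
    Real.fourier_mul_convolution_eq hu hu ξ
  -- continuous functions
  have cu : Continuous (𝓕⁻ uc) := by
    have : (𝓕⁻ uc) = fun ξ => 𝓕 uc (-ξ) := by
      ext ξ; exact Real.fourierInv_eq_fourier_neg _ _
    rw [this]; exact (continuous_fourier uc hu).comp continuous_neg
  have cg : Continuous (𝓕⁻ gc) := by
    have : (𝓕⁻ gc) = fun ξ => 𝓕 gc (-ξ) := by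
      ext ξ; exact Real.fourierInv_eq_fourier_neg _ _
    rw [this]; exact (continuous_fourier gc hg).comp continuous_neg
  let B : E3 → ℂ := fun ξ => ((4 * π ^ 2 * ‖ξ‖ ^ 2 / m : ℝ) : ℂ) * 𝓕⁻ uc ξ -
    (𝓕⁻ gc ξ - 4 * e * 𝓕⁻ uc ξ + 2 * e * ρ * (𝓕⁻ uc ξ) ^ 2)
  have hBc : Continuous B := by
    refine Continuous.sub (Continuous.mul ?_ cu) ?_
    · fun_prop
    · exact (cg.sub (continuous_const.mul cu)).add (continuous_const.mul (cu.pow 2))
  have hB0 : ∀ᵐ ξ, B ξ = 0 := by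
    apply ae_eq_zero_of_integral_contDiff_smul_eq_zero hBc.locallyIntegrable
    intro g hgd hgs
    let ψ := cSchwartz g hgd hgs
    have key := h.equation (𝓕⁻ ψ)
    rw [laplacian_fourierInv] at key
    let χ : 𝓢(E3, ℂ) := smulLeftCLM ℂ (fun x : E3 => ‖x‖ ^ 2) ψ
    have hχ : ∀ x, χ x = ((‖x‖ ^ 2 : ℝ) : ℂ) * ψ x := by
      intro x
      simp only [χ]
      rw [smulLeftCLM_apply_apply (by fun_prop)]
      simp
    have l1 : ∫ x, uc x * ((-(2 * π) ^ 2 • (𝓕⁻ χ : 𝓢(E3, ℂ))) x) =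
        ∫ ξ, (((-(2 * π) ^ 2 * ‖ξ‖ ^ 2 : ℝ) : ℂ) * 𝓕⁻ uc ξ) * ψ ξ := by
      have a1 : ∀ x, uc x * ((-(2 * π) ^ 2 • (𝓕⁻ χ : 𝓢(E3, ℂ))) x) =
          ((-(2 * π) ^ 2 : ℝ) : ℂ) * (uc x * (𝓕⁻ (χ : E3 → ℂ)) x) := by
        intro x
        rw [_root_.smul_apply, SchwartzMap.fourierInv_coe, Complex.real_smul]
        ring
      simp_rw [a1]
      rw [integral_const_mul, flip_fourierInv uc hu χ χ.integrable, ← integral_const_mul]
      apply integral_congr_ae; filter_upwards with x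
      simp only [hχ]; push_cast; ring
    have l2 : ∫ x, (((1 - u x) * v x - 4 * e * u x
        + 2 * e * ρ * ∫ y, u y * u (x - y) : ℝ) : ℂ) * (𝓕⁻ ψ : 𝓢(E3, ℂ)) x =
        ∫ ξ, (𝓕⁻ gc ξ - 4 * e * 𝓕⁻ uc ξ + 2 * e * ρ * (𝓕⁻ uc ξ) ^ 2) * ψ ξ := by
      have a1 : ∀ x, (((1 - u x) * v x - 4 * e * u x
        + 2 * e * ρ * ∫ y, u y * u (x - y) : ℝ) : ℂ) * (𝓕⁻ ψ : 𝓢(E3, ℂ)) x =
          gc x * 𝓕⁻ (ψ : E3 → ℂ) x - (4 * e : ℂ) * (uc x * 𝓕⁻ (ψ : E3 → ℂ) x)
            + (2 * e * ρ : ℂ) * (cc x * 𝓕⁻ (ψ : E3 → ℂ) x) := by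
        intro x
        rw [SchwartzMap.fourierInv_coe]
        simp only [hgc, huc, hcc]
        rw [← conv_ofReal]
        push_cast
        ring
      have ib : ∀ f : E3 → ℂ, Integrable f → Integrable (fun x => f x * 𝓕⁻ (ψ : E3 → ℂ) x) := by
        intro f hf
        refine hf.mul_bdd (c := ∫ x, ‖ψ x‖) ?_ ?_
        · have := (𝓕⁻ ψ : 𝓢(E3, ℂ)).continuous.aestronglyMeasurable (μ := volume)
          rwa [SchwartzMap.fourierInv_coe] at this
        · filter_upwards with x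
          rw [Real.fourierInv_eq_fourier_neg]
          exact norm_fourier_le _ _
      have ib2 : ∀ f : E3 → ℂ, Integrable f → Integrable (fun x => 𝓕⁻ f x * ψ x) := by
        intro f hf
        refine ψ.integrable.bdd_mul (c := ∫ x, ‖f x‖) ?_ ?_
        · have : (𝓕⁻ f) = fun ξ => 𝓕 f (-ξ) := by
            ext ξ; exact Real.fourierInv_eq_fourier_neg _ _
          rw [this]
          exact ((continuous_fourier f hf).comp continuous_neg).aestronglyMeasurable
        · filter_upwards with x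
          rw [Real.fourierInv_eq_fourier_neg]
          exact norm_fourier_le _ _
      simp_rw [a1]
      rw [lin3 _ _ _ _ _ (ib gc hg) (ib uc hu) (ib cc hc),
        flip_fourierInv gc hg ψ ψ.integrable, flip_fourierInv uc hu ψ ψ.integrable,
        flip_fourierInv cc hc ψ ψ.integrable,
        ← lin3 _ _ _ _ _ (ib2 gc hg) (ib2 uc hu) (ib2 cc hc)]
      apply integral_congr_ae; filter_upwards with x
      have : 𝓕⁻ cc x = (𝓕⁻ uc x) ^ 2 := by
        rw [Real.fourierInv_eq_fourier_neg, Real.fourierInv_eq_fourier_neg, hcF, sq]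
      rw [this]; ring
    have key2 : -(1 / (m : ℂ)) * ∫ ξ, (((-(2 * π) ^ 2 * ‖ξ‖ ^ 2 : ℝ) : ℂ) * 𝓕⁻ uc ξ) * ψ ξ =
        ∫ ξ, (𝓕⁻ gc ξ - 4 * e * 𝓕⁻ uc ξ + 2 * e * ρ * (𝓕⁻ uc ξ) ^ 2) * ψ ξ := by
      rw [← l1, ← l2]; exact key
    rw [← integral_const_mul] at key2
    have cs : ∀ f : E3 → ℂ, Continuous f → Integrable (fun x => f x * ψ x) := by
      intro f hf
      have : HasCompactSupport (fun x => f x * ψ x) := by
        apply HasCompactSupport.mul_left
        exact hgs.comp_left (g := fun r : ℝ => (r : ℂ)) (by simp)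
      exact (hf.mul ψ.continuous).integrable_of_hasCompactSupport this
    calc ∫ x, g x • B x
        = ∫ x, ((-(1 / (m : ℂ)) * ((((-(2 * π) ^ 2 * ‖x‖ ^ 2 : ℝ) : ℂ) * 𝓕⁻ uc x) * ψ x)) -
          (𝓕⁻ gc x - 4 * e * 𝓕⁻ uc x + 2 * e * ρ * (𝓕⁻ uc x) ^ 2) * ψ x) := by
          apply integral_congr_ae; filter_upwards with x
          simp only [B, ψ, cSchwartz_apply, Complex.real_smul]
          push_cast
          ring
      _ = 0 := by
          rw [integral_sub, key2, sub_self]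
          · have : (fun x => -(1 / (m : ℂ)) * ((((-(2 * π) ^ 2 * ‖x‖ ^ 2 : ℝ) : ℂ) * 𝓕⁻ uc x) * ψ x))
              = fun x => (-(1 / (m : ℂ)) * ((((-(2 * π) ^ 2 * ‖x‖ ^ 2 : ℝ) : ℂ) * 𝓕⁻ uc x))) * ψ x := by
              ext x; ring
            rw [this]
            apply cs
            fun_prop
          · apply cs
            exact (cg.sub (continuous_const.mul cu)).add (continuous_const.mul (cu.pow 2))
  have hBall : B = fun _ => 0 := by
    apply Continuous.ae_eq_iff_eq volume hBc continuous_const |>.mp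
    exact hB0
  have := congrFun hBall (-ξ)
  simp only [B] at this
  rw [Real.fourierInv_eq_fourier_neg, Real.fourierInv_eq_fourier_neg, neg_neg, norm_neg] at this
  exact sub_eq_zero.mp this

end H47.SE
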