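import Pool.Agent.H47.SE.Fourier

/-! Periodic functions on `(ℝ³)^ι` and integrals over the fundamental box. -/

open MeasureTheory
open scoped ENNReal NNReal Real

noncomputable section

namespace H47.SE

@[simp] lemma latt_apply (L : ℝ) (n : Fin 3 → ℤ) (a : Fin 3) : latt L n a = L * (n a : ℝ) := rfl

variable {ι : Type*}

/-- projection to the torus -/
def toT (L : ℝ) (x : E3) : Fin 3 → AddCircle L := fun a => ((x a : ℝ) : AddCircle L)

lemma toT_add (L : ℝ) (x y : E3) : toT L (x + y) = toT L x + toT L y := by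
  ext a; simp [toT]

lemma measurableSet_cell (L : ℝ) : MeasurableSet (cell L) := by
  have : cell L = ⋂ a, (fun x : E3 => x a) ⁻¹' (Set.Ioc 0 L) := by
    ext x; simp [cell]
  rw [this]
  exact MeasurableSet.iInter fun a => (measurableSet_Ioc).preimage (by fun_prop)

lemma box_eq (L : ℝ) : box ι L = Set.pi Set.univ (fun _ => cell L) := by
  ext x; simp [box]

lemma measurableSet_box [Finite ι] (L : ℝ) : MeasurableSet (box ι L) := by
  rw [box_eq]
  exact MeasurableSet.univ_pi fun _ => measurableSet_cell L

lemma mp1 (L : ℝ) [Fact (0 < L)] :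
    MeasurePreserving (toT L) (volume.restrict (cell L)) (volume : Measure (Fin 3 → AddCircle L)) := by
  have h1 := EuclideanSpace.volume_preserving_symm_measurableEquiv_toLp (Fin 3)
  have hs : MeasurableSet (Set.pi Set.univ (fun _ : Fin 3 => Set.Ioc (0 : ℝ) L)) :=
    MeasurableSet.univ_pi fun _ => measurableSet_Ioc
  have h2 := h1.restrict_preimage hs
  have h3 : (⇑(MeasurableEquiv.toLp 2 (Fin 3 → ℝ)).symm) ⁻¹'
      (Set.pi Set.univ (fun _ : Fin 3 => Set.Ioc (0 : ℝ) L)) = cell L := by
    ext x; simp [cell]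
  rw [h3] at h2
  have h4 : (volume : Measure (Fin 3 → ℝ)).restrict
      (Set.pi Set.univ (fun _ : Fin 3 => Set.Ioc (0 : ℝ) L)) =
      Measure.pi (fun _ => volume.restrict (Set.Ioc (0 : ℝ) L)) := by
    rw [volume_pi, Measure.restrict_pi_pi]
  rw [h4] at h2
  have h5 : MeasurePreserving (fun (y : Fin 3 → ℝ) (a : Fin 3) => ((y a : ℝ) : AddCircle L))
      (Measure.pi (fun _ => volume.restrict (Set.Ioc (0 : ℝ) L)))
      (Measure.pi (fun _ => (volume : Measure (AddCircle L)))) := by
    apply measurePreserving_pi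
    intro i
    have := AddCircle.measurePreserving_mk L 0
    rwa [zero_add] at this
  exact h5.comp h2

/-- projection of configurations to the torus -/
def toTN (L : ℝ) (x : ι → E3) : ι → Fin 3 → AddCircle L := fun i => toT L (x i)

lemma toTN_add (L : ℝ) (x y : ι → E3) : toTN L (x + y) = toTN L x + toTN L y := by
  ext i a; simp [toTN, toT]

lemma mpN [Fintype ι] (L : ℝ) [Fact (0 < L)] :
    MeasurePreserving (toTN (ι := ι) L) (volume.restrict (box ι L))
      (volume : Measure (ι → Fin 3 → AddCircle L)) := by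
  have h4 : (volume : Measure (ι → E3)).restrict (box ι L) =
      Measure.pi (fun _ => volume.restrict (cell L)) := by
    rw [volume_pi, box_eq, Measure.restrict_pi_pi]
  rw [h4]
  apply measurePreserving_pi
  intro i
  exact mp1 L

/-- section of the projection -/
def sec (L : ℝ) [Fact (0 < L)] (t : Fin 3 → AddCircle L) : E3 :=
  WithLp.toLp 2 (fun a => ((AddCircle.equivIoc L 0 (t a) : Set.Ioc (0 : ℝ) (0 + L)) : ℝ))

def secN (L : ℝ) [Fact (0 < L)] (t : ι → Fin 3 → AddCircle L) : ι → E3 := fun i => sec L (t i)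

lemma measurable_sec (L : ℝ) [Fact (0 < L)] : Measurable (sec L) := by
  unfold sec
  have h1 : Measurable (fun (t : Fin 3 → AddCircle L) (a : Fin 3) =>
      ((AddCircle.equivIoc L 0 (t a) : Set.Ioc (0 : ℝ) (0 + L)) : ℝ)) := by
    apply measurable_pi_lambda
    intro a
    exact measurable_subtype_coe.comp
      ((AddCircle.measurableEquivIoc L 0).measurable.comp (measurable_pi_apply a))
  exact (MeasurableEquiv.toLp 2 (Fin 3 → ℝ)).measurable.comp h1

lemma measurable_secN (L : ℝ) [Fact (0 < L)] : Measurable (secN (ι := ι) L) := by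
  apply measurable_pi_lambda
  intro i
  exact (measurable_sec L).comp (measurable_pi_apply i)

lemma exists_latt (L : ℝ) [hL : Fact (0 < L)] (x : E3) :
    ∃ n : Fin 3 → ℤ, sec L (toT L x) = x + latt L n := by
  have h : ∀ a, ∃ n : ℤ, (((AddCircle.equivIoc L 0 (toT L x a) : Set.Ioc (0 : ℝ) (0 + L)) : ℝ))
      = x a + L * n := by
    intro a
    have h1 : ((((AddCircle.equivIoc L 0 (toT L x a) : Set.Ioc (0 : ℝ) (0 + L)) : ℝ)) : AddCircle L)
      = ((x a : ℝ) : AddCircle L) := AddCircle.coe_equivIoc
    rw [QuotientAddGroup.eq_iff_sub_mem] at h1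
    obtain ⟨n, hn⟩ := AddSubgroup.mem_zmultiples_iff.mp h1
    refine ⟨n, ?_⟩
    have : (n : ℝ) * L = n • L := by simp
    rw [← this] at hn
    linarith
  choose n hn using h
  refine ⟨n, ?_⟩
  ext a
  simp only [sec, PiLp.add_apply, latt_apply]
  exact hn a

lemma PeriodicN.eq_comp {α : Type*} {L : ℝ} [Fact (0 < L)] {F : (ι → E3) → α}
    (hF : PeriodicN L F) (x : ι → E3) : F (secN L (toTN L x)) = F x := by
  have : ∀ i, ∃ n : Fin 3 → ℤ, sec L (toT L (x i)) = x i + latt L n := fun i => exists_latt L (x i)
  choose n hn using this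
  have h2 : secN L (toTN L x) = fun i => x i + latt L (n i) := by
    ext i : 1; exact hn i
  rw [h2, hF]

variable [Fintype ι]

/-- integral over the box as integral over the torus -/
lemma integral_box_eq {α : Type*} [NormedAddCommGroup α] [NormedSpace ℝ α]
    {L : ℝ} [Fact (0 < L)] {F : (ι → E3) → α}
    (hF : PeriodicN L F) (hm : StronglyMeasurable F) :
    ∫ x in box ι L, F x = ∫ t : ι → Fin 3 → AddCircle L, F (secN L t) := by
  have h := mpN (ι := ι) L
  have hm2 : StronglyMeasurable (fun t : ι → Fin 3 → AddCircle L => F (secN L t)) :=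
    hm.comp_measurable (measurable_secN L)
  rw [← h.map_eq, integral_map h.measurable.aemeasurable hm2.aestronglyMeasurable]
  apply integral_congr_ae
  filter_upwards with x
  rw [hF.eq_comp]

/-- translation invariance of box integrals of periodic functions -/
lemma integral_box_shift {α : Type*} [NormedAddCommGroup α] [NormedSpace ℝ α]
    {L : ℝ} [Fact (0 < L)] {F : (ι → E3) → α}
    (hF : PeriodicN L F) (hm : StronglyMeasurable F) (ζ : ι → E3) :
    ∫ x in box ι L, F (x + ζ) = ∫ x in box ι L, F x := by
  have h := mpN (ι := ι) L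
  have hm2 : StronglyMeasurable (fun t : ι → Fin 3 → AddCircle L => F (secN L t)) :=
    hm.comp_measurable (measurable_secN L)
  rw [integral_box_eq hF hm]
  have h1 : ∀ x, F (x + ζ) = F (secN L (toTN L ζ + toTN L x)) := by
    intro x
    rw [← toTN_add, hF.eq_comp, add_comm]
  simp_rw [h1]
  rw [← integral_add_left_eq_self (fun t : ι → Fin 3 → AddCircle L => F (secN L t)) (toTN L ζ)]
  have hm3 : StronglyMeasurable
      (fun t : ι → Fin 3 → AddCircle L => F (secN L (toTN L ζ + t))) :=
    hm2.comp_measurable (measurable_id.const_add _)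
  rw [← h.map_eq, integral_map h.measurable.aemeasurable hm3.aestronglyMeasurable]

/-- integrability over the box -/
lemma integrableOn_box_shift {α : Type*} [NormedAddCommGroup α]
    {L : ℝ} [Fact (0 < L)] {F : (ι → E3) → α}
    (hF : PeriodicN L F) (hm : StronglyMeasurable F) (ζ : ι → E3)
    (hi : IntegrableOn F (box ι L)) :
    IntegrableOn (fun x => F (x + ζ)) (box ι L) := by
  have h := mpN (ι := ι) L
  have hm2 : StronglyMeasurable (fun t : ι → Fin 3 → AddCircle L => F (secN L t)) :=
    hm.comp_measurable (measurable_secN L)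
  have e1 : F = (fun t : ι → Fin 3 → AddCircle L => F (secN L t)) ∘ toTN L := by
    ext x; simp [hF.eq_comp]
  have i1 : Integrable (fun t : ι → Fin 3 → AddCircle L => F (secN L t)) volume := by
    rw [← h.integrable_comp hm2.aestronglyMeasurable, ← e1]; exact hi
  have i2 := i1.comp_add_left (toTN L ζ)
  have e2 : (fun x => F (x + ζ)) =
      (fun t : ι → Fin 3 → AddCircle L => F (secN L (toTN L ζ + t))) ∘ toTN L := by
    ext x
    simp only [Function.comp]
    rw [← toTN_add, hF.eq_comp, add_comm]
  unfold IntegrableOn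
  rw [e2]
  exact (h.integrable_comp i2.1).mpr i2

end H47.SE
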