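import Pool.Agent.H47.SE.Limit
import Pool.Agent.H47.SE.L2Bound

/-! Product trial states with modulated densities. -/

open MeasureTheory ProbabilityTheory FourierTransform Filter
open scoped ENNReal NNReal Real ComplexConjugate Topology

noncomputable section

namespace H47.SE

/-- product of measures with densities -/
lemma pi_withDensity {ι : Type*} [Fintype ι] {Y : Type*} [MeasurableSpace Y]
    (μ : Measure Y) [IsProbabilityMeasure μ] (g : ι → Y → ℝ≥0∞) (hg : ∀ i, Measurable (g i))
    (hint : ∀ i, ∫⁻ x, g i x ∂μ = 1) :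
    Measure.pi (fun i => μ.withDensity (g i)) =
      (Measure.pi (fun _ : ι => μ)).withDensity (fun x => ∏ i, g i (x i)) := by
  have hp : ∀ i, IsProbabilityMeasure (μ.withDensity (g i)) := by
    intro i
    constructor
    rw [withDensity_apply _ MeasurableSet.univ, Measure.restrict_univ, hint]
  apply Measure.pi_eq
  intro s hs
  rw [withDensity_apply _ (MeasurableSet.univ_pi hs),
    ← lintegral_indicator (MeasurableSet.univ_pi hs)]
  have h1 : ∀ x : ι → Y, (Set.pi Set.univ s).indicator (fun x => ∏ i, g i (x i)) x =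
      ∏ i, (s i).indicator (g i) (x i) := by
    intro x
    by_cases hx : x ∈ Set.pi Set.univ s
    · rw [Set.indicator_of_mem hx]
      apply Finset.prod_congr rfl
      intro i _
      rw [Set.indicator_of_mem (hx i (Set.mem_univ i))]
    · rw [Set.indicator_of_notMem hx]
      simp only [Set.mem_pi, Set.mem_univ, true_imp_iff, not_forall] at hx
      obtain ⟨i, hi⟩ := hx
      symm
      apply Finset.prod_eq_zero (Finset.mem_univ i)
      rw [Set.indicator_of_notMem hi]
  simp_rw [h1]
  have hind : iIndepFun (fun i (x : ι → Y) => (s i).indicator (g i) (x i))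
      (Measure.pi (fun _ : ι => μ)) :=
    iIndepFun_pi (X := fun i (y : Y) => (s i).indicator (g i) y)
      (fun i => ((hg i).indicator (hs i)).aemeasurable)
  rw [lintegral_prod_eq_prod_lintegral_of_indepFun Finset.univ _ hind
    (fun i => ((hg i).indicator (hs i)).comp (measurable_pi_apply i))]
  apply Finset.prod_congr rfl
  intro i _
  rw [withDensity_apply _ (hs i), ← lintegral_indicator (hs i)]
  exact (measurePreserving_eval (fun _ : ι => μ) i).lintegral_comp ((hg i).indicator (hs i))

lemma smear_dirac (w : E3 → ℝ) (s : E3) : smear w (Measure.dirac 0) s = w s := by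
  unfold smear
  rw [Measure.dirac_prod_dirac, integral_dirac]
  simp

/-- modulated density -/
def gm (L : ℝ) (p : Fin 3 → ℤ) (θ : ℝ) (y : E3) : ℝ := 1 + 1 / 2 * Real.cos (ph L p y + θ)

variable {L : ℝ}

lemma gm_pos (p : Fin 3 → ℤ) (θ : ℝ) (y : E3) : 1 / 2 ≤ gm L p θ y := by
  unfold gm
  linarith [Real.neg_one_le_cos (ph L p y + θ)]

lemma continuous_gm (p : Fin 3 → ℤ) (θ : ℝ) : Continuous (gm L p θ) := by
  unfold gm
  have := continuous_ph (L := L) p
  fun_prop

/-- the complex coefficients of the modulated density -/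
def gco (θ : ℝ) (j : Fin 3) : ℂ :=
  ![1, 1 / 4 * Complex.exp (θ * Complex.I), 1 / 4 * Complex.exp (-(θ * Complex.I))] j

/-- the frequencies of the modulated density -/
def gfr (p : Fin 3 → ℤ) (j : Fin 3) : Fin 3 → ℤ := ![0, p, -p] j

lemma gm_eq (p : Fin 3 → ℤ) (θ : ℝ) (y : E3) :
    (gm L p θ y : ℂ) = ∑ j : Fin 3, gco θ j * ch L (gfr p j) y := by
  simp only [Fin.sum_univ_three, gco, gfr, Matrix.cons_val_zero, Matrix.cons_val_one,
    Matrix.cons_val_two, Matrix.head_cons, Matrix.tail_cons, Matrix.cons_val]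
  rw [ch_zero_left]
  unfold gm ch
  rw [ph_neg_left]
  push_cast
  rw [Complex.cos]
  have e1 : Complex.exp (((ph L p y : ℂ) + θ) * Complex.I) =
      Complex.exp (θ * Complex.I) * Complex.exp (ph L p y * Complex.I) := by
    rw [← Complex.exp_add]; ring_nf
  have e2 : Complex.exp (-((ph L p y : ℂ) + θ) * Complex.I) =
      Complex.exp (-(θ * Complex.I)) * Complex.exp (-(ph L p y : ℂ) * Complex.I) := by
    rw [← Complex.exp_add]; ring_nf
  rw [e1, e2]
  ring

lemma integral_gm [hL : Fact (0 < L)] {p : Fin 3 → ℤ} (hp : p ≠ 0) (θ : ℝ) :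
    ∫ y, gm L p θ y ∂(unif L) = 1 := by
  have h : ((∫ y, gm L p θ y ∂(unif L) : ℝ) : ℂ) = 1 := by
    rw [← integral_complex_ofReal]
    simp_rw [gm_eq]
    rw [integral_finsetSum]
    · simp_rw [integral_const_mul, integral_ch]
      simp only [Fin.sum_univ_three, gco, gfr, Matrix.cons_val_zero, Matrix.cons_val_one,
        Matrix.cons_val]
      simp [hp]
    · intro j _
      apply Integrable.const_mul
      exact (integrable_const (1 : ℝ)).mono' (continuous_ch _).aestronglyMeasurable
        (Filter.Eventually.of_forall fun x => by rw [norm_ch])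
  exact_mod_cast h

lemma integrable_gm [hL : Fact (0 < L)] (p : Fin 3 → ℤ) (θ : ℝ) :
    Integrable (gm L p θ) (unif L) := by
  refine (integrable_const (2 : ℝ)).mono' (continuous_gm p θ).aestronglyMeasurable ?_
  filter_upwards with y
  rw [Real.norm_eq_abs, abs_of_pos (by linarith [gm_pos (L := L) p θ y])]
  unfold gm
  linarith [Real.cos_le_one (ph L p y + θ)]

lemma lintegral_gm [hL : Fact (0 < L)] {p : Fin 3 → ℤ} (hp : p ≠ 0) (θ : ℝ) :
    ∫⁻ y, ENNReal.ofReal (gm L p θ y) ∂(unif L) = 1 := by
  rw [← ofReal_integral_eq_lintegral_ofReal (integrable_gm p θ)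
    (Filter.Eventually.of_forall fun y => by
      have := gm_pos (L := L) p θ y
      simp only [Pi.zero_apply]; linarith), integral_gm hp, ENNReal.ofReal_one]

/-- two particle integral with modulated densities -/
lemma integral_pair_gm [hL : Fact (0 < L)] {v : E3 → ℝ} (hv0 : ∀ x, 0 ≤ v x)
    (hvm : Measurable v) (hv : Integrable v) {p : Fin 3 → ℤ} (hp : p ≠ 0) (θ θ' : ℝ) :
    ∫ z : E3 × E3, perPot v L (z.1 - z.2) * (gm L p θ z.1 * gm L p θ' z.2)
      ∂((unif L).prod (unif L)) =
      (L ^ 3)⁻¹ * ((∫ x, v x) + 1 / 8 * (Complex.exp ((θ - θ' : ℝ) * Complex.I) *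
        conj (vhat v (frq L p))).re) := by
  have hw := perPot_nonneg hv0 L
  have hwm := measurable_perPot hv0 hvm L
  have hwp := perPot_periodic v L
  have hwi : Integrable (perPot v L) (unif L) := integrable_perPot hv0 hvm hv
  obtain ⟨h1, _⟩ := integrable_diff hw hwm hwp hwi 0
  have h1' : Integrable (fun q : E3 × E3 => perPot v L (0 + (q.1 - q.2)))
      ((unif L).prod (unif L)) := by
    refine h1.congr ?_
    filter_upwards with q
    congr 1; abel
  have hK : ∀ j j' : Fin 3, Integrable (fun z : E3 × E3 => (perPot v L (0 + (z.1 - z.2)) : ℂ) *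
      (ch L (gfr p j) z.1 * ch L (gfr p j') z.2)) ((unif L).prod (unif L)) := by
    intro j j'
    apply integrable_ch_mul h1'
    · exact (((continuous_ch _).comp continuous_fst).mul
        ((continuous_ch _).comp continuous_snd)).aestronglyMeasurable
    · intro x; rw [norm_mul, norm_ch, norm_ch, one_mul]
  have hcalc : ((∫ z : E3 × E3, perPot v L (z.1 - z.2) * (gm L p θ z.1 * gm L p θ' z.2)
      ∂((unif L).prod (unif L)) : ℝ) : ℂ) =
      ∑ j : Fin 3, ∑ j' : Fin 3, gco θ j * gco θ' j' *
        (if gfr p j + gfr p j' = 0 then coef v L (gfr p j) else 0) := by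
    rw [← integral_complex_ofReal]
    have e1 : ∀ z : E3 × E3, ((perPot v L (z.1 - z.2) * (gm L p θ z.1 * gm L p θ' z.2) : ℝ) : ℂ) =
        ∑ j : Fin 3, ∑ j' : Fin 3, gco θ j * gco θ' j' *
          ((perPot v L (0 + (z.1 - z.2)) : ℂ) *
            (ch L (gfr p j) z.1 * ch L (gfr p j') z.2)) := by
      intro z
      push_cast
      rw [gm_eq, gm_eq, Finset.sum_mul_sum, Finset.mul_sum, zero_add]
      apply Finset.sum_congr rfl; intro j _
      rw [Finset.mul_sum]
      apply Finset.sum_congr rfl; intro j' _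
      ring
    simp_rw [e1]
    rw [integral_finsetSum _ (fun j _ => integrable_finsetSum _ (fun j' _ => (hK j j').const_mul _))]
    apply Finset.sum_congr rfl; intro j _
    rw [integral_finsetSum _ (fun j' _ => (hK j j').const_mul _)]
    apply Finset.sum_congr rfl; intro j' _
    rw [integral_const_mul]
    congr 1
    rw [integral_K hw hwm hwp hwi 0 (gfr p j) (gfr p j')]
    have c0 : ∀ q : Fin 3 → ℤ, ch L q 0 = 1 := by intro q; simp [ch, ph]
    rw [c0, map_one, mul_one]
    rfl
  have hnp : -p ≠ 0 := by simpa using hp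
  have hpp : p + p ≠ 0 := by
    intro h
    apply hp
    ext a
    have := congrFun h a
    simp only [Pi.add_apply, Pi.zero_apply] at this ⊢
    omega
  have hnn : -p + -p ≠ 0 := by
    intro h
    apply hpp
    have : p + p = -(-p + -p) := by abel
    rw [this, h, neg_zero]
  have hsum : ∑ j : Fin 3, ∑ j' : Fin 3, gco θ j * gco θ' j' *
        (if gfr p j + gfr p j' = 0 then coef v L (gfr p j) else 0) =
      coef v L 0 + 1 / 16 * (Complex.exp ((θ - θ' : ℝ) * Complex.I) * coef v L p) +
        1 / 16 * (Complex.exp (-((θ - θ' : ℝ) * Complex.I)) * coef v L (-p)) := by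
    simp only [Fin.sum_univ_three, gco, gfr, Matrix.cons_val_zero, Matrix.cons_val_one,
      Matrix.cons_val]
    simp only [add_zero, zero_add, hp, hnp, hpp, hnn, if_true, if_false, add_neg_cancel,
      neg_add_cancel, mul_zero]
    have e1 : Complex.exp ((θ - θ' : ℝ) * Complex.I) =
        Complex.exp (θ * Complex.I) * Complex.exp (-(θ' * Complex.I)) := by
      rw [← Complex.exp_add]; push_cast; ring_nf
    have e2 : Complex.exp (-((θ - θ' : ℝ) * Complex.I)) =
        Complex.exp (-(θ * Complex.I)) * Complex.exp (θ' * Complex.I) := by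
      rw [← Complex.exp_add]; push_cast; ring_nf
    rw [e1, e2]
    ring
  have hre := congrArg Complex.re (hcalc.trans hsum)
  rw [Complex.ofReal_re] at hre
  rw [hre]
  have hneg : vhat v (frq L (-p)) = conj (vhat v (frq L p)) := by
    have e0 : frq L (-p) = - frq L p := by
      ext a; simp; ring
    rw [e0]
    unfold vhat
    rw [Real.fourier_eq', Real.fourier_eq', ← integral_conj]
    apply integral_congr_ae
    filter_upwards with x
    rw [smul_eq_mul, smul_eq_mul, map_mul, Complex.conj_ofReal, ← Complex.exp_conj, map_mul,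
      Complex.conj_ofReal, Complex.conj_I, inner_neg_right]
    congr 2
    push_cast
    ring
  rw [coef_eq hv, coef_eq hv, coef_eq hv, hneg, frq_zero, vhat_zero, Complex.conj_conj,
    Complex.conj_ofReal]
  have e3 : Complex.exp (-((θ - θ' : ℝ) * Complex.I)) = conj (Complex.exp ((θ - θ' : ℝ) * Complex.I)) := by
    rw [← Complex.exp_conj, map_mul, Complex.conj_ofReal, Complex.conj_I, mul_neg]
  rw [e3]
  set E := Complex.exp ((θ - θ' : ℝ) * Complex.I) with hE
  set z := vhat v (frq L p) with hz
  set c : ℝ := (L ^ 3)⁻¹ with hc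
  simp only [Complex.add_re, Complex.mul_re, Complex.mul_im, Complex.conj_re, Complex.conj_im,
    Complex.ofReal_re, Complex.ofReal_im, Complex.one_re, Complex.one_im, Complex.div_ofNat_re,
    Complex.div_ofNat_im]
  ring

end H47.SE
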